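import Mathlib

open Finset

namespace Pool.Agent.SqrtDC

/-- `⌊√2·2^k⌋` -/
noncomputable def F (k : ℕ) : ℤ := ⌊Real.sqrt 2 * 2^k⌋

/-- `D R = 2^R * Σ_{e ≤ R} dl e * 2^(-e)` -/
noncomputable def D (R : ℕ) : ℤ := F (R+1) - F R

/-- signed digit changes of `√2` in base 2; `√2 = Σ_e dl e * 2^(-e)` -/
noncomputable def dl : ℕ → ℤ
  | 0 => D 0
  | (e+1) => D (e+1) - 2 * D e

/-- support of `dl` up to `N` -/
noncomputable def E (N : ℕ) : Finset ℕ := (range (N+1)).filter (fun e => dl e ≠ 0)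

/-- the masses `dl e * 2^(-e)` modulo `p` -/
noncomputable def vv (p : ℕ) (e : ℕ) : ZMod p := (dl e : ZMod p) * (2⁻¹ : ZMod p)^e

/-- `m`-fold sums of elements of `A` -/
def ss (A : Finset ℕ) : ℕ → Finset ℕ
  | 0 => {0}
  | (m+1) => image₂ (· + ·) A (ss A m)

section clusters

/-- `γ`-starts of `A`: elements of `A` with no element of `A` in the window of length `γ` before it -/
def starts (A : Finset ℕ) (γ : ℕ) : Finset ℕ := A.filter (fun x => ∀ e ∈ A, e < x → e + γ < x)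

/-- the last `γ`-start `≤ e` (it identifies the `γ`-cluster of `e`) -/
def stt (A : Finset ℕ) (γ e : ℕ) : ℕ := ((starts A γ).filter (fun x => x ≤ e)).sup id

variable {K : Type*} [Field K] [DecidableEq K]

/-- total mass of the `γ`-cluster with start `x` -/
def mass (A : Finset ℕ) (v : ℕ → K) (γ x : ℕ) : K :=
  ∑ e ∈ A.filter (fun e => stt A γ e = x), v e

/-- starts of visible `γ`-clusters (clusters with nonzero mass) -/
def vis (A : Finset ℕ) (v : ℕ → K) (γ : ℕ) : Finset ℕ :=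
  (starts A γ).filter (fun x => mass A v γ x ≠ 0)

/-- partial sums -/
def ph (A : Finset ℕ) (v : ℕ → K) (R : ℕ) : K := ∑ e ∈ A.filter (fun e => e ≤ R), v e

end clusters

/-- separation at distance more than `W` -/
def Sep (W x z : ℕ) : Prop := z + W < x ∨ x + W < z

/-- the two dynamical properties of the set of visible clusters -/
structure Dyn (V : Finset ℕ) (N W : ℕ) : Prop where
  f1 : ∀ c, 2*c + W ≤ N → ∃ x ∈ V, c < x ∧ x < 2*c + W
  f2 : ∀ x ∈ V, ∀ y ∈ V, x ≠ y → (∀ z ∈ V, z ≠ x → Sep W x z) → (∀ z ∈ V, z ≠ y → Sep W y z) →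
    x + y + W ≤ N →
    ∃ z ∈ V, ∃ z' ∈ V, z ≠ x ∧ z ≠ y ∧ z' ≠ x ∧ z' ≠ y ∧ z + z' < x + y + W ∧ x + y < z + z' + W

end Pool.Agent.SqrtDC
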