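import Mathlib
import Pool.Agent.SqrtDC.Defs

open Finset

namespace Pool.Agent.SqrtDC

section clus
variable {K : Type*} [Field K] [DecidableEq K] (A : Finset ℕ) (h0 : 0 ∈ A) (v : ℕ → K)

lemma mem_starts {γ x : ℕ} : x ∈ starts A γ ↔ x ∈ A ∧ ∀ e ∈ A, e < x → e + γ < x := by
  simp [starts]

lemma starts_anti {γ γ' : ℕ} (h : γ ≤ γ') : starts A γ' ⊆ starts A γ := by
  intro x hx
  rw [mem_starts] at hx ⊢
  exact ⟨hx.1, fun e he hlt => by have := hx.2 e he hlt; omega⟩

lemma stt_le (γ e : ℕ) : stt A γ e ≤ e := by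
  unfold stt
  apply Finset.sup_le
  intro x hx
  exact (Finset.mem_filter.mp hx).2

lemma le_stt_of_start {γ x e : ℕ} (hx : x ∈ starts A γ) (hxe : x ≤ e) : x ≤ stt A γ e := by
  unfold stt
  exact Finset.le_sup (f := id) (Finset.mem_filter.mpr ⟨hx, hxe⟩)

lemma stt_mem_of_le {γ x e : ℕ} (hx : x ∈ starts A γ) (hxe : x ≤ e) :
    stt A γ e ∈ starts A γ := by
  have hne : ((starts A γ).filter (fun x => x ≤ e)).Nonempty :=
    ⟨x, Finset.mem_filter.mpr ⟨hx, hxe⟩⟩
  obtain ⟨y, hy, hy'⟩ := Finset.exists_mem_eq_sup _ hne (id : ℕ → ℕ)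
  unfold stt
  rw [hy']
  exact (Finset.mem_filter.mp hy).1

lemma stt_mem' {γ e : ℕ} (he : e ∈ A) : stt A γ e ∈ starts A γ := by
  have hne : A.Nonempty := ⟨e, he⟩
  have hmin : A.min' hne ∈ starts A γ := by
    rw [mem_starts]
    refine ⟨A.min'_mem hne, fun e' he' hlt => ?_⟩
    have := A.min'_le e' he'
    omega
  exact stt_mem_of_le A hmin (A.min'_le e he)

include h0 in
lemma stt_mem (γ e : ℕ) : stt A γ e ∈ starts A γ := by
  have hz : 0 ∈ starts A γ := by
    rw [mem_starts]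
    exact ⟨h0, fun e' _ hlt => absurd hlt (Nat.not_lt_zero _)⟩
  exact stt_mem_of_le A hz (Nat.zero_le _)

lemma stt_mono {γ e e' : ℕ} (h : e ≤ e') : stt A γ e ≤ stt A γ e' := by
  unfold stt
  apply Finset.sup_mono
  intro x hx
  rw [Finset.mem_filter] at hx ⊢
  exact ⟨hx.1, hx.2.trans h⟩

lemma stt_start {γ x : ℕ} (hx : x ∈ starts A γ) : stt A γ x = x :=
  le_antisymm (stt_le A γ x) (le_stt_of_start A hx le_rfl)

/-- elements of `A` at distance `≤ γ` are in the same `γ`-cluster -/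
lemma stt_eq_of_near {γ e e' : ℕ} (he : e ∈ A) (he' : e' ∈ A) (h1 : e ≤ e') (h2 : e' ≤ e + γ) :
    stt A γ e = stt A γ e' := by
  unfold stt
  congr 1
  ext x
  rw [Finset.mem_filter, Finset.mem_filter]
  constructor
  · rintro ⟨hx, hxe⟩
    exact ⟨hx, hxe.trans h1⟩
  · rintro ⟨hx, hxe⟩
    refine ⟨hx, ?_⟩
    by_contra hlt
    push Not at hlt
    have := ((mem_starts A).mp hx).2 e he hlt
    omega

lemma le_stt_aux (γ : ℕ) : ∀ e ∈ A, e ≤ stt A γ e + #(A.filter (fun y => y < e)) * γ := by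
  intro e
  induction e using Nat.strong_induction_on with
  | _ e ih =>
    intro he
    by_cases hs : e ∈ starts A γ
    · rw [stt_start A hs]; exact Nat.le_add_right _ _
    · rw [mem_starts] at hs
      push Not at hs
      obtain ⟨e', he', hlt, hle⟩ := hs he
      have h1 := ih e' hlt he'
      have h2 := stt_eq_of_near A he' he hlt.le hle
      rw [h2] at h1
      have h3 : #(A.filter (fun y => y < e')) + 1 ≤ #(A.filter (fun y => y < e)) := by
        have : insert e' (A.filter (fun y => y < e')) ⊆ A.filter (fun y => y < e) := by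
          intro y hy
          rw [Finset.mem_insert, Finset.mem_filter] at hy
          rw [Finset.mem_filter]
          rcases hy with rfl | hy
          · exact ⟨he', hlt⟩
          · exact ⟨hy.1, hy.2.trans hlt⟩
        have hc := Finset.card_le_card this
        rwa [Finset.card_insert_of_notMem (by simp)] at hc
      calc e ≤ e' + γ := hle
        _ ≤ stt A γ e + #(A.filter (fun y => y < e')) * γ + γ := by omega
        _ = stt A γ e + (#(A.filter (fun y => y < e')) + 1) * γ := by ring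
        _ ≤ stt A γ e + #(A.filter (fun y => y < e)) * γ := by
            have := Nat.mul_le_mul_right γ h3
            omega

lemma le_stt' (γ e t : ℕ) (ht : #A ≤ t) (he : e ∈ A) : e ≤ stt A γ e + t * γ := by
  have h1 := le_stt_aux A γ e he
  have h2 : #(A.filter (fun y => y < e)) ≤ t := (Finset.card_filter_le _ _).trans ht
  have := Nat.mul_le_mul_right γ h2
  omega

include h0 in
lemma le_stt (γ e t : ℕ) (ht : #A ≤ t) (he : e ∈ A) : e ≤ stt A γ e + t * γ :=
  le_stt' A γ e t ht he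

lemma stt_stt {γ γ' : ℕ} (h : γ ≤ γ') (e : ℕ) : stt A γ' (stt A γ e) = stt A γ' e := by
  apply le_antisymm
  · exact stt_mono A (stt_le A γ e)
  · conv_lhs => unfold stt
    apply Finset.sup_le
    intro x hx
    rw [Finset.mem_filter] at hx
    exact le_stt_of_start A hx.1 (le_stt_of_start A (starts_anti A h hx.1) hx.2)

/-- cluster masses add up -/
lemma mass_sum {γ γ' : ℕ} (h : γ ≤ γ') (x' : ℕ) :
    mass A v γ' x' = ∑ x ∈ (starts A γ).filter (fun x => stt A γ' x = x'), mass A v γ x := by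
  unfold mass
  rw [← Finset.sum_fiberwise_of_maps_to (s := A.filter (fun e => stt A γ' e = x'))
    (t := (starts A γ).filter (fun x => stt A γ' x = x')) (g := stt A γ)]
  · apply Finset.sum_congr rfl
    intro x hx
    rw [Finset.mem_filter] at hx
    apply Finset.sum_congr _ (fun _ _ => rfl)
    ext e
    simp only [Finset.mem_filter]
    constructor
    · rintro ⟨⟨h1, _⟩, h3⟩
      exact ⟨h1, h3⟩
    · rintro ⟨h1, h3⟩
      refine ⟨⟨h1, ?_⟩, h3⟩
      rw [← stt_stt A h e, h3, hx.2]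
  · intro e he
    rw [Finset.mem_filter] at he
    rw [Finset.mem_filter]
    exact ⟨stt_mem' A he.1, by rw [stt_stt A h e]; exact he.2⟩

lemma vis_sub {γ γ' : ℕ} (h : γ ≤ γ') {x' : ℕ} (hx' : x' ∈ vis A v γ') :
    ∃ x ∈ vis A v γ, stt A γ' x = x' := by
  unfold vis at hx' ⊢
  rw [Finset.mem_filter] at hx'
  have h1 := hx'.2
  rw [mass_sum A v h x'] at h1
  obtain ⟨x, hx, hne⟩ := Finset.exists_ne_zero_of_sum_ne_zero h1
  rw [Finset.mem_filter] at hx
  exact ⟨x, Finset.mem_filter.mpr ⟨hx.1, hne⟩, hx.2⟩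

include h0 in
/-- the mass of a cluster as a difference of partial sums at cuts -/
lemma mass_eq_ph (γ t x : ℕ) (ht : #A ≤ t) (hx : x ∈ starts A γ) :
    ∃ c, c ∈ A ∧ x ≤ c ∧ c ≤ x + t * γ ∧ (∀ e ∈ A, c < e → c + γ < e) ∧ stt A γ c = x ∧
      mass A v γ x + (∑ e ∈ A.filter (fun e => e < x), v e) = ph A v c := by
  have hxA : x ∈ A := ((mem_starts A).mp hx).1
  have hne : (A.filter (fun e => stt A γ e = x)).Nonempty :=
    ⟨x, Finset.mem_filter.mpr ⟨hxA, stt_start A hx⟩⟩
  set c := (A.filter (fun e => stt A γ e = x)).max' hne with hc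
  have hcm : c ∈ A.filter (fun e => stt A γ e = x) := Finset.max'_mem _ hne
  rw [Finset.mem_filter] at hcm
  have hxc : x ≤ c := by
    have := stt_le A γ c
    rw [hcm.2] at this
    exact this
  have hct : c ≤ x + t * γ := by
    have := le_stt' A γ c t ht hcm.1
    rwa [hcm.2] at this
  have hmax : ∀ e ∈ A, stt A γ e = x → e ≤ c := fun e he hse =>
    Finset.le_max' _ e (Finset.mem_filter.mpr ⟨he, hse⟩)
  refine ⟨c, hcm.1, hxc, hct, ?_, hcm.2, ?_⟩
  · intro e he hlt
    by_contra hle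
    push Not at hle
    have h1 := stt_eq_of_near A hcm.1 he hlt.le hle
    have := hmax e he (by rw [← h1]; exact hcm.2)
    omega
  · unfold mass ph
    rw [← Finset.sum_union]
    · apply Finset.sum_congr _ (fun _ _ => rfl)
      ext e
      simp only [Finset.mem_union, Finset.mem_filter]
      constructor
      · rintro (⟨h1, h2⟩ | ⟨h1, h2⟩)
        · exact ⟨h1, hmax e h1 h2⟩
        · exact ⟨h1, by omega⟩
      · rintro ⟨h1, h2⟩
        by_cases hlt : e < x
        · exact Or.inr ⟨h1, hlt⟩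
        · left
          refine ⟨h1, ?_⟩
          push Not at hlt
          apply le_antisymm
          · have := stt_mono A (γ := γ) h2
            rwa [hcm.2] at this
          · exact le_stt_of_start A hx hlt
    · rw [Finset.disjoint_left]
      intro e he he'
      rw [Finset.mem_filter] at he he'
      have := stt_le A γ e
      rw [he.2] at this
      omega

lemma sum_mass (γ : ℕ) (g : ℕ → K) :
    ∑ e ∈ A, g (stt A γ e) * v e = ∑ x ∈ starts A γ, g x * mass A v γ x := by
  rw [← Finset.sum_fiberwise_of_maps_to (s := A) (t := starts A γ) (g := stt A γ)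
    (fun e he => stt_mem' A he)]
  apply Finset.sum_congr rfl
  intro x _
  unfold mass
  rw [Finset.mul_sum]
  apply Finset.sum_congr rfl
  intro e he
  rw [(Finset.mem_filter.mp he).2]

lemma sum_mass_vis (γ : ℕ) (g : ℕ → K) :
    ∑ x ∈ starts A γ, g x * mass A v γ x = ∑ x ∈ vis A v γ, g x * mass A v γ x := by
  unfold vis
  rw [Finset.sum_filter]
  apply Finset.sum_congr rfl
  intro x _
  by_cases hm : mass A v γ x = 0
  · simp [hm]
  · simp [hm]

lemma double_sum (γ R : ℕ)
    (hR : ∀ e ∈ A, ∀ e' ∈ A, (e + e' ≤ R ↔ stt A γ e + stt A γ e' ≤ R)) :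
    ∑ e ∈ A, ∑ e' ∈ A.filter (fun e' => e + e' ≤ R), v e * v e' =
      ∑ x ∈ vis A v γ, ∑ x' ∈ (vis A v γ).filter (fun x' => x + x' ≤ R),
        mass A v γ x * mass A v γ x' := by
  have h1 : ∀ e ∈ A, ∑ e' ∈ A.filter (fun e' => e + e' ≤ R), v e * v e' =
      (∑ x' ∈ vis A v γ, (if stt A γ e + x' ≤ R then (1:K) else 0) * mass A v γ x') * v e := by
    intro e he
    rw [← sum_mass_vis A v γ (fun x' => if stt A γ e + x' ≤ R then (1:K) else 0),
      ← sum_mass A v γ (fun x' => if stt A γ e + x' ≤ R then (1:K) else 0),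
      Finset.sum_filter, Finset.sum_mul]
    apply Finset.sum_congr rfl
    intro e' he'
    by_cases hc : e + e' ≤ R
    · rw [if_pos hc, if_pos ((hR e he e' he').mp hc)]
      ring
    · rw [if_neg hc, if_neg (fun h => hc ((hR e he e' he').mpr h))]
      ring
  rw [Finset.sum_congr rfl h1,
    sum_mass A v γ (fun x => ∑ x' ∈ vis A v γ, (if x + x' ≤ R then (1:K) else 0) * mass A v γ x'),
    sum_mass_vis A v γ
      (fun x => ∑ x' ∈ vis A v γ, (if x + x' ≤ R then (1:K) else 0) * mass A v γ x')]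
  apply Finset.sum_congr rfl
  intro x _
  rw [Finset.sum_mul, Finset.sum_filter]
  apply Finset.sum_congr rfl
  intro x' _
  by_cases hc : x + x' ≤ R
  · simp [hc, mul_comm]
  · simp [hc]

include h0 in
/-- coarse form of a bilinear identity -/
theorem coarse (c : K) (N Λ γ W t : ℕ) (ht : #A ≤ t) (hW : Λ*t^2 + 2*t^3*γ + 1 ≤ W)
    (hex : ∀ R, R + Λ ≤ N → (∀ e ∈ A, ∀ e' ∈ A, ¬ (R < e + e' ∧ e + e' ≤ R + Λ)) →
      ∑ e ∈ A, ∑ e' ∈ A.filter (fun e' => e + e' ≤ R), v e * v e' = c)
    (a : ℕ) (ha : a + W + Λ ≤ N) :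
    ∃ R, a ≤ R ∧ R < a + W ∧
      ∑ x ∈ vis A v γ, ∑ x' ∈ (vis A v γ).filter (fun x' => x + x' ≤ R),
        mass A v γ x * mass A v γ x' = c := by
  classical
  -- the set of bad `R`
  let B1 : Finset ℕ := (A ×ˢ A).biUnion (fun q => Finset.Ico (q.1 + q.2 - Λ) (q.1 + q.2))
  let B2 : Finset ℕ := (A ×ˢ A).biUnion
    (fun q => Finset.Ico (stt A γ q.1 + stt A γ q.2) (q.1 + q.2))
  have hcard2 : #(A ×ˢ A) ≤ t^2 := by
    rw [Finset.card_product, pow_two]
    exact Nat.mul_le_mul ht ht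
  have hB1 : #B1 ≤ t^2 * Λ := by
    refine (Finset.card_biUnion_le_card_mul _ _ Λ ?_).trans (Nat.mul_le_mul_right _ hcard2)
    intro q _
    rw [Nat.card_Ico]
    omega
  have hB2 : #B2 ≤ t^2 * (2 * (t * γ)) := by
    refine (Finset.card_biUnion_le_card_mul _ _ (2 * (t * γ)) ?_).trans
      (Nat.mul_le_mul_right _ hcard2)
    intro q hq
    rw [Finset.mem_product] at hq
    rw [Nat.card_Ico]
    have h1 := le_stt' A γ q.1 t ht hq.1
    have h2 := le_stt' A γ q.2 t ht hq.2
    omega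
  have hlt : #(B1 ∪ B2) < #(Finset.Ico a (a + W)) := by
    rw [Nat.card_Ico]
    have h1 := Finset.card_union_le B1 B2
    have h2 : t^2 * Λ + t^2 * (2 * (t * γ)) = Λ*t^2 + 2*t^3*γ := by ring
    omega
  obtain ⟨R, hR1, hR2⟩ := Finset.exists_mem_notMem_of_card_lt_card hlt
  rw [Finset.mem_Ico] at hR1
  rw [Finset.mem_union, not_or] at hR2
  refine ⟨R, hR1.1, hR1.2, ?_⟩
  rw [← double_sum A v γ R]
  · apply hex R (by omega)
    intro e he e' he' ⟨h1, h2⟩
    apply hR2.1
    rw [Finset.mem_biUnion]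
    refine ⟨(e, e'), Finset.mem_product.mpr ⟨he, he'⟩, ?_⟩
    rw [Finset.mem_Ico]
    constructor
    · show e + e' - Λ ≤ R
      omega
    · exact h1
  · intro e he e' he'
    constructor
    · intro h
      have h1 := stt_le A γ e
      have h2 := stt_le A γ e'
      omega
    · intro h
      by_contra hc
      push Not at hc
      apply hR2.2
      rw [Finset.mem_biUnion]
      exact ⟨(e, e'), Finset.mem_product.mpr ⟨he, he'⟩, Finset.mem_Ico.mpr ⟨h, hc⟩⟩

end clus

end Pool.Agent.SqrtDC
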