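import Mathlib
import Pool.Agent.SqrtDC.Defs

open Finset

namespace Pool.Agent.SqrtDC

/-! ## Module A (Exact.lean): real number input -/

lemma D_zero : D 0 = 1 := by
  have h1 : F 0 = 1 := by
    unfold F
    rw [Int.floor_eq_iff]
    have h2 : (1:ℝ) ≤ Real.sqrt 2 := by
      rw [Real.one_le_sqrt]; norm_num
    have h3 : Real.sqrt 2 < 2 := by
      rw [Real.sqrt_lt' (by norm_num)]; norm_num
    constructor
    · push_cast; linarith
    · push_cast; linarith
  have h2 : F (0+1) = 2 := by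
    unfold F
    rw [Int.floor_eq_iff]
    have h2 : (1:ℝ) ≤ Real.sqrt 2 := by
      rw [Real.one_le_sqrt]; norm_num
    have h3 : Real.sqrt 2 < 3/2 := by
      rw [Real.sqrt_lt' (by norm_num)]; norm_num
    constructor
    · push_cast; linarith
    · push_cast; linarith
  unfold D
  rw [h1, h2]; norm_num

lemma F_step (k : ℕ) : F (k+1) = 2 * F k ∨ F (k+1) = 2 * F k + 1 := by
  have h1 : F k ≤ Real.sqrt 2 * 2^k := Int.floor_le _
  have h2 : Real.sqrt 2 * 2^k < F k + 1 := Int.lt_floor_add_one _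
  have h3 : F (k+1) ≤ Real.sqrt 2 * 2^(k+1) := Int.floor_le _
  have h4 : Real.sqrt 2 * 2^(k+1) < F (k+1) + 1 := Int.lt_floor_add_one _
  have e : Real.sqrt 2 * 2^(k+1) = 2 * (Real.sqrt 2 * 2^k) := by ring
  rw [e] at h3 h4
  have h5 : (2 * F k : ℤ) < F (k+1) + 1 := by
    have : ((2 * F k : ℤ) : ℝ) < ((F (k+1) + 1 : ℤ) : ℝ) := by push_cast; linarith
    exact_mod_cast this
  have h6 : (F (k+1) : ℤ) < 2 * F k + 2 := by
    have : ((F (k+1) : ℤ) : ℝ) < ((2 * F k + 2 : ℤ) : ℝ) := by push_cast; linarith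
    exact_mod_cast this
  omega

lemma D_eq_sum (R : ℕ) : D R = ∑ e ∈ range (R+1), dl e * 2^(R-e) := by
  induction R with
  | zero => simp [dl]
  | succ R ih =>
    rw [Finset.sum_range_succ]
    have h1 : ∑ e ∈ range (R+1), dl e * 2^(R+1-e) = 2 * ∑ e ∈ range (R+1), dl e * 2^(R-e) := by
      rw [Finset.mul_sum]
      refine Finset.sum_congr rfl fun e he => ?_
      have : e ≤ R := by simpa [Nat.lt_succ_iff] using Finset.mem_range.1 he
      rw [Nat.succ_sub this, pow_succ]; ring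
    rw [h1, ← ih]
    simp only [dl, Nat.sub_self, pow_zero, mul_one]
    ring

lemma dl_abs (e : ℕ) : |dl e| ≤ 1 := by
  cases e with
  | zero => simp [dl, D_zero]
  | succ e =>
    simp only [dl, D]
    rcases F_step e with h1 | h1 <;> rcases F_step (e+1) with h2 | h2 <;>
      rw [h2, h1] <;> rw [abs_le] <;> constructor <;> linarith

lemma zero_mem_E (N : ℕ) : 0 ∈ E N := by
  simp [E, dl, D_zero]

/-- digit change at `e ≥ 1` -/
lemma dl_ne_zero_iff (e : ℕ) (he : 1 ≤ e) :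
    dl e ≠ 0 ↔ ⌊Real.sqrt 2 * 2^e⌋ % 2 ≠ ⌊Real.sqrt 2 * 2^(e+1)⌋ % 2 := by
  obtain ⟨e, rfl⟩ : ∃ k, e = k + 1 := ⟨e - 1, by omega⟩
  change dl (e+1) ≠ 0 ↔ F (e+1) % 2 ≠ F (e+1+1) % 2
  simp only [dl, D]
  rcases F_step e with h1 | h1 <;> rcases F_step (e+1) with h2 | h2 <;> omega

lemma D_sub_abs (M : ℕ) : |(D M : ℝ) - Real.sqrt 2 * 2^M| < 1 := by
  have h1 : F M ≤ Real.sqrt 2 * 2^M := Int.floor_le _
  have h2 : Real.sqrt 2 * 2^M < F M + 1 := Int.lt_floor_add_one _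
  have h3 : F (M+1) ≤ Real.sqrt 2 * 2^(M+1) := Int.floor_le _
  have h4 : Real.sqrt 2 * 2^(M+1) < F (M+1) + 1 := Int.lt_floor_add_one _
  have e : Real.sqrt 2 * 2^(M+1) = 2 * (Real.sqrt 2 * 2^M) := by ring
  rw [e] at h3 h4
  unfold D
  push_cast
  rw [abs_lt]
  constructor <;> linarith

lemma D_sq_abs (M : ℕ) : |D M ^ 2 - 2 * 4^M| ≤ 4 * 2^M := by
  have h1 := D_sub_abs M
  have hs0 : (0:ℝ) ≤ Real.sqrt 2 := Real.sqrt_nonneg 2
  have hs : Real.sqrt 2 ^ 2 = 2 := Real.sq_sqrt (by norm_num)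
  have h3 : Real.sqrt 2 < 3/2 := by
    rw [Real.sqrt_lt' (by norm_num)]; norm_num
  have hp : (1:ℝ) ≤ 2^M := one_le_pow₀ (by norm_num)
  set s : ℝ := Real.sqrt 2 * 2^M with hsdef
  have hss : s^2 = 2 * 4^M := by
    rw [hsdef, mul_pow, hs, ← pow_mul, mul_comm M 2, pow_mul]; norm_num
  have hsb : s ≤ 3/2 * 2^M := by
    rw [hsdef]; exact mul_le_mul_of_nonneg_right h3.le (by positivity)
  have hs0' : 0 ≤ s := by positivity
  have h5 : |(D M : ℝ) + s| ≤ 4 * 2^M := by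
    have : |(D M : ℝ) + s| ≤ |(D M : ℝ) - s| + |2 * s| := by
      have : (D M : ℝ) + s = ((D M : ℝ) - s) + 2 * s := by ring
      rw [this]; exact abs_add_le _ _
    rw [abs_of_nonneg (by positivity : (0:ℝ) ≤ 2 * s)] at this
    linarith
  have h6 : |(D M : ℝ)^2 - 2 * 4^M| ≤ 4 * 2^M := by
    rw [← hss, show (D M : ℝ)^2 - s^2 = ((D M : ℝ) - s) * ((D M : ℝ) + s) by ring, abs_mul]
    calc |(D M : ℝ) - s| * |(D M : ℝ) + s| ≤ 1 * (4 * 2^M) :=
          mul_le_mul h1.le h5 (abs_nonneg _) (by norm_num)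
      _ = 4 * 2^M := by ring
  have h7 : ((|D M ^ 2 - 2 * 4^M| : ℤ) : ℝ) ≤ ((4 * 2^M : ℤ) : ℝ) := by
    push_cast; exact h6
  exact_mod_cast h7

/-- inner geometric sum -/
lemma geom_tail (M e : ℕ) (he : e ≤ M) :
    ∑ e' ∈ (range (M+1)).filter (fun e' => M < e + e'), (2:ℤ)^(M-e') ≤ 2^e := by
  have h : ∑ e' ∈ (range (M+1)).filter (fun e' => M < e + e'), (2:ℤ)^(M-e')
      = ∑ j ∈ range e, (2:ℤ)^j := by
    refine Finset.sum_nbij' (fun e' => M - e') (fun j => M - j) ?_ ?_ ?_ ?_ ?_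
    · intro a ha; simp only [mem_filter, mem_range] at ha ⊢; omega
    · intro a ha; simp only [mem_filter, mem_range] at ha ⊢; omega
    · intro a ha; simp only [mem_filter, mem_range] at ha ⊢; omega
    · intro a ha; simp only [mem_range] at ha ⊢; omega
    · intro a ha; rfl
  rw [h]
  have h2 : ∀ n : ℕ, ∑ j ∈ range n, (2:ℤ)^j = 2^n - 1 := by
    intro n
    induction n with
    | zero => simp
    | succ n ih => rw [Finset.sum_range_succ, ih, pow_succ]; ring
  rw [h2]; linarith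

/-- the sum over `E N` as a sum over a range -/
lemma sum_E_range (R M N : ℕ) (hR : R ≤ M) (hM : M ≤ N) :
    ∑ e ∈ E N, ∑ e' ∈ (E N).filter (fun e' => e + e' ≤ R), dl e * dl e' * 2^(R - (e + e'))
      = ∑ e ∈ range (M+1), ∑ e' ∈ range (M+1),
          if e + e' ≤ R then dl e * dl e' * 2^(R - (e + e')) else 0 := by
  have h1 : ∀ e, ∑ e' ∈ (E N).filter (fun e' => e + e' ≤ R), dl e * dl e' * 2^(R - (e + e'))
      = ∑ e' ∈ range (M+1), if e + e' ≤ R then dl e * dl e' * 2^(R - (e + e')) else 0 := by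
    intro e
    rw [Finset.sum_filter]
    unfold E
    rw [Finset.sum_filter]
    have h3 : ∑ a ∈ range (N+1), (if dl a ≠ 0 then
        (if e + a ≤ R then dl e * dl a * 2^(R - (e + a)) else 0) else 0)
        = ∑ a ∈ range (N+1), (if e + a ≤ R then dl e * dl a * 2^(R - (e + a)) else 0) := by
      refine Finset.sum_congr rfl fun a _ => ?_
      by_cases h : dl a = 0
      · simp [h]
      · simp [h]
    rw [h3]
    symm
    apply Finset.sum_subset
    · intro x hx; simp only [mem_range] at hx ⊢; omega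
    · intro x _ hx'
      simp only [mem_range, not_lt] at hx'
      rw [if_neg (by omega)]
  rw [Finset.sum_congr rfl fun e _ => h1 e]
  unfold E
  rw [Finset.sum_filter]
  have h3 : ∑ a ∈ range (N+1), (if dl a ≠ 0 then
      ∑ e' ∈ range (M+1), (if a + e' ≤ R then dl a * dl e' * 2^(R - (a + e')) else 0) else 0)
      = ∑ a ∈ range (N+1),
        ∑ e' ∈ range (M+1), (if a + e' ≤ R then dl a * dl e' * 2^(R - (a + e')) else 0) := by
    refine Finset.sum_congr rfl fun a _ => ?_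
    by_cases h : dl a = 0
    · simp [h]
    · simp [h]
  rw [h3]
  symm
  apply Finset.sum_subset
  · intro x hx; simp only [mem_range] at hx ⊢; omega
  · intro x _ hx'
    simp only [mem_range, not_lt] at hx'
    refine Finset.sum_eq_zero fun y _ => ?_
    rw [if_neg (by omega)]

/-- exactness of 2-sums -/
theorem exact2 (R Λ N : ℕ) (hN : R + Λ ≤ N) (hΛ : 2*N + 10 ≤ 2^Λ)
    (hgood : ∀ e ∈ E N, ∀ e' ∈ E N, ¬ (R < e + e' ∧ e + e' ≤ R + Λ)) :
    ∑ e ∈ E N, ∑ e' ∈ (E N).filter (fun e' => e + e' ≤ R), dl e * dl e' * 2^(R - (e + e'))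
      = 2^(R+1) := by
  set M := R + Λ with hM
  rw [sum_E_range R M N (by omega) hN]
  set C : ℤ := ∑ e ∈ range (M+1), ∑ e' ∈ range (M+1),
          if e + e' ≤ R then dl e * dl e' * 2^(R - (e + e')) else 0 with hC
  have hD : D M ^ 2 = ∑ e ∈ range (M+1), ∑ e' ∈ range (M+1),
      (dl e * 2^(M-e)) * (dl e' * 2^(M-e')) := by
    rw [sq, D_eq_sum, Finset.sum_mul_sum]
  have hdiff : D M ^ 2 - 2^(M+Λ) * C = ∑ e ∈ range (M+1), ∑ e' ∈ (range (M+1)).filter
      (fun e' => M < e + e'), (dl e * 2^(M-e)) * (dl e' * 2^(M-e')) := by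
    rw [hD, hC, Finset.mul_sum, ← Finset.sum_sub_distrib]
    refine Finset.sum_congr rfl fun e he => ?_
    rw [Finset.mul_sum, ← Finset.sum_sub_distrib, Finset.sum_filter]
    refine Finset.sum_congr rfl fun e' he' => ?_
    have he1 : e ≤ M := by simpa [Nat.lt_succ_iff] using Finset.mem_range.1 he
    have he2 : e' ≤ M := by simpa [Nat.lt_succ_iff] using Finset.mem_range.1 he'
    by_cases h1 : e + e' ≤ R
    · rw [if_pos h1, if_neg (by omega)]
      have h2 : (2:ℤ)^(M-e) * 2^(M-e') = 2^(M+Λ) * 2^(R-(e+e')) := by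
        rw [← pow_add, ← pow_add]; congr 1; omega
      have h3 : (dl e * 2^(M-e)) * (dl e' * 2^(M-e')) = dl e * dl e' * (2^(M-e) * 2^(M-e')) := by
        ring
      rw [h3, h2]; ring
    · rw [if_neg h1]
      by_cases h2 : M < e + e'
      · rw [if_pos h2]; ring
      · rw [if_neg h2]
        have h3 : dl e = 0 ∨ dl e' = 0 := by
          by_contra hcon
          push Not at hcon
          have m1 : e ∈ E N := by
            simp only [E, mem_filter, mem_range]; exact ⟨by omega, hcon.1⟩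
          have m2 : e' ∈ E N := by
            simp only [E, mem_filter, mem_range]; exact ⟨by omega, hcon.2⟩
          exact hgood e m1 e' m2 ⟨by omega, by omega⟩
        rcases h3 with h3 | h3 <;> rw [h3] <;> ring
  have hb : |D M ^ 2 - 2^(M+Λ) * C| ≤ ((M:ℤ)+1) * 2^M := by
    rw [hdiff]
    calc |∑ e ∈ range (M+1), ∑ e' ∈ (range (M+1)).filter
            (fun e' => M < e + e'), (dl e * 2^(M-e)) * (dl e' * 2^(M-e'))|
        ≤ ∑ e ∈ range (M+1), |∑ e' ∈ (range (M+1)).filter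
            (fun e' => M < e + e'), (dl e * 2^(M-e)) * (dl e' * 2^(M-e'))| :=
          Finset.abs_sum_le_sum_abs _ _
      _ ≤ ∑ e ∈ range (M+1), (2:ℤ)^M := by
          refine Finset.sum_le_sum fun e he => ?_
          have he1 : e ≤ M := by simpa [Nat.lt_succ_iff] using Finset.mem_range.1 he
          calc |∑ e' ∈ (range (M+1)).filter
                (fun e' => M < e + e'), (dl e * 2^(M-e)) * (dl e' * 2^(M-e'))|
              ≤ ∑ e' ∈ (range (M+1)).filter (fun e' => M < e + e'),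
                  |(dl e * 2^(M-e)) * (dl e' * 2^(M-e'))| := Finset.abs_sum_le_sum_abs _ _
            _ ≤ ∑ e' ∈ (range (M+1)).filter (fun e' => M < e + e'),
                  (2:ℤ)^(M-e) * 2^(M-e') := by
                refine Finset.sum_le_sum fun e' _ => ?_
                rw [abs_mul, abs_mul, abs_mul]
                have p1 : |(2:ℤ)^(M-e)| = 2^(M-e) := abs_of_nonneg (by positivity)
                have p2 : |(2:ℤ)^(M-e')| = 2^(M-e') := abs_of_nonneg (by positivity)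
                rw [p1, p2]
                have q1 : |dl e| * 2^(M-e) ≤ 1 * 2^(M-e) :=
                  mul_le_mul_of_nonneg_right (dl_abs e) (by positivity)
                have q2 : |dl e'| * 2^(M-e') ≤ 1 * 2^(M-e') :=
                  mul_le_mul_of_nonneg_right (dl_abs e') (by positivity)
                calc |dl e| * 2^(M-e) * (|dl e'| * 2^(M-e'))
                    ≤ (1 * 2^(M-e)) * (1 * 2^(M-e')) := mul_le_mul q1 q2 (by positivity)
                      (by positivity)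
                  _ = _ := by ring
            _ = 2^(M-e) * ∑ e' ∈ (range (M+1)).filter (fun e' => M < e + e'),
                  (2:ℤ)^(M-e') := by rw [Finset.mul_sum]
            _ ≤ 2^(M-e) * 2^e := mul_le_mul_of_nonneg_left (geom_tail M e he1) (by positivity)
            _ = 2^M := by rw [← pow_add]; congr 1; omega
      _ = ((M:ℤ)+1) * 2^M := by simp
  have hsq := D_sq_abs M
  have htot : |2^(M+Λ) * (C - 2^(R+1))| ≤ ((M:ℤ)+5) * 2^M := by
    have e1 : (2:ℤ)^(M+Λ) * (C - 2^(R+1)) = (D M ^ 2 - 2 * 4^M) - (D M ^ 2 - 2^(M+Λ) * C) := by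
      have e2 : (2:ℤ)^(M+Λ) * 2^(R+1) = 2 * 4^M := by
        rw [← pow_add, show (4:ℤ) = 2^2 by norm_num, ← pow_mul, mul_comm (2:ℤ), ← pow_succ]
        congr 1; omega
      rw [mul_sub, e2]; ring
    rw [e1]
    calc |(D M ^ 2 - 2 * 4^M) - (D M ^ 2 - 2^(M+Λ) * C)|
        ≤ |D M ^ 2 - 2 * 4^M| + |D M ^ 2 - 2^(M+Λ) * C| := abs_sub _ _
      _ ≤ 4 * 2^M + ((M:ℤ)+1) * 2^M := add_le_add hsq hb
      _ = ((M:ℤ)+5) * 2^M := by ring
  by_contra hne
  have h1 : 1 ≤ |C - 2^(R+1)| := Int.one_le_abs (sub_ne_zero.2 hne)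
  rw [abs_mul, abs_of_nonneg (by positivity : (0:ℤ) ≤ 2^(M+Λ)), pow_add, mul_assoc] at htot
  have h2 : (2:ℤ)^M * (2^Λ * 1) ≤ 2^M * ((M:ℤ)+5) := by
    calc (2:ℤ)^M * (2^Λ * 1) ≤ 2^M * (2^Λ * |C - 2^(R+1)|) := by gcongr
      _ ≤ ((M:ℤ)+5) * 2^M := htot
      _ = 2^M * ((M:ℤ)+5) := by ring
  have h3 : (2:ℤ)^Λ * 1 ≤ (M:ℤ) + 5 := le_of_mul_le_mul_left h2 (by positivity)
  have h4 : (2 * N + 10 : ℤ) ≤ 2^Λ := by exact_mod_cast hΛ
  have h5 : (M : ℤ) ≤ N := by exact_mod_cast hN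
  have h6 : (0:ℤ) ≤ N := by positivity
  linarith

/-- the same in `ZMod p` -/
theorem exact2_mod (p : ℕ) [Fact p.Prime] (hp : p ≠ 2) (R Λ N : ℕ) (hN : R + Λ ≤ N)
    (hΛ : 2*N + 10 ≤ 2^Λ)
    (hgood : ∀ e ∈ E N, ∀ e' ∈ E N, ¬ (R < e + e' ∧ e + e' ≤ R + Λ)) :
    ∑ e ∈ E N, ∑ e' ∈ (E N).filter (fun e' => e + e' ≤ R), vv p e * vv p e' = 2 := by
  have h := exact2 R Λ N hN hΛ hgood
  have h20 : (2 : ZMod p) ≠ 0 := by
    intro h0
    have : ((2:ℕ) : ZMod p) = 0 := by exact_mod_cast h0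
    rw [ZMod.natCast_eq_zero_iff] at this
    have := (Nat.prime_dvd_prime_iff_eq (Fact.out : p.Prime) Nat.prime_two).1 this
    exact hp this
  have h2 : ((∑ e ∈ E N, ∑ e' ∈ (E N).filter (fun e' => e + e' ≤ R),
      dl e * dl e' * 2^(R - (e + e')) : ℤ) : ZMod p) = ((2^(R+1) : ℤ) : ZMod p) := by rw [h]
  push_cast at h2
  have h3 : ∑ e ∈ E N, ∑ e' ∈ (E N).filter (fun e' => e + e' ≤ R), vv p e * vv p e'
      = (2⁻¹ : ZMod p)^R * ∑ e ∈ E N, ∑ e' ∈ (E N).filter (fun e' => e + e' ≤ R),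
        (dl e : ZMod p) * dl e' * 2^(R - (e + e')) := by
    rw [Finset.mul_sum]
    refine Finset.sum_congr rfl fun e _ => ?_
    rw [Finset.mul_sum]
    refine Finset.sum_congr rfl fun e' he' => ?_
    have hle : e + e' ≤ R := (Finset.mem_filter.1 he').2
    unfold vv
    have h4 : (2⁻¹ : ZMod p)^R = (2⁻¹ : ZMod p)^(e+e') * (2⁻¹ : ZMod p)^(R-(e+e')) := by
      rw [← pow_add]; congr 1; omega
    have h5 : (2⁻¹ : ZMod p)^(R-(e+e')) * 2^(R-(e+e')) = 1 := by
      rw [← mul_pow, inv_mul_cancel₀ h20, one_pow]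
    calc (dl e : ZMod p) * 2⁻¹^e * (dl e' * 2⁻¹^e')
        = (dl e : ZMod p) * dl e' * (2⁻¹^(e+e')) * 1 := by rw [pow_add]; ring
      _ = (dl e : ZMod p) * dl e' * (2⁻¹^(e+e')) * (2⁻¹^(R-(e+e')) * 2^(R-(e+e'))) := by rw [h5]
      _ = _ := by rw [h4]; ring
  rw [h3, h2, pow_succ, ← mul_assoc, ← mul_pow, inv_mul_cancel₀ h20, one_pow, one_mul]

end Pool.Agent.SqrtDC
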