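import Mathlib
import Pool.Agent.SqrtDC.Defs
import Pool.Agent.SqrtDC.Exact

open Finset

namespace Pool.Agent.SqrtDC

/-! ## Module B (Frob.lean): p-sums and Frobenius -/

lemma ss_card (A : Finset ℕ) (m : ℕ) : #(ss A m) ≤ (#A)^m := by
  induction m with
  | zero => simp [ss]
  | succ m ih =>
    calc #(ss A (m+1)) ≤ #A * #(ss A m) := Finset.card_image₂_le _ _ _
      _ ≤ #A * (#A)^m := Nat.mul_le_mul_left _ ih
      _ = (#A)^(m+1) := by ring

lemma ss_le (A : Finset ℕ) (h0 : 0 ∈ A) {m m' : ℕ} (h : m ≤ m') : ss A m ⊆ ss A m' := by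
  induction h with
  | refl => exact Finset.Subset.refl _
  | step h ih =>
    refine ih.trans ?_
    intro s hs
    exact Finset.mem_image₂.2 ⟨0, h0, s, hs, by simp⟩

/-- cumulative sum of coefficients -/
noncomputable def cum {K : Type*} [Field K] (R : ℕ) (f : Polynomial K) : K :=
  ∑ s ∈ range (R+1), f.coeff s

lemma cum_sum {K : Type*} [Field K] (R : ℕ) {ι : Type*} (A : Finset ι) (f : ι → Polynomial K) :
    cum R (∑ e ∈ A, f e) = ∑ e ∈ A, cum R (f e) := by
  unfold cum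
  rw [Finset.sum_comm]
  refine Finset.sum_congr rfl fun s _ => ?_
  rw [Polynomial.finsetSum_coeff]

lemma cum_monomial {K : Type*} [Field K] (R k : ℕ) (a : K) :
    cum R (Polynomial.C a * Polynomial.X^k) = if k ≤ R then a else 0 := by
  unfold cum
  simp only [Polynomial.coeff_C_mul_X_pow]
  by_cases h : k ≤ R
  · rw [if_pos h, Finset.sum_eq_single k]
    · simp
    · intro b _ hb; rw [if_neg hb]
    · intro hk; exact absurd (Finset.mem_range.2 (by omega)) hk
  · rw [if_neg h]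
    refine Finset.sum_eq_zero fun s hs => ?_
    rw [Finset.mem_range] at hs
    rw [if_neg (by omega)]

lemma cum_mul {K : Type*} [Field K] (R : ℕ) (f g : Polynomial K) :
    cum R (f * g) = ∑ i ∈ range (R+1), f.coeff i * cum (R - i) g := by
  unfold cum
  have h1 : ∀ s, (f * g).coeff s = ∑ i ∈ range (s+1), f.coeff i * g.coeff (s - i) := by
    intro s
    rw [Polynomial.coeff_mul, Finset.Nat.sum_antidiagonal_eq_sum_range_succ_mk]
  simp only [h1, Finset.mul_sum]
  rw [Finset.sum_sigma', Finset.sum_sigma']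
  refine Finset.sum_nbij' (fun x => ⟨x.2, x.1 - x.2⟩) (fun x => ⟨x.1 + x.2, x.1⟩) ?_ ?_ ?_ ?_ ?_
  · intro x hx
    simp only [mem_sigma, mem_range] at hx ⊢
    omega
  · intro x hx
    simp only [mem_sigma, mem_range] at hx ⊢
    omega
  · intro x hx
    simp only [mem_sigma, mem_range] at hx
    rcases x with ⟨s, i⟩
    simp only at hx ⊢
    congr 1
    omega
  · intro x hx
    rcases x with ⟨i, j⟩
    simp
  · intro x hx
    rfl

/-- the generating polynomial -/
noncomputable def gp {K : Type*} [Field K] (A : Finset ℕ) (v : ℕ → K) : Polynomial K :=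
  ∑ e ∈ A, Polynomial.C (v e) * Polynomial.X^e

lemma coeff_gp {K : Type*} [Field K] (A : Finset ℕ) (v : ℕ → K) (s : ℕ) :
    (gp A v).coeff s = if s ∈ A then v s else 0 := by
  unfold gp
  rw [Polynomial.finsetSum_coeff]
  simp only [Polynomial.coeff_C_mul_X_pow]
  rw [Finset.sum_ite_eq]

lemma coeff_gp_pow {K : Type*} [Field K] (A : Finset ℕ) (v : ℕ → K) (m s : ℕ)
    (h : ((gp A v)^m).coeff s ≠ 0) : s ∈ ss A m := by
  induction m generalizing s with
  | zero =>
    simp only [pow_zero, Polynomial.coeff_one] at h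
    by_contra hs
    apply h
    rw [if_neg]
    intro h0
    apply hs
    simp [ss, h0]
  | succ m ih =>
    rw [pow_succ, Polynomial.coeff_mul] at h
    obtain ⟨x, hx, hx'⟩ := Finset.exists_ne_zero_of_sum_ne_zero h
    have h1 : ((gp A v)^m).coeff x.1 ≠ 0 := left_ne_zero_of_mul hx'
    have h2 : (gp A v).coeff x.2 ≠ 0 := right_ne_zero_of_mul hx'
    have h3 : x.2 ∈ A := by
      by_contra hc
      rw [coeff_gp, if_neg hc] at h2
      exact h2 rfl
    have h4 := Finset.HasAntidiagonal.mem_antidiagonal.1 hx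
    exact Finset.mem_image₂.2 ⟨x.2, h3, x.1, ih _ h1, by omega⟩

lemma cum_gp_sq {K : Type*} [Field K] (A : Finset ℕ) (v : ℕ → K) (R : ℕ) :
    cum R ((gp A v)^2) = ∑ e ∈ A, ∑ e' ∈ A.filter (fun e' => e + e' ≤ R), v e * v e' := by
  have h1 : (gp A v)^2 = ∑ e ∈ A, ∑ e' ∈ A, Polynomial.C (v e * v e') * Polynomial.X^(e+e') := by
    rw [sq]
    unfold gp
    rw [Finset.sum_mul_sum]
    refine Finset.sum_congr rfl fun e _ => ?_
    refine Finset.sum_congr rfl fun e' _ => ?_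
    rw [Polynomial.C_mul, pow_add]; ring
  rw [h1, cum_sum]
  refine Finset.sum_congr rfl fun e _ => ?_
  rw [cum_sum, Finset.sum_filter]
  refine Finset.sum_congr rfl fun e' _ => ?_
  rw [cum_monomial]

lemma cum_gp {K : Type*} [Field K] [DecidableEq K] (A : Finset ℕ) (v : ℕ → K) (R : ℕ) :
    cum R (gp A v) = ph A v R := by
  unfold gp ph
  rw [cum_sum, Finset.sum_filter]
  refine Finset.sum_congr rfl fun e' _ => ?_
  rw [cum_monomial]

lemma cum_gp_pow_p (p : ℕ) [Fact p.Prime] (A : Finset ℕ) (v : ℕ → ZMod p) (R : ℕ) :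
    cum R ((gp A v)^p) = ph A v (R / p) := by
  have hp : 0 < p := (Fact.out : p.Prime).pos
  rw [← ZMod.expand_card]
  unfold gp ph
  rw [map_sum, cum_sum, Finset.sum_filter]
  refine Finset.sum_congr rfl fun e _ => ?_
  rw [map_mul, Polynomial.expand_C, map_pow, Polynomial.expand_X, ← pow_mul, cum_monomial]
  have : p * e ≤ R ↔ e ≤ R / p := by
    rw [Nat.le_div_iff_mul_le hp, mul_comm]
  simp only [this]

lemma cum_step (p : ℕ) [Fact p.Prime] (hp : p ≠ 2) (R Λ N m : ℕ) (hN : R + Λ ≤ N)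
    (hΛ : 2*N + 10 ≤ 2^Λ) (hgood : ∀ s ∈ ss (E N) (m+2), ¬ (R < s ∧ s ≤ R + Λ)) :
    cum R ((gp (E N) (vv p))^(m+2)) = 2 * cum R ((gp (E N) (vv p))^m) := by
  rw [pow_add, cum_mul]
  have h : ∀ i ∈ range (R+1), ((gp (E N) (vv p))^m).coeff i * cum (R-i) ((gp (E N) (vv p))^2)
      = 2 * ((gp (E N) (vv p))^m).coeff i := by
    intro i hi
    rw [Finset.mem_range] at hi
    by_cases h0 : ((gp (E N) (vv p))^m).coeff i = 0
    · rw [h0]; ring
    · have h1 := coeff_gp_pow _ _ _ _ h0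
      rw [cum_gp_sq, exact2_mod p hp (R-i) Λ N (by omega) hΛ]
      · ring
      · intro e he e' he' hcon
        refine hgood (e + (e' + i)) ?_ (by omega)
        exact Finset.mem_image₂.2 ⟨e, he, e' + i, Finset.mem_image₂.2 ⟨e', he', i, h1, rfl⟩, rfl⟩
  rw [Finset.sum_congr rfl h, ← Finset.mul_sum]
  rfl

lemma cum_odd (p : ℕ) [Fact p.Prime] (hp : p ≠ 2) (R Λ N : ℕ) (hN : R + Λ ≤ N)
    (hΛ : 2*N + 10 ≤ 2^Λ) (j : ℕ) (hgood : ∀ s ∈ ss (E N) (2*j+1), ¬ (R < s ∧ s ≤ R + Λ)) :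
    cum R ((gp (E N) (vv p))^(2*j+1)) = 2^j * ph (E N) (vv p) R := by
  induction j with
  | zero => simp [cum_gp]
  | succ j ih =>
    have h1 : 2*(j+1)+1 = (2*j+1)+2 := by ring
    rw [h1] at hgood ⊢
    rw [cum_step p hp R Λ N (2*j+1) hN hΛ hgood, ih, pow_succ]
    · ring
    · intro s hs
      exact hgood s (ss_le _ (zero_mem_E N) (by omega) hs)

/-- key relation modulo an inert prime, off the neighbourhoods of the `p`-fold sums -/
theorem frob (p : ℕ) [Fact p.Prime] (hp : p % 8 = 3 ∨ p % 8 = 5) (R Λ N : ℕ) (hN : R + Λ ≤ N)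
    (hΛ : 2*N + 10 ≤ 2^Λ) (hgood : ∀ s ∈ ss (E N) p, ¬ (R < s ∧ s ≤ R + Λ)) :
    ph (E N) (vv p) (R / p) = - ph (E N) (vv p) R := by
  have hp2 : p ≠ 2 := by rintro rfl; omega
  have h20 : (2 : ZMod p) ≠ 0 := by
    intro h0
    have : ((2:ℕ) : ZMod p) = 0 := by exact_mod_cast h0
    rw [ZMod.natCast_eq_zero_iff] at this
    have := (Nat.prime_dvd_prime_iff_eq (Fact.out : p.Prime) Nat.prime_two).1 this
    exact hp2 this
  have h1 : (2 : ZMod p)^(p/2) = -1 := by
    rcases ZMod.pow_div_two_eq_neg_one_or_one p h20 with h | h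
    · exfalso
      have h3 : IsSquare (2 : ZMod p) := (ZMod.euler_criterion p h20).2 h
      have h4 := (ZMod.exists_sq_eq_two_iff hp2).1 h3
      omega
    · exact h
  have h2 : p = 2 * (p/2) + 1 := by omega
  have h3 : cum R ((gp (E N) (vv p))^p) = 2^(p/2) * ph (E N) (vv p) R := by
    have h4 := cum_odd p hp2 R Λ N hN hΛ (p/2) (by rw [← h2]; exact hgood)
    rw [← h2] at h4
    exact h4
  rw [← cum_gp_pow_p, h3, h1]; ring

/-- every window of length `ρ` contains a good `R` for `p` -/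
theorem frob_window (p : ℕ) [Fact p.Prime] (hp : p % 8 = 3 ∨ p % 8 = 5) (Λ N t ρ : ℕ)
    (hΛ : 2*N + 10 ≤ 2^Λ) (ht : #(E N) ≤ t) (hρ : Λ * t^p + 1 ≤ ρ) (a : ℕ) (ha : a + ρ + Λ ≤ N) :
    ∃ R, a ≤ R ∧ R < a + ρ ∧ ph (E N) (vv p) (R / p) = - ph (E N) (vv p) R := by
  by_contra hcon
  push Not at hcon
  have hsub : Finset.Ico a (a+ρ) ⊆ (ss (E N) p).biUnion (fun s => Finset.Ico (s - Λ) s) := by
    intro R hR
    rw [Finset.mem_Ico] at hR
    by_contra hR'
    apply hcon R hR.1 hR.2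
    apply frob p hp R Λ N (by omega) hΛ
    intro s hs hcon2
    apply hR'
    rw [Finset.mem_biUnion]
    exact ⟨s, hs, Finset.mem_Ico.2 ⟨by omega, by omega⟩⟩
  have h1 := Finset.card_le_card hsub
  have h2 : #((ss (E N) p).biUnion (fun s => Finset.Ico (s - Λ) s)) ≤ #(ss (E N) p) * Λ := by
    apply Finset.card_biUnion_le_card_mul
    intro s _
    rw [Nat.card_Ico]; omega
  have h3 : #(ss (E N) p) ≤ t^p := (ss_card _ _).trans (Nat.pow_le_pow_left ht p)
  rw [Nat.card_Ico] at h1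
  have h4 : #(ss (E N) p) * Λ ≤ t^p * Λ := Nat.mul_le_mul_right _ h3
  have h5 : t^p * Λ = Λ * t^p := mul_comm _ _
  omega

end Pool.Agent.SqrtDC
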