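import Mathlib
import Pool.Agent.SqrtDC.Defs
import Pool.Agent.SqrtDC.Exact
import Pool.Agent.SqrtDC.Clus

open Finset

namespace Pool.Agent.SqrtDC

theorem dyn_of_coarse {K : Type*} [Field K] [DecidableEq K] (h2 : (2:K) ≠ 0)
    (hsq : ∀ a : K, a * a ≠ 2) (V : Finset ℕ) (m : ℕ → K) (hm : ∀ x ∈ V, m x ≠ 0) (N W : ℕ)
    (hW : 1 ≤ W)
    (hgood : ∀ a, a + W ≤ N → ∃ R, a ≤ R ∧ R < a + W ∧
      ∑ x ∈ V, ∑ x' ∈ V.filter (fun x' => x + x' ≤ R), m x * m x' = 2) : Dyn V N W := by
  constructor
  · intro c hc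
    obtain ⟨R, hR1, hR2, hsum⟩ := hgood (2*c) hc
    by_contra hcon
    push Not at hcon
    apply hsq (∑ x ∈ V.filter (fun x => x ≤ c), m x)
    rw [← hsum, Finset.sum_mul_sum, Finset.sum_filter]
    refine Finset.sum_congr rfl fun x hx => ?_
    by_cases hxc : x ≤ c
    · rw [if_pos hxc]
      apply Finset.sum_congr _ (fun _ _ => rfl)
      ext y
      simp only [Finset.mem_filter]
      constructor
      · rintro ⟨hy, hyc⟩
        exact ⟨hy, by omega⟩
      · rintro ⟨hy, hyc⟩
        refine ⟨hy, ?_⟩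
        by_contra h
        have := hcon y hy (by omega)
        omega
    · rw [if_neg hxc]
      symm
      apply Finset.sum_eq_zero
      intro y hy
      exfalso
      have := hcon x hx (by omega)
      have h2 := (Finset.mem_filter.mp hy).2
      omega
  · intro x hx y hy hxy hix hiy hN
    have hsep := hix y hy (Ne.symm hxy)
    have hlarge : W < x + y := by
      rcases hsep with h | h <;> omega
    obtain ⟨R1, hR1a, hR1b, hs1⟩ := hgood (x + y - W) (by omega)
    obtain ⟨R2, hR2a, hR2b, hs2⟩ := hgood (x + y) (by omega)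
    by_contra hcon
    push Not at hcon
    -- characterisation of the pairs in the window
    have key : ∀ z ∈ V, ∀ z' ∈ V, R1 < z + z' → z + z' ≤ R2 →
        (z = x ∧ z' = y) ∨ (z = y ∧ z' = x) := by
      intro z hz z' hz' h1 h2
      have hA : z = x → z' = y := by
        intro h
        by_contra hne
        rcases hiy z' hz' hne with h' | h' <;> omega
      have hB : z = y → z' = x := by
        intro h
        by_contra hne
        rcases hix z' hz' hne with h' | h' <;> omega
      have hC : z' = x → z = y := by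
        intro h
        by_contra hne
        rcases hiy z hz hne with h' | h' <;> omega
      have hD : z' = y → z = x := by
        intro h
        by_contra hne
        rcases hix z hz hne with h' | h' <;> omega
      by_cases c1 : z = x
      · exact Or.inl ⟨c1, hA c1⟩
      by_cases c2 : z = y
      · exact Or.inr ⟨c2, hB c2⟩
      by_cases c3 : z' = x
      · exact Or.inr ⟨hC c3, c3⟩
      by_cases c4 : z' = y
      · exact Or.inl ⟨hD c4, c4⟩
      exfalso
      have := hcon z hz z' hz' c1 c2 c3 c4 (by omega)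
      omega
    -- as a sum over the product
    have conv : ∀ R, ∑ z ∈ V, ∑ z' ∈ V.filter (fun z' => z + z' ≤ R), m z * m z'
        = ∑ q ∈ (V ×ˢ V).filter (fun q => q.1 + q.2 ≤ R), m q.1 * m q.2 := by
      intro R
      rw [Finset.sum_filter, Finset.sum_product]
      refine Finset.sum_congr rfl fun z _ => ?_
      rw [Finset.sum_filter]
    rw [conv] at hs1 hs2
    have hsplit : (V ×ˢ V).filter (fun q => q.1 + q.2 ≤ R2)
        = (V ×ˢ V).filter (fun q => q.1 + q.2 ≤ R1) ∪ {(x, y), (y, x)} := by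
      ext ⟨z, z'⟩
      simp only [Finset.mem_filter, Finset.mem_product, Finset.mem_union, Finset.mem_insert,
        Finset.mem_singleton, Prod.mk.injEq]
      constructor
      · rintro ⟨⟨hz, hz'⟩, hle⟩
        by_cases h : z + z' ≤ R1
        · exact Or.inl ⟨⟨hz, hz'⟩, h⟩
        · exact Or.inr (key z hz z' hz' (by omega) hle)
      · rintro (⟨⟨hz, hz'⟩, hle⟩ | ⟨rfl, rfl⟩ | ⟨rfl, rfl⟩)
        · exact ⟨⟨hz, hz'⟩, by omega⟩
        · exact ⟨⟨hx, hy⟩, by omega⟩
        · exact ⟨⟨hy, hx⟩, by omega⟩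
    have hdisj : Disjoint ((V ×ˢ V).filter (fun q => q.1 + q.2 ≤ R1))
        ({(x, y), (y, x)} : Finset (ℕ × ℕ)) := by
      rw [Finset.disjoint_left]
      rintro ⟨z, z'⟩ h1 h2
      simp only [Finset.mem_filter, Finset.mem_insert, Finset.mem_singleton, Prod.mk.injEq] at h1 h2
      rcases h2 with ⟨rfl, rfl⟩ | ⟨rfl, rfl⟩ <;> omega
    rw [hsplit, Finset.sum_union hdisj, hs1, Finset.sum_pair (by
      intro h
      simp only [Prod.mk.injEq] at h
      exact hxy h.1)] at hs2
    have h0 : 2 * (m x * m y) = 0 := by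
      have : (2:K) + (m x * m y + m y * m x) = 2 := hs2
      linear_combination this
    rcases mul_eq_zero.mp h0 with h | h
    · exact h2 h
    · rcases mul_eq_zero.mp h with h | h
      · exact hm x hx h
      · exact hm y hy h

/-- conclusion for the visible clusters of `√2` modulo an inert prime -/
theorem dyn_vis (p : ℕ) [Fact p.Prime] (hp : p % 8 = 3 ∨ p % 8 = 5) (Λ N t γ W N' : ℕ)
    (hΛ : 2*N + 10 ≤ 2^Λ) (ht : #(E N) ≤ t) (hW : Λ*t^2 + 2*t^3*γ + 1 ≤ W) (hN' : N' + Λ ≤ N) :
    Dyn (vis (E N) (vv p) γ) N' W := by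
  have hp2 : p ≠ 2 := by rintro rfl; omega
  have h2 : (2 : ZMod p) ≠ 0 := by
    have hd : ¬ p ∣ 2 := by
      intro h
      exact hp2 ((Nat.prime_dvd_prime_iff_eq Fact.out Nat.prime_two).mp h)
    intro h
    apply hd
    rw [← ZMod.natCast_eq_zero_iff]
    exact_mod_cast h
  refine dyn_of_coarse (K := ZMod p) h2 ?_ _ (mass (E N) (vv p) γ) ?_ N' W (by omega) ?_
  · intro a ha
    have := (ZMod.exists_sq_eq_two_iff hp2).mp ⟨a, ha.symm⟩
    omega
  · intro x hx
    exact (Finset.mem_filter.mp hx).2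
  · intro a ha
    refine coarse (E N) (zero_mem_E N) (vv p) 2 N Λ γ W t ht hW ?_ a (by omega)
    intro R hR hgood
    exact exact2_mod p hp2 R Λ N hR hΛ hgood

end Pool.Agent.SqrtDC
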