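import Mathlib
import Pool.Agent.SqrtDC.Defs
import Pool.Agent.SqrtDC.Clus

open Finset

namespace Pool.Agent.SqrtDC

lemma edges_aux {K : Type*} [Field K] [DecidableEq K] (A : Finset ℕ) (h0 : 0 ∈ A) (v : ℕ → K)
    (t : ℕ) (htA : #A ≤ t) (p ρ N : ℕ) (hp : 3 ≤ p)
    (hgood : ∀ a, a + ρ ≤ N → ∃ R, a ≤ R ∧ R < a + ρ ∧ ph A v (R / p) = - ph A v R)
    (x : ℕ) (hx : x ∈ vis A v ρ) (hρx : ρ ≤ x) (hN : p * (x + t*ρ) + ρ ≤ N) :
    ∃ y c, y ∈ A ∧ p * x < y + ρ + 1 ∧ y < p * c + ρ ∧ x ≤ c ∧ c ≤ x + t * ρ ∧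
      (∀ e ∈ A, c < e → c + ρ < e) ∧ stt A ρ c = x := by
  have hx' := hx
  unfold vis at hx'
  rw [Finset.mem_filter] at hx'
  obtain ⟨hst, hmass⟩ := hx'
  obtain ⟨c, hcA, hxc, hct, hnext, hsc, hsum⟩ := mass_eq_ph A h0 v ρ t x htA hst
  have hpx : p * x ≤ p * c := Nat.mul_le_mul_left p hxc
  have hpc : p * c ≤ p * (x + t * ρ) := Nat.mul_le_mul_left p hct
  have hρp : ρ ≤ p * x := by nlinarith
  obtain ⟨R1, hR1a, hR1b, hR1⟩ := hgood (p * x - ρ) (by omega)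
  obtain ⟨R2, hR2a, hR2b, hR2⟩ := hgood (p * c) (by omega)
  have hp0 : 0 < p := by omega
  have hρ0 : 0 < ρ := by omega
  have e1 : ph A v (R1 / p) = ∑ e ∈ A.filter (fun e => e < x), v e := by
    unfold ph
    apply Finset.sum_congr _ (fun _ _ => rfl)
    ext e
    simp only [Finset.mem_filter]
    refine and_congr_right fun he => ?_
    rw [Nat.le_div_iff_mul_le hp0]
    constructor
    · intro h
      have : e * p < x * p := by
        calc e * p ≤ R1 := h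
          _ < x * p := by rw [mul_comm x p]; omega
      exact lt_of_mul_lt_mul_right this (Nat.zero_le p)
    · intro h
      have h1 := ((mem_starts A).mp hst).2 e he h
      have h2 : (e + ρ) * p ≤ x * p := Nat.mul_le_mul_right p h1.le
      have h3 : ρ ≤ ρ * p := Nat.le_mul_of_pos_right ρ hp0
      have h4 : (e + ρ) * p = e * p + ρ * p := by ring
      have h5 : x * p = p * x := mul_comm _ _
      omega
  have e2 : ph A v (R2 / p) = ph A v c := by
    unfold ph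
    apply Finset.sum_congr _ (fun _ _ => rfl)
    ext e
    simp only [Finset.mem_filter]
    refine and_congr_right fun he => ?_
    rw [Nat.le_div_iff_mul_le hp0]
    constructor
    · intro h
      by_contra hlt
      push Not at hlt
      have h1 := hnext e he hlt
      have h2 : (c + ρ) * p ≤ e * p := Nat.mul_le_mul_right p h1.le
      have h3 : ρ ≤ ρ * p := Nat.le_mul_of_pos_right ρ hp0
      have h4 : (c + ρ) * p = c * p + ρ * p := by ring
      have h5 : c * p = p * c := mul_comm _ _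
      omega
    · intro h
      have h2 : e * p ≤ c * p := Nat.mul_le_mul_right p h
      have h5 : c * p = p * c := mul_comm _ _
      omega
  have hR12 : R1 ≤ R2 := by omega
  have e3 : ph A v R2 = ph A v R1 + ∑ e ∈ A.filter (fun e => R1 < e ∧ e ≤ R2), v e := by
    unfold ph
    rw [← Finset.sum_union]
    · apply Finset.sum_congr _ (fun _ _ => rfl)
      ext e
      simp only [Finset.mem_union, Finset.mem_filter]
      constructor
      · rintro ⟨h1, h2⟩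
        by_cases h3 : e ≤ R1
        · exact Or.inl ⟨h1, h3⟩
        · exact Or.inr ⟨h1, by omega, h2⟩
      · rintro (⟨h1, h2⟩ | ⟨h1, _, h3⟩)
        · exact ⟨h1, h2.trans hR12⟩
        · exact ⟨h1, h3⟩
    · rw [Finset.disjoint_left]
      intro e he he'
      rw [Finset.mem_filter] at he he'
      omega
  have e4 : ∑ e ∈ A.filter (fun e => R1 < e ∧ e ≤ R2), v e ≠ 0 := by
    intro h
    rw [h, add_zero] at e3
    apply hmass
    have h6 : mass A v ρ x = ph A v (R2 / p) - ph A v (R1 / p) := by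
      rw [e1, e2, ← hsum]; ring
    rw [h6, hR1, hR2, e3]; ring
  obtain ⟨y, hy, _⟩ := Finset.exists_ne_zero_of_sum_ne_zero e4
  rw [Finset.mem_filter] at hy
  exact ⟨y, c, hy.1, by omega, by omega, hxc, hct, hnext, hsc⟩

theorem edges {K : Type*} [Field K] [DecidableEq K] (A : Finset ℕ) (h0 : 0 ∈ A) (v : ℕ → K)
    (t : ℕ) (htA : #A ≤ t) (p ρ N : ℕ) (hp : 3 ≤ p)
    (hgood : ∀ a, a + ρ ≤ N → ∃ R, a ≤ R ∧ R < a + ρ ∧ ph A v (R / p) = - ph A v R) :
    ∃ f : ℕ → ℕ,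
      (∀ x ∈ vis A v ρ, ρ ≤ x → p * (x + t*ρ) + ρ ≤ N →
        f x ∈ A ∧ p * x ≤ f x + ρ ∧ f x ≤ p * x + (p*t+1)*ρ) ∧
      (∀ x ∈ vis A v ρ, ρ ≤ x → p * (x + t*ρ) + ρ ≤ N →
       ∀ x' ∈ vis A v ρ, ρ ≤ x' → p * (x' + t*ρ) + ρ ≤ N → f x = f x' → x = x') := by
  classical
  have key : ∀ x, ∃ y, (x ∈ vis A v ρ ∧ ρ ≤ x ∧ p * (x + t*ρ) + ρ ≤ N) →
      ∃ c, y ∈ A ∧ p * x < y + ρ + 1 ∧ y < p * c + ρ ∧ x ≤ c ∧ c ≤ x + t * ρ ∧
      (∀ e ∈ A, c < e → c + ρ < e) ∧ stt A ρ c = x := by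
    intro x
    by_cases h : x ∈ vis A v ρ ∧ ρ ≤ x ∧ p * (x + t*ρ) + ρ ≤ N
    · obtain ⟨y, c, hh⟩ := edges_aux A h0 v t htA p ρ N hp hgood x h.1 h.2.1 h.2.2
      exact ⟨y, fun _ => ⟨c, hh⟩⟩
    · exact ⟨0, fun h' => absurd h' h⟩
  choose f hf using key
  have hmain : ∀ x ∈ vis A v ρ, ρ ≤ x → p * (x + t*ρ) + ρ ≤ N →
      ∀ x' ∈ vis A v ρ, ρ ≤ x' → p * (x' + t*ρ) + ρ ≤ N → x < x' → f x < f x' := by
    intro x hx h1 h2 x' hx' h1' h2' hlt
    obtain ⟨c, hyA, hy1, hy2, hxc, hct, hnext, hsc⟩ := hf x ⟨hx, h1, h2⟩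
    obtain ⟨c', hyA', hy1', hy2', hxc', hct', hnext', hsc'⟩ := hf x' ⟨hx', h1', h2'⟩
    have hst' : x' ∈ starts A ρ := (Finset.mem_filter.mp hx').1
    have hx'A : x' ∈ A := ((mem_starts A).mp hst').1
    have hcx' : c < x' := by
      by_contra hle
      push Not at hle
      have h3 := le_stt_of_start A hst' hle
      rw [hsc] at h3
      omega
    have h4 := hnext x' hx'A hcx'
    have h5 : p * (c + ρ + 1) ≤ p * x' := Nat.mul_le_mul_left p (by omega)
    have h6 : p * (c + ρ + 1) = p * c + p * ρ + p := by ring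
    have h7 : 3 * ρ ≤ p * ρ := Nat.mul_le_mul_right ρ hp
    omega
  refine ⟨f, ?_, ?_⟩
  · intro x hx h1 h2
    obtain ⟨c, hyA, hy1, hy2, hxc, hct, hnext, hsc⟩ := hf x ⟨hx, h1, h2⟩
    refine ⟨hyA, by omega, ?_⟩
    have h3 : p * c ≤ p * (x + t * ρ) := Nat.mul_le_mul_left p hct
    have h4 : p * (x + t * ρ) + ρ = p * x + (p*t+1)*ρ := by ring
    omega
  · intro x hx h1 h2 x' hx' h1' h2' hfe
    rcases lt_trichotomy x x' with h | h | h
    · have := hmain x hx h1 h2 x' hx' h1' h2' h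
      omega
    · exact h
    · have := hmain x' hx' h1' h2' x hx h1 h2 h
      omega

end Pool.Agent.SqrtDC
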