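import Mathlib
import Pool.Agent.SqrtDC.Defs

open Finset

namespace Pool.Agent.SqrtDC

/-! ## Module E (Real.lean): realising scales -/

/-- a window of length `(n+1) * g` contains a subwindow of length `g` free of `U`, when `#U ≤ n` -/
lemma free_window (U : Finset ℤ) (n : ℕ) (hU : #U ≤ n) (a : ℤ) (g : ℕ) :
    ∃ c : ℤ, a ≤ c ∧ c + g ≤ a + (n+1) * g ∧ ∀ u ∈ U, ¬ (c < u ∧ u ≤ c + g) := by
  by_contra hcon
  push Not at hcon
  have h1 : ∀ j : ℕ, ∃ u : ℤ, j ∈ range (n+1) → u ∈ U ∧ a + j * g < u ∧ u ≤ a + (j+1) * g := by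
    intro j
    by_cases hj : j ∈ range (n+1)
    · have hj' : j ≤ n := by simpa [Nat.lt_succ_iff] using hj
      have hg : (0:ℤ) ≤ g := by positivity
      have hj0 : (0:ℤ) ≤ j := by positivity
      have hjn : (j:ℤ) ≤ n := by exact_mod_cast hj'
      obtain ⟨u, hu, hu1, hu2⟩ := hcon (a + j * g) (by nlinarith) (by nlinarith)
      exact ⟨u, fun _ => ⟨hu, hu1, by linarith⟩⟩
    · exact ⟨0, fun h => absurd h hj⟩
  choose u hu using h1
  have h2 : #(range (n+1)) ≤ #U := by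
    apply card_le_card_of_injOn u
    · intro j hj
      exact (hu j hj).1
    · intro j hj j' hj' hjj
      have hj := hu j hj
      have hj' := hu j' hj'
      have hg : (0:ℤ) ≤ g := by positivity
      rcases lt_trichotomy j j' with h | h | h
      · have h3 : (j:ℤ) + 1 ≤ j' := by exact_mod_cast h
        have h4 : ((j:ℤ) + 1) * g ≤ j' * g := by nlinarith
        have h5 : u j = u j' := hjj
        linarith [hj.2.2, hj'.2.1]
      · exact h
      · have h3 : (j':ℤ) + 1 ≤ j := by exact_mod_cast h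
        have h4 : ((j':ℤ) + 1) * g ≤ j * g := by nlinarith
        have h5 : u j = u j' := hjj
        linarith [hj'.2.2, hj.2.1]
  rw [card_range] at h2
  omega

/-- a set of `m` points realises at most `m` well separated scales as distances -/
theorem scales_le (U : Finset ℤ) (T : Finset ℕ) (lo hi : ℕ → ℕ)
    (hpair : ∀ s ∈ T, ∃ u ∈ U, ∃ u' ∈ U, (lo s : ℤ) ≤ u' - u ∧ u' - u ≤ hi s)
    (hsep : ∀ s ∈ T, ∀ s' ∈ T, s < s' → (#U + 1) * (hi s + 1) ≤ lo s')
    (hpos : ∀ s ∈ T, 1 ≤ lo s) : #T ≤ #U := by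
  have key : ∀ s : ℕ, ∃ w : ℤ, s ∈ T → w ∈ U ∧ (∃ w' ∈ U, w < w' ∧ w' - w ≤ hi s) ∧
      ∀ w' ∈ U, w < w' → (lo s : ℤ) ≤ (#U + 1) * (w' - w) := by
    intro s
    by_cases hs : s ∈ T
    · obtain ⟨u, hu, u', hu', h1, h2⟩ := hpair s hs
      have h3 := hpos s hs
      have h4 : (1:ℤ) ≤ lo s := by exact_mod_cast h3
      obtain ⟨d, hd⟩ : ∃ d : ℕ, (d:ℤ) = u' - u := ⟨(u' - u).toNat, by
        rw [Int.toNat_of_nonneg]; linarith⟩
      obtain ⟨c, hc1, hc2, hc3⟩ := free_window U (#U) le_rfl u (d / (#U + 1))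
      have hg : (#U + 1) * (d / (#U + 1)) ≤ d := Nat.mul_div_le d _
      have hg' : ((#U : ℤ) + 1) * ((d / (#U + 1) : ℕ) : ℤ) ≤ d := by exact_mod_cast hg
      have hg2 : d < (#U + 1) * (d / (#U + 1) + 1) := by
        have := Nat.lt_mul_div_succ d (Nat.succ_pos (#U))
        exact this
      have hg2' : (d : ℤ) < ((#U : ℤ) + 1) * (((d / (#U + 1) : ℕ) : ℤ) + 1) := by exact_mod_cast hg2
      generalize hgdef : (d / (#U + 1)) = g at *
      have hcu' : c < u' := by
        rcases Nat.eq_zero_or_pos g with h0 | h0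
        · subst h0
          push_cast at hc2
          linarith
        · have : (1:ℤ) ≤ g := by exact_mod_cast h0
          linarith
      -- the last point of `U` not exceeding `c`
      have hne : (U.filter (fun x => x ≤ c)).Nonempty := ⟨u, by simp [hu, hc1]⟩
      obtain ⟨w, hw, hwmax⟩ := (U.filter (fun x => x ≤ c)).exists_max_image id hne
      simp only [mem_filter, id] at hw hwmax
      have hwU := hw.1
      have hwc := hw.2
      refine ⟨w, fun _ => ⟨hwU, ?_, ?_⟩⟩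
      · refine ⟨u', hu', by linarith, ?_⟩
        have : u ≤ w := hwmax u ⟨hu, hc1⟩
        linarith
      · intro w' hw' hww'
        have hw'c : c < w' := by
          by_contra hh
          push Not at hh
          have := hwmax w' ⟨hw', hh⟩
          linarith
        have hw'g : c + g < w' := by
          by_contra hh
          push Not at hh
          exact hc3 w' hw' ⟨hw'c, hh⟩
        have h5 : (g:ℤ) + 1 ≤ w' - w := by linarith
        have h6 : ((#U : ℤ) + 1) * ((g:ℤ) + 1) ≤ ((#U : ℤ) + 1) * (w' - w) := by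
          apply mul_le_mul_of_nonneg_left h5
          positivity
        linarith
    · exact ⟨0, fun h => absurd h hs⟩
  choose w hw using key
  have aux : ∀ s ∈ T, ∀ s' ∈ T, s < s' → w s ≠ w s' := by
    intro s hs s' hs' hlt heq
    obtain ⟨_, ⟨w', hw'U, hww', hle⟩, _⟩ := hw s hs
    obtain ⟨_, _, h3⟩ := hw s' hs'
    have h4 := h3 w' hw'U (by rw [← heq]; exact hww')
    rw [← heq] at h4
    have h5 := hsep s hs s' hs' hlt
    have h6 : ((#U : ℤ) + 1) * ((hi s : ℤ) + 1) ≤ lo s' := by exact_mod_cast h5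
    have h7 : ((#U : ℤ) + 1) * (w' - w s) ≤ ((#U : ℤ) + 1) * (hi s : ℤ) := by
      apply mul_le_mul_of_nonneg_left hle
      positivity
    have h8 : (0:ℤ) < (#U : ℤ) + 1 := by positivity
    nlinarith
  apply card_le_card_of_injOn w
  · intro s hs
    exact (hw s hs).1
  · intro s hs s' hs' heq
    rcases lt_trichotomy s s' with h | h | h
    · exact absurd heq (aux s hs s' hs' h)
    · exact h
    · exact absurd heq.symm (aux s' hs' s hs h)

/-- the first visible point after a free window -/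
lemma exists_first (V : Finset ℕ) (N W t τ s₀ k : ℕ) (hD : Dyn V N W) (hV : #V ≤ t)
    (ht : t + 1 ≤ 2^τ) (hs₀ : τ + 3 ≤ s₀) (hW : W * 2^(τ+2) ≤ 2^s₀) (hN : 2^(k+6) ≤ N)
    (s : ℕ) (hs : s₀ ≤ s) (hsk : s ≤ k) :
    ∃ y ∈ V, 2^s + 2^(s-τ) < y ∧ y < 2^(s+3) ∧ ∀ z ∈ V, z < y → z + 2^(s-τ) < y := by
  obtain ⟨c, hc1, hc2, hc3⟩ := free_window (V.image (fun x : ℕ => (x:ℤ))) (2^τ - 1)
    (card_image_le.trans (by omega)) ((2^s : ℕ) : ℤ) (2^(s-τ))
  have hpow : (((2^τ - 1 : ℕ) : ℤ) + 1) * ((2^(s-τ) : ℕ) : ℤ) = ((2^s : ℕ) : ℤ) := by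
    have h1 : 1 ≤ 2^τ := Nat.one_le_two_pow
    have h2 : (((2^τ - 1 : ℕ) : ℤ) + 1) = ((2^τ : ℕ) : ℤ) := by
      push_cast [Nat.cast_sub h1]; ring
    rw [h2, ← Nat.cast_mul, ← pow_add]
    congr 2
    omega
  rw [hpow] at hc2
  lift c to ℕ using (le_trans (by positivity) hc1)
  have hc1' : 2^s ≤ c := by exact_mod_cast hc1
  have hc2' : c + 2^(s-τ) ≤ 2^s + 2^s := by exact_mod_cast hc2
  have hc3' : ∀ u ∈ V, c < u → c + 2^(s-τ) < u := by
    intro u hu hcu
    by_contra hh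
    push Not at hh
    exact hc3 (u:ℤ) (mem_image_of_mem _ hu) ⟨by exact_mod_cast hcu, by exact_mod_cast hh⟩
  have hWs : W ≤ 2^s := by
    have h1 : 2^s₀ ≤ 2^s := Nat.pow_le_pow_right (by norm_num) hs
    have h2 : 1 ≤ 2^(τ+2) := Nat.one_le_two_pow
    have h3 : W * 1 ≤ W * 2^(τ+2) := Nat.mul_le_mul_left W h2
    omega
  have hK : 2^s ≤ 2^k := Nat.pow_le_pow_right (by norm_num) hsk
  have hK6 : 2^(k+6) = 64 * 2^k := by ring
  have hS3 : 2^(s+3) = 8 * 2^s := by ring
  have hpos : 1 ≤ 2^(s-τ) := Nat.one_le_two_pow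
  obtain ⟨x, hxV, hcx, hxc⟩ := hD.f1 c (by omega)
  have hne : (V.filter (fun x => c < x)).Nonempty := ⟨x, by simp [hxV, hcx]⟩
  obtain ⟨y, hy, hymin⟩ := (V.filter (fun x => c < x)).exists_min_image id hne
  simp only [mem_filter, id] at hy hymin
  have hyx : y ≤ x := hymin x ⟨hxV, hcx⟩
  have hy1 := hc3' y hy.1 hy.2
  refine ⟨y, hy.1, by omega, by omega, ?_⟩
  intro z hz hzy
  have hzc : z ≤ c := by
    by_contra hh
    push Not at hh
    have := hymin z ⟨hz, hh⟩
    omega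
  omega

/-- the number of isolated scales is bounded by the number of points at the top scale -/
theorem dyn_count (V : Finset ℕ) (N W t τ s₀ k : ℕ) (hD : Dyn V N W) (hV : #V ≤ t)
    (ht : t + 1 ≤ 2^τ) (hs₀ : τ + 3 ≤ s₀) (hW : W * 2^(τ+2) ≤ 2^s₀) (T : Finset ℕ) (hk : k ∈ T)
    (hT : ∀ s ∈ T, s₀ ≤ s ∧ s ≤ k)
    (hiso : ∀ s ∈ T, ∀ y ∈ V, 2^s ≤ y → y ≤ 2^(s+3) → ∀ z ∈ V, z ≠ y → Sep W y z)
    (hN : 2^(k+6) ≤ N) :
    #T ≤ 3 + (2*τ+7) * (2 * #(V.filter (fun x => 2^(k-τ-1) ≤ x ∧ x ≤ 2^(k+4)))) := by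
  obtain ⟨Z, hZ⟩ : ∃ Z, Z = V.filter (fun x => 2^(k-τ-1) ≤ x ∧ x ≤ 2^(k+4)) := ⟨_, rfl⟩
  rw [← hZ]
  have hZt : #Z ≤ t := by rw [hZ]; exact (card_filter_le _ _).trans hV
  have hmemZ : ∀ z ∈ V, 2^(k-τ-1) ≤ z → z ≤ 2^(k+4) → z ∈ Z := by
    intro z h1 h2 h3
    rw [hZ, mem_filter]
    exact ⟨h1, h2, h3⟩
  -- the top point
  obtain ⟨x1, hx1V, hx1a, hx1b, hx1c⟩ := exists_first V N W t τ s₀ k hD hV ht hs₀ hW hN k
    (hT k hk).1 le_rfl
  have hBk : 2^(k-τ) = 2 * 2^(k-τ-1) := by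
    rw [← pow_succ']
    congr 1
    have := (hT k hk).1
    omega
  have hBK : 2^(k-τ-1) ≤ 2^k := Nat.pow_le_pow_right (by norm_num) (by omega)
  have hK3 : 2^(k+3) = 8 * 2^k := by ring
  have hK4 : 2^(k+4) = 16 * 2^k := by ring
  have hK6 : 2^(k+6) = 64 * 2^k := by ring
  have hx1Z : x1 ∈ Z := hmemZ x1 hx1V (by omega) (by omega)
  obtain ⟨U, hU⟩ : ∃ U : Finset ℤ, U = Z.image (fun x : ℕ => (x:ℤ)) ∪
      Z.image (fun x : ℕ => (x1:ℤ) - x) := ⟨_, rfl⟩
  have hUcard : #U ≤ 2 * #Z := by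
    rw [hU]
    refine (card_union_le _ _).trans ?_
    have h1 := card_image_le (s := Z) (f := fun x : ℕ => (x:ℤ))
    have h2 := card_image_le (s := Z) (f := fun x : ℕ => (x1:ℤ) - x)
    omega
  have hUa : ∀ z ∈ Z, (z:ℤ) ∈ U := by
    intro z hz
    rw [hU, mem_union]
    exact Or.inl (mem_image_of_mem _ hz)
  have hUb : ∀ z ∈ Z, (x1:ℤ) - z ∈ U := by
    intro z hz
    rw [hU, mem_union]
    exact Or.inr (mem_image_of_mem _ hz)
  -- each scale is realised in `U`
  have hpair : ∀ s ∈ T, s + 3 ≤ k → ∃ u ∈ U, ∃ u' ∈ U,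
      ((2^(s-τ-1) : ℕ) : ℤ) ≤ u' - u ∧ u' - u ≤ ((2^(s+4) : ℕ) : ℤ) := by
    intro s hs hsk
    have hss₀ := (hT s hs).1
    obtain ⟨y, hyV, hya, hyb, hyc⟩ := exists_first V N W t τ s₀ k hD hV ht hs₀ hW hN s
      (hT s hs).1 (hT s hs).2
    have hA : 2^(s-τ) = 2 * 2^(s-τ-1) := by
      rw [← pow_succ']
      congr 1
      omega
    have hAS : 2^(s-τ-1) ≤ 2^s := Nat.pow_le_pow_right (by norm_num) (by omega)
    have hAB : 2^(s-τ-1) ≤ 2^(k-τ-1) := Nat.pow_le_pow_right (by norm_num) (by omega)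
    have hS3 : 2^(s+3) = 8 * 2^s := by ring
    have hS4 : 2^(s+4) = 16 * 2^s := by ring
    have hSK : 8 * 2^s ≤ 2^k := by
      rw [← hS3]
      exact Nat.pow_le_pow_right (by norm_num) hsk
    have hWA : 2 * W ≤ 2^(s-τ-1) := by
      have h1 : 2^s₀ ≤ 2^s := Nat.pow_le_pow_right (by norm_num) hss₀
      have h2 : 2^s = 2^(τ+1) * 2^(s-τ-1) := by
        rw [← pow_add]
        congr 1
        omega
      have h3 : W * 2^(τ+2) = 2^(τ+1) * (2 * W) := by ring
      have h4 : 2^(τ+1) * (2 * W) ≤ 2^(τ+1) * 2^(s-τ-1) := by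
        rw [← h2, ← h3]
        omega
      exact Nat.le_of_mul_le_mul_left h4 (by positivity)
    have hisoy := hiso s hs y hyV (by omega) (by omega)
    have hisox := hiso k hk x1 hx1V (by omega) (by omega)
    have hapos : 1 ≤ 2^(s-τ-1) := Nat.one_le_two_pow
    -- the symmetric conclusion
    have main : ∀ z ∈ V, ∀ z' ∈ V, z ≠ x1 → z ≠ y → z' ≠ x1 → z' ≠ y → z' ≤ z →
        z + z' < x1 + y + W → x1 + y < z + z' + W → ∃ u ∈ U, ∃ u' ∈ U,
      ((2^(s-τ-1) : ℕ) : ℤ) ≤ u' - u ∧ u' - u ≤ ((2^(s+4) : ℕ) : ℤ) := by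
      intro z hz z' hz' h1 h2 h3 h4 h5 h6 h7
      generalize 2^(s-τ) = gs at *
      generalize 2^(k-τ) = gk at *
      generalize 2^(s-τ-1) = A at *
      generalize 2^(k-τ-1) = B at *
      generalize 2^s = S at *
      generalize 2^k = K at *
      rcases lt_or_gt_of_ne h1 with hlt | hgt
      · -- z < x1
        have h8 := hx1c z hz hlt
        have h9 : z' ∈ Z := hmemZ z' hz' (by omega) (by omega)
        have h10 : z ∈ Z := hmemZ z hz (by omega) (by omega)
        refine ⟨_, hUb z h10, _, hUa z' h9, ?_, ?_⟩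
        · omega
        · omega
      · -- z > x1
        have h8 : z' < y + W := by omega
        have h9 : z' < y := by
          rcases hisoy z' hz' h4 with h | h
          · omega
          · omega
        have h10 := hyc z' hz' h9
        have h11 : z ∈ Z := hmemZ z hz (by omega) (by omega)
        refine ⟨_, hUa x1 hx1Z, _, hUa z h11, ?_, ?_⟩
        · omega
        · omega
    obtain ⟨z, hz, z', hz', h1, h2, h3, h4, h5, h6⟩ := hD.f2 x1 hx1V y hyV (by omega)
      hisox hisoy (by omega)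
    rcases le_total z' z with h | h
    · exact main z hz z' hz' h1 h2 h3 h4 h h5 h6
    · exact main z' hz' z hz h3 h4 h1 h2 h (by omega) (by omega)
  -- residue classes
  have hclass : ∀ r, #((T.filter (fun s => s + 3 ≤ k)).filter (fun s => s % (2*τ+7) = r)) ≤ 2 * #Z := by
    intro r
    refine le_trans (scales_le U _ (fun s => 2^(s-τ-1)) (fun s => 2^(s+4)) ?_ ?_ ?_) hUcard
    · intro s hs
      simp only [mem_filter] at hs
      exact hpair s hs.1.1 hs.1.2
    · intro s hs s' hs' hlt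
      simp only [mem_filter] at hs hs'
      have hss₀ := (hT s hs.1.1).1
      have hmod : s + (2*τ+7) ≤ s' := by
        have h1 : s ≡ s' [MOD (2*τ+7)] := by
          unfold Nat.ModEq
          rw [hs.2, hs'.2]
        have h2 := (Nat.modEq_iff_dvd' hlt.le).1 h1
        have h3 := Nat.le_of_dvd (by omega) h2
        omega
      have h1 : #U + 1 ≤ 2^(τ+1) := by
        have : 2^(τ+1) = 2 * 2^τ := by ring
        omega
      have h2 : 2^(s+4) + 1 ≤ 2^(s+5) := by
        have h3 : 2^(s+5) = 2^(s+4) + 2^(s+4) := by ring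
        have h4 : 1 ≤ 2^(s+4) := Nat.one_le_two_pow
        omega
      calc (#U + 1) * (2^(s+4) + 1) ≤ 2^(τ+1) * 2^(s+5) := Nat.mul_le_mul h1 h2
        _ = 2^(τ+1+(s+5)) := (pow_add _ _ _).symm
        _ ≤ 2^(s'-τ-1) := Nat.pow_le_pow_right (by norm_num) (by omega)
    · intro s hs
      exact Nat.one_le_two_pow
  have hsplit : #T ≤ #((range (k+1)).filter (fun s => ¬ (s + 3 ≤ k))) + #(T.filter (fun s => s + 3 ≤ k)) := by
    rw [← card_filter_add_card_filter_not (s := T) (fun s => s + 3 ≤ k), add_comm]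
    refine Nat.add_le_add_right (card_le_card ?_) _
    intro s hs
    simp only [mem_filter, mem_range] at hs ⊢
    exact ⟨by have := (hT s hs.1).2; omega, hs.2⟩
  have hsmall : #((range (k+1)).filter (fun s => ¬ (s + 3 ≤ k))) ≤ 3 := by
    have : (range (k+1)).filter (fun s => ¬ (s + 3 ≤ k)) ⊆ {k-2, k-1, k} := by
      intro s hs
      simp only [mem_filter, mem_range, mem_insert, mem_singleton] at hs ⊢
      omega
    exact (card_le_card this).trans card_le_three
  have hbig : #(T.filter (fun s => s + 3 ≤ k)) ≤ (2*τ+7) * (2 * #Z) := by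
    have h1 : (T.filter (fun s => s + 3 ≤ k)) = (range (2*τ+7)).biUnion (fun r =>
        (T.filter (fun s => s + 3 ≤ k)).filter (fun s => s % (2*τ+7) = r)) := by
      ext s
      simp only [mem_filter, mem_biUnion, mem_range]
      constructor
      · intro h
        exact ⟨s % (2*τ+7), Nat.mod_lt _ (by omega), h, rfl⟩
      · rintro ⟨r, _, h, _⟩
        exact h
    rw [h1]
    refine card_biUnion_le.trans ?_
    refine (sum_le_card_nsmul _ _ (2 * #Z) (fun r _ => hclass r)).trans ?_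
    rw [card_range, smul_eq_mul]
  omega

end Pool.Agent.SqrtDC
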