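import Mathlib
import Pool.Agent.SqrtDC.Defs
import Pool.Agent.SqrtDC.Real

open Finset

namespace Pool.Agent.SqrtDC

/-! ## Module F (Count.lean): levels -/

/-- a non-increasing sequence of naturals starting at `a 0` has at most `a 0 - a I` drops -/
lemma drops_le (a : ℕ → ℕ) (I : ℕ) (h : ∀ i < I, a (i+1) ≤ a i) :
    #((range I).filter (fun i => a (i+1) ≠ a i)) + a I ≤ a 0 := by
  induction I with
  | zero => simp
  | succ n ih =>
    have ih' := ih (fun i hi => h i (Nat.lt_succ_of_lt hi))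
    have hn := h n (Nat.lt_succ_self n)
    rw [Finset.range_add_one, Finset.filter_insert]
    by_cases hc : a (n+1) ≠ a n
    · rw [if_pos hc, Finset.card_insert_of_notMem (by simp)]
      omega
    · rw [if_neg hc]
      omega

/-- at most `τ+7` scales see a given point -/
lemma scales_of_point (τ l : ℕ) (S : Finset ℕ) :
    #(S.filter (fun s => 2^(s-τ-2) ≤ l ∧ l ≤ 2^(s+4))) ≤ τ + 7 := by
  rcases Nat.eq_zero_or_pos l with hl | hl
  · have : S.filter (fun s => 2^(s-τ-2) ≤ l ∧ l ≤ 2^(s+4)) = ∅ := by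
      apply Finset.filter_eq_empty_iff.2
      intro s _ h
      have : 0 < 2^(s-τ-2) := by positivity
      omega
    rw [this]; simp
  · have hsub : S.filter (fun s => 2^(s-τ-2) ≤ l ∧ l ≤ 2^(s+4)) ⊆
        Finset.Icc (Nat.log 2 l - 4) (Nat.log 2 l + τ + 2) := by
      intro s hs
      rw [Finset.mem_filter] at hs
      rw [Finset.mem_Icc]
      have h1 : s - τ - 2 ≤ Nat.log 2 l := Nat.le_log_of_pow_le (by norm_num) hs.2.1
      have h2 : Nat.log 2 l ≤ s + 4 := by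
        calc Nat.log 2 l ≤ Nat.log 2 (2^(s+4)) := Nat.log_mono_right hs.2.2
          _ = s + 4 := Nat.log_pow (by norm_num) _
      omega
    calc _ ≤ #(Finset.Icc (Nat.log 2 l - 4) (Nat.log 2 l + τ + 2)) := Finset.card_le_card hsub
      _ ≤ τ + 7 := by rw [Nat.card_Icc]; omega

theorem count_aux
    (dyn_count : ∀ (V : Finset ℕ) (N W t τ s₀ k : ℕ) (_ : Dyn V N W) (_ : #V ≤ t)
    (_ : t + 1 ≤ 2^τ) (_ : τ + 3 ≤ s₀) (_ : W * 2^(τ+2) ≤ 2^s₀) (T : Finset ℕ) (_ : k ∈ T)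
    (_ : ∀ s ∈ T, s₀ ≤ s ∧ s ≤ k)
    (_ : ∀ s ∈ T, ∀ y ∈ V, 2^s ≤ y → y ≤ 2^(s+3) → ∀ z ∈ V, z ≠ y → Sep W y z)
    (_ : 2^(k+6) ≤ N),
    #T ≤ 3 + (2*τ+7) * (2 * #(V.filter (fun x => 2^(k-τ-1) ≤ x ∧ x ≤ 2^(k+4)))))
    (I s₀ s₁ τ κ t N : ℕ) (V : ℕ → Finset ℕ) (W : ℕ → ℕ) (loc : ℕ → ℕ)
    (hDyn : ∀ i < I, Dyn (V i) N (W i)) (hcard : ∀ i, #(V i) ≤ t) (ht : t + 1 ≤ 2^τ)
    (hW : ∀ i < I, W i * 2^(τ+2) ≤ 2^s₀) (hs₀ : τ + 3 ≤ s₀)
    (hloc : ∀ i, ∀ x ∈ V i, loc x ≤ x ∧ x ≤ loc x + 2^(s₀-τ-3))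
    (hmono : ∀ a b i, i < I →
      #((V (i+1)).filter (fun x => a ≤ loc x ∧ loc x ≤ b)) ≤
        #((V i).filter (fun x => a ≤ loc x ∧ loc x ≤ b)))
    (hiso : ∀ a b i, i < I →
      #((V (i+1)).filter (fun x => a ≤ loc x ∧ loc x ≤ b)) =
        #((V i).filter (fun x => a ≤ loc x ∧ loc x ≤ b)) →
      ∀ x ∈ V i, a ≤ loc x → loc x ≤ b → ∀ z ∈ V i, z ≠ x → Sep (W i) x z)
    (hκ : 2*κ ≤ I) (hs : 12 + 8*(2*τ+7)*κ < s₁ - s₀) (hN : 2^(s₁+6) ≤ N) :
    (s₁ - s₀) * κ ≤ 2*(τ+9) *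
      #((V 0).filter (fun x => 2^(s₀-τ-2) ≤ loc x ∧ loc x ≤ 2^(s₁+4))) := by
  classical
  -- counts
  set J : ℕ → ℕ → ℕ := fun i s =>
    #((V i).filter (fun x => 2^(s-τ-2) ≤ loc x ∧ loc x ≤ 2^(s+4))) with hJ
  set Poor : Finset ℕ := (Finset.Ico s₀ s₁).filter (fun s => J 0 s < κ) with hPoor
  set Rich : Finset ℕ := (Finset.Ico s₀ s₁).filter (fun s => ¬ J 0 s < κ) with hRich
  have hsum : #Poor + #Rich = s₁ - s₀ := by
    rw [hPoor, hRich, Finset.card_filter_add_card_filter_not, Nat.card_Ico]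
  rcases Nat.lt_or_ge (s₁ - s₀) (2 * #Poor) with hcase | hcase
  · -- many poor scales: contradiction
    exfalso
    -- monotonicity in the level
    have hmonoJ : ∀ s, ∀ i < I, J (i+1) s ≤ J i s := fun s i hi => hmono _ _ i hi
    have hle0 : ∀ s, ∀ i ≤ I, J i s ≤ J 0 s := by
      intro s i
      induction i with
      | zero => intro _; exact le_rfl
      | succ n ih => intro hn; exact (hmonoJ s n (by omega)).trans (ih (by omega))
    have hκpos : ∀ s ∈ Poor, 2 * #((range I).filter (fun i => J (i+1) s = J i s)) ≥ I := by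
      intro s hsP
      have h1 := drops_le (fun i => J i s) I (hmonoJ s)
      have h2 : J 0 s < κ := (Finset.mem_filter.1 hsP).2
      have h3 := Finset.card_filter_add_card_filter_not (s := range I)
        (fun i => J (i+1) s = J i s)
      rw [Finset.card_range] at h3
      have h4 : #((range I).filter (fun i => ¬ J (i+1) s = J i s)) ≤ J 0 s := by
        have := h1
        simp only [ne_eq] at this
        omega
      omega
    -- double counting
    have hPpos : 0 < #Poor := by omega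
    have hdc : I * #Poor ≤ 2 * ∑ i ∈ range I, #(Poor.filter (fun s => J (i+1) s = J i s)) := by
      have hswap : ∑ i ∈ range I, #(Poor.filter (fun s => J (i+1) s = J i s)) =
          ∑ s ∈ Poor, #((range I).filter (fun i => J (i+1) s = J i s)) := by
        simp_rw [Finset.card_filter]
        exact Finset.sum_comm
      rw [hswap, Finset.mul_sum]
      calc I * #Poor = ∑ _s ∈ Poor, I := by rw [Finset.sum_const, smul_eq_mul, mul_comm]
        _ ≤ ∑ s ∈ Poor, 2 * #((range I).filter (fun i => J (i+1) s = J i s)) :=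
            Finset.sum_le_sum hκpos
    obtain ⟨s', hs'⟩ := Finset.card_pos.1 hPpos
    have hIpos : 0 < I := by
      have h2 : J 0 s' < κ := (Finset.mem_filter.1 hs').2
      omega
    have hex : ∃ i ∈ range I, #Poor ≤ 2 * #(Poor.filter (fun s => J (i+1) s = J i s)) := by
      by_contra hcon
      push Not at hcon
      have : 2 * ∑ i ∈ range I, #(Poor.filter (fun s => J (i+1) s = J i s)) < I * #Poor := by
        rw [Finset.mul_sum]
        calc ∑ i ∈ range I, 2 * #(Poor.filter (fun s => J (i+1) s = J i s))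
            < ∑ _i ∈ range I, #Poor :=
              Finset.sum_lt_sum_of_nonempty ⟨0, Finset.mem_range.2 hIpos⟩ hcon
          _ = I * #Poor := by rw [Finset.sum_const, smul_eq_mul, Finset.card_range]
      omega
    obtain ⟨i, hi, hiT⟩ := hex
    have hiI : i < I := Finset.mem_range.1 hi
    set T : Finset ℕ := Poor.filter (fun s => J (i+1) s = J i s) with hT
    have hTcard : 3 + (2*τ+7) * (2*κ) < #T := by
      have e1 : 8*(2*τ+7)*κ = 4 * ((2*τ+7) * (2*κ)) := by ring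
      rw [e1] at hs
      omega
    have hTne : T.Nonempty := Finset.card_pos.1 (by omega)
    obtain ⟨k, hkT, hkmax⟩ := Finset.exists_max_image T id hTne
    have hTmem : ∀ s ∈ T, s₀ ≤ s ∧ s < s₁ ∧ J 0 s < κ ∧ J (i+1) s = J i s := by
      intro s hsT
      rw [hT, Finset.mem_filter, hPoor, Finset.mem_filter, Finset.mem_Ico] at hsT
      exact ⟨hsT.1.1.1, hsT.1.1.2, hsT.1.2, hsT.2⟩
    have hk := hTmem k hkT
    have hdyn := dyn_count (V i) N (W i) t τ s₀ k (hDyn i hiI) (hcard i) ht hs₀ (hW i hiI) T hkT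
      (fun s hsT => ⟨(hTmem s hsT).1, hkmax s hsT⟩) ?_ ?_
    · -- contradiction
      have hcnt : #((V i).filter (fun x => 2^(k-τ-1) ≤ x ∧ x ≤ 2^(k+4))) ≤ J i k := by
        apply Finset.card_le_card
        intro x hx
        rw [Finset.mem_filter] at hx ⊢
        refine ⟨hx.1, ?_, (hloc i x hx.1).1.trans hx.2.2⟩
        have h1 := (hloc i x hx.1).2
        have h2 : (2:ℕ)^(s₀-τ-3) ≤ 2^(k-τ-2) :=
          Nat.pow_le_pow_right (by norm_num) (by omega)
        have h3 : (2:ℕ)^(k-τ-1) = 2 * 2^(k-τ-2) := by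
          rw [← pow_succ']; congr 1; omega
        have h4 := hx.2.1
        omega
      have hlt : J i k < κ := lt_of_le_of_lt (hle0 k i hiI.le) hk.2.2.1
      have : (2*τ+7) * (2 * #((V i).filter (fun x => 2^(k-τ-1) ≤ x ∧ x ≤ 2^(k+4)))) ≤
          (2*τ+7) * (2*κ) := Nat.mul_le_mul_left _ (by omega)
      omega
    · intro s hsT y hy h1 h2 z hz hzy
      have hsT' := hTmem s hsT
      refine hiso (2^(s-τ-2)) (2^(s+4)) i hiI hsT'.2.2.2 y hy ?_ ?_ z hz hzy
      · have h3 := (hloc i y hy).2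
        have h4 : (2:ℕ)^(s₀-τ-3) ≤ 2^(s-1) := Nat.pow_le_pow_right (by norm_num) (by omega)
        have h5 : (2:ℕ)^(s-τ-2) ≤ 2^(s-1) := Nat.pow_le_pow_right (by norm_num) (by omega)
        have h6 : (2:ℕ)^s = 2 * 2^(s-1) := by
          rw [← pow_succ']; congr 1; omega
        omega
      · have h3 := (hloc i y hy).1
        have h4 : (2:ℕ)^(s+3) ≤ 2^(s+4) := Nat.pow_le_pow_right (by norm_num) (by omega)
        omega
    · exact (Nat.pow_le_pow_right (by norm_num) (by omega)).trans hN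
  · -- many rich scales
    have hR : s₁ - s₀ ≤ 2 * #Rich := by omega
    have hdc : #Rich * κ ≤ (τ + 7) *
        #((V 0).filter (fun x => 2^(s₀-τ-2) ≤ loc x ∧ loc x ≤ 2^(s₁+4))) := by
      calc #Rich * κ = ∑ _s ∈ Rich, κ := by rw [Finset.sum_const, smul_eq_mul]
        _ ≤ ∑ s ∈ Rich, J 0 s := by
            apply Finset.sum_le_sum
            intro s hsR
            exact Nat.le_of_not_lt (Finset.mem_filter.1 hsR).2
        _ = ∑ s ∈ Rich, #(((V 0).filter (fun x => 2^(s₀-τ-2) ≤ loc x ∧ loc x ≤ 2^(s₁+4))).filter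
              (fun x => 2^(s-τ-2) ≤ loc x ∧ loc x ≤ 2^(s+4))) := by
            apply Finset.sum_congr rfl
            intro s hsR
            have hsI := Finset.mem_Ico.1 (Finset.mem_filter.1 hsR).1
            show #((V 0).filter _) = _
            congr 1
            rw [Finset.filter_filter]
            apply Finset.filter_congr
            intro x _
            constructor
            · intro h
              refine ⟨⟨?_, ?_⟩, h⟩
              · exact (Nat.pow_le_pow_right (by norm_num) (by omega)).trans h.1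
              · exact h.2.trans (Nat.pow_le_pow_right (by norm_num) (by omega))
            · intro h; exact h.2
        _ = ∑ x ∈ (V 0).filter (fun x => 2^(s₀-τ-2) ≤ loc x ∧ loc x ≤ 2^(s₁+4)),
              #(Rich.filter (fun s => 2^(s-τ-2) ≤ loc x ∧ loc x ≤ 2^(s+4))) := by
            simp_rw [Finset.card_filter]
            exact Finset.sum_comm
        _ ≤ ∑ _x ∈ (V 0).filter (fun x => 2^(s₀-τ-2) ≤ loc x ∧ loc x ≤ 2^(s₁+4)), (τ + 7) :=
            Finset.sum_le_sum (fun x _ => scales_of_point τ (loc x) Rich)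
        _ = _ := by rw [Finset.sum_const, smul_eq_mul, mul_comm]
    calc (s₁ - s₀) * κ ≤ (2 * #Rich) * κ := Nat.mul_le_mul_right _ hR
      _ = 2 * (#Rich * κ) := by ring
      _ ≤ 2 * ((τ + 7) *
        #((V 0).filter (fun x => 2^(s₀-τ-2) ≤ loc x ∧ loc x ≤ 2^(s₁+4)))) :=
          Nat.mul_le_mul_left _ hdc
      _ ≤ 2*(τ+9) *
        #((V 0).filter (fun x => 2^(s₀-τ-2) ≤ loc x ∧ loc x ≤ 2^(s₁+4))) := by
          rw [← mul_assoc]
          exact Nat.mul_le_mul_right _ (by omega)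


theorem count (I s₀ s₁ τ κ t N : ℕ) (V : ℕ → Finset ℕ) (W : ℕ → ℕ) (loc : ℕ → ℕ)
    (hDyn : ∀ i < I, Dyn (V i) N (W i)) (hcard : ∀ i, #(V i) ≤ t) (ht : t + 1 ≤ 2^τ)
    (hW : ∀ i < I, W i * 2^(τ+2) ≤ 2^s₀) (hs₀ : τ + 3 ≤ s₀)
    (hloc : ∀ i, ∀ x ∈ V i, loc x ≤ x ∧ x ≤ loc x + 2^(s₀-τ-3))
    (hmono : ∀ a b i, i < I →
      #((V (i+1)).filter (fun x => a ≤ loc x ∧ loc x ≤ b)) ≤
        #((V i).filter (fun x => a ≤ loc x ∧ loc x ≤ b)))
    (hiso : ∀ a b i, i < I →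
      #((V (i+1)).filter (fun x => a ≤ loc x ∧ loc x ≤ b)) =
        #((V i).filter (fun x => a ≤ loc x ∧ loc x ≤ b)) →
      ∀ x ∈ V i, a ≤ loc x → loc x ≤ b → ∀ z ∈ V i, z ≠ x → Sep (W i) x z)
    (hκ : 2*κ ≤ I) (hs : 12 + 8*(2*τ+7)*κ < s₁ - s₀) (hN : 2^(s₁+6) ≤ N) :
    (s₁ - s₀) * κ ≤ 2*(τ+9) *
      #((V 0).filter (fun x => 2^(s₀-τ-2) ≤ loc x ∧ loc x ≤ 2^(s₁+4))) :=
  count_aux (fun V N W t τ s₀ k h1 h2 h3 h4 h5 T h6 h7 h8 h9 =>
    dyn_count V N W t τ s₀ k h1 h2 h3 h4 h5 T h6 h7 h8 h9)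
    I s₀ s₁ τ κ t N V W loc hDyn hcard ht hW hs₀ hloc hmono hiso hκ hs hN

end Pool.Agent.SqrtDC
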