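import Mathlib
import Pool.Agent.SqrtDC.Defs
import Pool.Agent.SqrtDC.Clus
import Pool.Agent.SqrtDC.Count

open Finset

namespace Pool.Agent.SqrtDC

section levels
variable {K : Type*} [Field K] [DecidableEq K]

lemma levels_vis_subset (A : Finset ℕ) (v : ℕ → K) (γ : ℕ) : vis A v γ ⊆ A :=
  (Finset.filter_subset _ _).trans (Finset.filter_subset _ _)

theorem levels (A : Finset ℕ) (h0 : 0 ∈ A) (v : ℕ → K)
    (t : ℕ) (htA : #A ≤ t) (I s₀ s₁ τ κ r N : ℕ)
    (hDyn : ∀ i < I, Dyn (vis A v (2^(r+5*τ*i))) N (2^(r+5*τ*(i+1)))) (ht : t + 1 ≤ 2^τ)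
    (hs₀ : r + 5*τ*I + 2*τ + 3 ≤ s₀) (hκ : 2*κ ≤ I) (hs : 12 + 8*(2*τ+7)*κ < s₁ - s₀)
    (hN : 2^(s₁+6) ≤ N) :
    (s₁ - s₀) * κ ≤ 2*(τ+9) *
      #((vis A v (2^r)).filter (fun x => 2^(s₀-τ-2) ≤ x ∧ x ≤ 2^(s₁+5))) := by
  classical
  set g : ℕ → ℕ := fun i => 2^(r+5*τ*i) with hg
  set V : ℕ → Finset ℕ := fun i => vis A v (g i) with hV
  set loc : ℕ → ℕ := fun x => stt A (g I) x with hloc
  have hgmono : ∀ i j, i ≤ j → g i ≤ g j := by
    intro i j hij
    exact Nat.pow_le_pow_right (by norm_num) (by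
      have := Nat.mul_le_mul_left (5*τ) hij
      omega)
  have hVA : ∀ i, V i ⊆ A := fun i => levels_vis_subset A v (g i)
  have hlocle : ∀ i, ∀ x ∈ V i, loc x ≤ x ∧ x ≤ loc x + 2^(s₀-τ-3) := by
    intro i x hx
    refine ⟨stt_le A (g I) x, ?_⟩
    have h1 := le_stt A h0 (g I) x t htA (hVA i hx)
    have h2 : t * g I ≤ 2^(s₀-τ-3) := by
      calc t * g I ≤ 2^τ * 2^(r+5*τ*I) := Nat.mul_le_mul (by omega) le_rfl
        _ = 2^(τ + (r+5*τ*I)) := (pow_add _ _ _).symm
        _ ≤ 2^(s₀-τ-3) := Nat.pow_le_pow_right (by norm_num) (by omega)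
    exact h1.trans (by
      show stt A (g I) x + t * g I ≤ stt A (g I) x + 2^(s₀-τ-3)
      omega)
  -- the section map
  have hsec : ∀ i, i < I → ∀ x' ∈ V (i+1), ∃ x ∈ V i, stt A (g (i+1)) x = x' := by
    intro i _ x' hx'
    exact vis_sub A v (hgmono i (i+1) (Nat.le_succ i)) hx'
  have hlocstt : ∀ i, i < I → ∀ x, loc (stt A (g (i+1)) x) = loc x := by
    intro i hi x
    exact stt_stt A (hgmono (i+1) I hi) x
  have hsec' : ∀ i, i < I → ∃ f : ℕ → ℕ, ∀ x' ∈ V (i+1), f x' ∈ V i ∧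
      stt A (g (i+1)) (f x') = x' := by
    intro i hi
    have := hsec i hi
    choose! f hf using this
    exact ⟨f, fun x' hx' => hf x' hx'⟩
  have hcount := count I s₀ s₁ τ κ t N V (fun i => 2^(r+5*τ*(i+1))) loc hDyn
    (fun i => (Finset.card_le_card (hVA i)).trans htA) ht ?_ (by omega) hlocle ?_ ?_ hκ hs hN
  · refine hcount.trans (Nat.mul_le_mul_left _ ?_)
    apply Finset.card_le_card
    intro x hx
    rw [Finset.mem_filter] at hx ⊢
    obtain ⟨hx0, hx1, hx2⟩ := hx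
    have hl := hlocle 0 x hx0
    refine ⟨?_, hx1.trans hl.1, ?_⟩
    · have : V 0 = vis A v (2^r) := by simp [hV, hg]
      rwa [this] at hx0
    · have h3 : 2^(s₀-τ-3) ≤ 2^(s₁+4) := Nat.pow_le_pow_right (by norm_num) (by omega)
      calc x ≤ loc x + 2^(s₀-τ-3) := hl.2
        _ ≤ 2^(s₁+4) + 2^(s₁+4) := by omega
        _ = 2^(s₁+5) := by ring
  · intro i hi
    show 2^(r+5*τ*(i+1)) * 2^(τ+2) ≤ 2^s₀
    rw [← pow_add]
    apply Nat.pow_le_pow_right (by norm_num)
    have : 5*τ*(i+1) ≤ 5*τ*I := Nat.mul_le_mul_left _ hi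
    omega
  · intro a b i hi
    obtain ⟨f, hf⟩ := hsec' i hi
    apply Finset.card_le_card_of_injOn f
    · intro x' hx'
      simp only [Finset.coe_filter, Set.mem_ofPred_eq] at hx' ⊢
      have h := hf x' hx'.1
      refine ⟨h.1, ?_⟩
      have hl : loc (f x') = loc x' := by
        rw [← hlocstt i hi (f x'), h.2]
      rw [hl]
      exact hx'.2
    · intro x' hx' y' hy' hxy
      simp only [Finset.coe_filter, Set.mem_ofPred_eq] at hx' hy'
      rw [← (hf x' hx'.1).2, ← (hf y' hy'.1).2, hxy]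
  · intro a b i hi hcard x hx hax hxb z hz hzx
    obtain ⟨f, hf⟩ := hsec' i hi
    set S' := (V (i+1)).filter (fun x => a ≤ loc x ∧ loc x ≤ b) with hS'
    set S := (V i).filter (fun x => a ≤ loc x ∧ loc x ≤ b) with hS
    have hmaps : Set.MapsTo f (S' : Set ℕ) (S : Set ℕ) := by
      intro x' hx'
      simp only [hS', hS, Finset.coe_filter, Set.mem_ofPred_eq] at hx' ⊢
      have h := hf x' hx'.1
      refine ⟨h.1, ?_⟩
      have hl : loc (f x') = loc x' := by
        rw [← hlocstt i hi (f x'), h.2]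
      rw [hl]
      exact hx'.2
    have hinj : Set.InjOn f (S' : Set ℕ) := by
      intro x' hx' y' hy' hxy
      simp only [hS', Finset.coe_filter, Set.mem_ofPred_eq] at hx' hy'
      rw [← (hf x' hx'.1).2, ← (hf y' hy'.1).2, hxy]
    have hsurj : Set.SurjOn f (S' : Set ℕ) (S : Set ℕ) :=
      Finset.surjOn_of_injOn_of_card_le f hmaps hinj hcard.ge
    by_contra hns
    unfold Sep at hns
    push Not at hns
    have hxA := hVA i hx
    have hzA := hVA i hz
    have heq : stt A (g (i+1)) x = stt A (g (i+1)) z := by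
      rcases le_total x z with h | h
      · exact stt_eq_of_near A hxA hzA h hns.2
      · exact (stt_eq_of_near A hzA hxA h hns.1).symm
    have hlz : loc z = loc x := by
      rw [← hlocstt i hi z, ← heq, hlocstt i hi x]
    have hxS : x ∈ (S : Set ℕ) := by
      simp only [hS, Finset.coe_filter, Set.mem_ofPred_eq]
      exact ⟨hx, hax, hxb⟩
    have hzS : z ∈ (S : Set ℕ) := by
      simp only [hS, Finset.coe_filter, Set.mem_ofPred_eq]
      exact ⟨hz, by rw [hlz]; exact hax, by rw [hlz]; exact hxb⟩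
    obtain ⟨x', hx', hfx⟩ := hsurj hxS
    obtain ⟨z', hz', hfz⟩ := hsurj hzS
    simp only [hS', Finset.coe_filter, Set.mem_ofPred_eq] at hx' hz'
    have e1 := (hf x' hx'.1).2
    have e2 := (hf z' hz'.1).2
    rw [hfx] at e1
    rw [hfz] at e2
    apply hzx
    rw [← hfz, ← hfx, ← e1, ← e2, heq]

end levels

end Pool.Agent.SqrtDC
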