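import Mathlib
import Pool.Agent.SqrtDC.Defs

open Finset

namespace Pool.Agent.SqrtDC

section walk

/-- the number of labelled edges inside `S` -/
def wt (Ps : Finset ℕ) (Dm : ℕ → Finset ℕ) (f : ℕ → ℕ → ℕ) (S : Finset ℕ) : ℕ :=
  ∑ p ∈ Ps, #((Dm p).filter (fun x => x ∈ S ∧ f p x ∈ S))

lemma exists_core (w : Finset ℕ → ℕ) (C : ℕ) (h0 : w ∅ = 0) :
    ∀ n : ℕ, ∀ S : Finset ℕ, #S = n → C * #S < w S →
      ∃ S', S' ⊆ S ∧ S'.Nonempty ∧ ∀ v ∈ S', w (S'.erase v) + C < w S' := by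
  intro n
  induction n with
  | zero =>
    intro S hS h
    rw [Finset.card_eq_zero] at hS
    subst hS
    rw [h0] at h
    omega
  | succ n ih =>
    intro S hS h
    by_cases hall : ∀ v ∈ S, w (S.erase v) + C < w S
    · refine ⟨S, Subset.rfl, ?_, hall⟩
      rw [← Finset.card_pos]; omega
    · push Not at hall
      obtain ⟨v, hv, hle⟩ := hall
      have hc : #(S.erase v) = n := by rw [Finset.card_erase_of_mem hv]; omega
      obtain ⟨S', h1, h2, h3⟩ := ih (S.erase v) hc (by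
        rw [hc]; rw [hS] at h
        nlinarith)
      exact ⟨S', h1.trans (Finset.erase_subset _ _), h2, h3⟩

/-- labels available at `v` inside `S` -/
def Qv (Ps : Finset ℕ) (Dm : ℕ → Finset ℕ) (f : ℕ → ℕ → ℕ) (S : Finset ℕ) (v : ℕ) : Finset ℕ :=
  Ps.filter (fun p => (v ∈ Dm p ∧ f p v ∈ S) ∨ (∃ x ∈ Dm p, x ∈ S ∧ f p x = v))

lemma deg_le (Ps : Finset ℕ) (Dm : ℕ → Finset ℕ) (f : ℕ → ℕ → ℕ)
    (hinj : ∀ p ∈ Ps, ∀ x ∈ Dm p, ∀ x' ∈ Dm p, f p x = f p x' → x = x')
    (S : Finset ℕ) (v : ℕ) :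
    wt Ps Dm f S ≤ wt Ps Dm f (S.erase v) + 2 * #(Qv Ps Dm f S v) := by
  have hq : 2 * #(Qv Ps Dm f S v) = ∑ p ∈ Ps, (if p ∈ Qv Ps Dm f S v then 2 else 0) := by
    rw [← Finset.sum_filter, Finset.sum_const, smul_eq_mul, mul_comm]
    congr 2
    ext p
    simp only [Qv, Finset.mem_filter]
    tauto
  rw [hq, wt, wt, ← Finset.sum_add_distrib]
  apply Finset.sum_le_sum
  intro p hp
  have hsub : (Dm p).filter (fun x => x ∈ S ∧ f p x ∈ S) ⊆
      (Dm p).filter (fun x => x ∈ S.erase v ∧ f p x ∈ S.erase v) ∪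
        ((Dm p).filter (fun x => x = v ∧ f p v ∈ S) ∪
          (Dm p).filter (fun x => x ∈ S ∧ f p x = v)) := by
    intro x hx
    simp only [Finset.mem_filter, Finset.mem_union, Finset.mem_erase] at hx ⊢
    by_cases h1 : x = v
    · subst h1
      right; left
      exact ⟨hx.1, rfl, hx.2.2⟩
    · by_cases h2 : f p x = v
      · right; right
        exact ⟨hx.1, hx.2.1, h2⟩
      · left
        exact ⟨hx.1, ⟨h1, hx.2.1⟩, ⟨h2, hx.2.2⟩⟩
  have hA : #((Dm p).filter (fun x => x = v ∧ f p v ∈ S)) ≤ 1 := by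
    rw [Finset.card_le_one]
    intro a ha b hb
    simp only [Finset.mem_filter] at ha hb
    rw [ha.2.1, hb.2.1]
  have hB : #((Dm p).filter (fun x => x ∈ S ∧ f p x = v)) ≤ 1 := by
    rw [Finset.card_le_one]
    intro a ha b hb
    simp only [Finset.mem_filter] at ha hb
    exact hinj p hp a ha.1 b hb.1 (by rw [ha.2.2, hb.2.2])
  refine (Finset.card_le_card hsub).trans ?_
  refine (Finset.card_union_le _ _).trans ?_
  apply Nat.add_le_add_left
  refine (Finset.card_union_le _ _).trans ?_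
  split_ifs with h
  · omega
  · have hA0 : (Dm p).filter (fun x => x = v ∧ f p v ∈ S) = ∅ := by
      rw [Finset.filter_eq_empty_iff]
      rintro x hx ⟨rfl, h2⟩
      apply h
      simp only [Qv, Finset.mem_filter]
      exact ⟨hp, Or.inl ⟨hx, h2⟩⟩
    have hB0 : (Dm p).filter (fun x => x ∈ S ∧ f p x = v) = ∅ := by
      rw [Finset.filter_eq_empty_iff]
      rintro x hx ⟨h1, h2⟩
      apply h
      simp only [Qv, Finset.mem_filter]
      exact ⟨hp, Or.inr ⟨x, hx, h1, h2⟩⟩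
    rw [hA0, hB0]
    simp

/-- signed label sets reached after `j` steps -/
def Wj (Ps S : Finset ℕ) (P err v₀ j : ℕ) : Finset (Finset ℕ × Finset ℕ) :=
  (Ps.powerset ×ˢ Ps.powerset).filter (fun K => Disjoint K.1 K.2 ∧ #K.1 + #K.2 = j ∧
    ∃ v ∈ S, |((v * ∏ q ∈ K.2, q : ℕ) : ℤ) - ((v₀ * ∏ q ∈ K.1, q : ℕ) : ℤ)| ≤
      ((j * P^j * err : ℕ) : ℤ))

lemma prod_le_pow (Ps K : Finset ℕ) (P : ℕ) (hP : ∀ p ∈ Ps, p ≤ P) (hP1 : 1 ≤ P)
    (hK : K ⊆ Ps) (j : ℕ) (hj : #K ≤ j) : ∏ q ∈ K, q ≤ P^j := by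
  calc ∏ q ∈ K, q ≤ ∏ q ∈ K, P := Finset.prod_le_prod' (fun q hq => hP q (hK hq))
    _ = P^(#K) := by simp
    _ ≤ P^j := Nat.pow_le_pow_right hP1 hj

lemma step_count (Ps S : Finset ℕ) (P err v₀ l : ℕ) (hP : ∀ p ∈ Ps, p.Prime ∧ p ≤ P)
    (Dm : ℕ → Finset ℕ) (f : ℕ → ℕ → ℕ)
    (hf : ∀ p ∈ Ps, ∀ x ∈ Dm p, p * x ≤ f p x + err ∧ f p x ≤ p * x + err)
    (hP1 : 1 ≤ P) (hQ : ∀ v ∈ S, 4 * l < #(Qv Ps Dm f S v)) (j : ℕ) (hj : j < l) :
    #(Wj Ps S P err v₀ j) * (3*l) ≤ #(Wj Ps S P err v₀ (j+1)) * (j+1) := by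
  classical
  set r : Finset ℕ × Finset ℕ → Finset ℕ × Finset ℕ → Prop := fun K K' =>
    ∃ q, q ∉ K.1 ∧ q ∉ K.2 ∧ (K' = (insert q K.1, K.2) ∨ K' = (K.1, insert q K.2)) with hr
  apply Finset.card_mul_le_card_mul r
  · intro K hK
    simp only [Wj, Finset.mem_filter, Finset.mem_product, Finset.mem_powerset] at hK
    obtain ⟨⟨hK1, hK2⟩, hdis, hcard, v, hv, hvb⟩ := hK
    have hQv := hQ v hv
    set Q' := Qv Ps Dm f S v \ (K.1 ∪ K.2) with hQ'
    have hQ'c : 3*l ≤ #Q' := by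
      have h1 := Finset.le_card_sdiff (K.1 ∪ K.2) (Qv Ps Dm f S v)
      have h2 := Finset.card_union_le K.1 K.2
      rw [← hQ'] at h1
      omega
    refine hQ'c.trans ?_
    set ext : ℕ → Finset ℕ × Finset ℕ := fun q =>
      if q ∈ Ps ∧ (v ∈ Dm q ∧ f q v ∈ S) then (insert q K.1, K.2) else (K.1, insert q K.2) with hext
    have hnot : ∀ q ∈ Q', q ∉ K.1 ∧ q ∉ K.2 ∧ q ∈ Ps := by
      intro q hq
      simp only [hQ', Qv, Finset.mem_sdiff, Finset.mem_union, Finset.mem_filter, not_or] at hq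
      exact ⟨hq.2.1, hq.2.2, hq.1.1⟩
    have hunion : ∀ q, (ext q).1 ∪ (ext q).2 = insert q (K.1 ∪ K.2) := by
      intro q
      simp only [hext]
      split_ifs
      · simp only [Finset.insert_union]
      · simp only [Finset.union_insert]
    apply Finset.card_le_card_of_injOn ext
    · intro q hq
      have hq' := hnot q hq
      have hqprime := (hP q hq'.2.2).1
      have hqP := (hP q hq'.2.2).2
      have hPj : ∏ q ∈ K.2, q ≤ P^j :=
        prod_le_pow Ps K.2 P (fun p hp => (hP p hp).2) hP1 hK2 j (by omega)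
      simp only [Finset.coe_filter, Finset.bipartiteAbove, Set.mem_ofPred_eq]
      refine ⟨?_, ?_⟩
      · simp only [Wj, Finset.mem_filter, Finset.mem_product, Finset.mem_powerset]
        by_cases hup : q ∈ Ps ∧ (v ∈ Dm q ∧ f q v ∈ S)
        · have he : ext q = (insert q K.1, K.2) := by simp only [hext]; rw [if_pos hup]
          rw [he]
          refine ⟨⟨?_, hK2⟩, ?_, ?_, f q v, hup.2.2, ?_⟩
          · exact Finset.insert_subset hq'.2.2 hK1
          · rw [Finset.disjoint_insert_left]; exact ⟨hq'.2.1, hdis⟩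
          · simp only
            rw [Finset.card_insert_of_notMem hq'.1]; omega
          · simp only
            rw [Finset.prod_insert hq'.1]
            have hfv := hf q hup.1 v hup.2.1
            set a := ∏ q ∈ K.1, q
            set b := ∏ q ∈ K.2, q
            have e1 : ((f q v * b : ℕ) : ℤ) - ((v₀ * (q * a) : ℕ) : ℤ) =
              ((f q v : ℤ) - q * v) * b + q * (((v * b : ℕ) : ℤ) - ((v₀ * a : ℕ) : ℤ)) := by
              push_cast; ring
            rw [e1]
            have h1 : |((f q v : ℤ) - q * v)| ≤ err := by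
              rw [abs_le]
              obtain ⟨h1, h2⟩ := hfv
              constructor <;> [(have : ((q * v : ℕ) : ℤ) ≤ ((f q v + err : ℕ) : ℤ) := by exact_mod_cast h1); (have : ((f q v : ℕ) : ℤ) ≤ ((q * v + err : ℕ) : ℤ) := by exact_mod_cast h2)] <;> push_cast at this <;> linarith
            calc |((f q v : ℤ) - q * v) * b + q * (((v * b : ℕ) : ℤ) - ((v₀ * a : ℕ) : ℤ))|
                ≤ |((f q v : ℤ) - q * v) * b| + |(q:ℤ) * (((v * b : ℕ) : ℤ) - ((v₀ * a : ℕ) : ℤ))| :=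
                  abs_add_le _ _
              _ = |((f q v : ℤ) - q * v)| * b + q * |((v * b : ℕ) : ℤ) - ((v₀ * a : ℕ) : ℤ)| := by
                  rw [abs_mul, abs_mul, abs_of_nonneg (by positivity : (0:ℤ) ≤ (b:ℤ)),
                    abs_of_nonneg (by positivity : (0:ℤ) ≤ (q:ℤ))]
              _ ≤ (err : ℤ) * ((P^j : ℕ) : ℤ) + (P : ℤ) * ((j * P^j * err : ℕ) : ℤ) := by
                  apply add_le_add
                  · exact mul_le_mul h1 (by exact_mod_cast hPj) (by positivity) (by positivity)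
                  · exact mul_le_mul (by exact_mod_cast hqP) hvb (abs_nonneg _) (by positivity)
              _ ≤ (((j+1) * P^(j+1) * err : ℕ) : ℤ) := by
                  norm_cast
                  have : P^j ≤ P^(j+1) := Nat.pow_le_pow_right hP1 (by omega)
                  calc err * P^j + P * (j * P^j * err) = err * P^j + j * P^(j+1) * err := by ring
                    _ ≤ err * P^(j+1) + j * P^(j+1) * err := by gcongr
                    _ = (j+1) * P^(j+1) * err := by ring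
        · have he : ext q = (K.1, insert q K.2) := by simp only [hext]; rw [if_neg hup]
          rw [he]
          have hQm : q ∈ Qv Ps Dm f S v := (Finset.mem_sdiff.mp hq).1
          simp only [Qv, Finset.mem_filter] at hQm
          obtain ⟨hqPs, hor⟩ := hQm
          rcases hor with hor | ⟨x, hx, hxS, hfx⟩
          · exact absurd ⟨hqPs, hor⟩ hup
          · refine ⟨⟨hK1, ?_⟩, ?_, ?_, x, hxS, ?_⟩
            · exact Finset.insert_subset hq'.2.2 hK2
            · rw [Finset.disjoint_insert_right]; exact ⟨hq'.1, hdis⟩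
            · simp only
              rw [Finset.card_insert_of_notMem hq'.2.1]; omega
            · simp only
              rw [Finset.prod_insert hq'.2.1]
              have hfv := hf q hqPs x hx
              rw [hfx] at hfv
              set a := ∏ q ∈ K.1, q
              set b := ∏ q ∈ K.2, q
              have e1 : ((x * (q * b) : ℕ) : ℤ) - ((v₀ * a : ℕ) : ℤ) =
                ((q : ℤ) * x - v) * b + (((v * b : ℕ) : ℤ) - ((v₀ * a : ℕ) : ℤ)) := by
                push_cast; ring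
              rw [e1]
              have h1 : |((q : ℤ) * x - v)| ≤ err := by
                rw [abs_le]
                obtain ⟨h1, h2⟩ := hfv
                constructor <;> [(have : ((v : ℕ) : ℤ) ≤ ((q * x + err : ℕ) : ℤ) := by exact_mod_cast h2); (have : ((q * x : ℕ) : ℤ) ≤ ((v + err : ℕ) : ℤ) := by exact_mod_cast h1)] <;> push_cast at this <;> linarith
              calc |((q : ℤ) * x - v) * b + (((v * b : ℕ) : ℤ) - ((v₀ * a : ℕ) : ℤ))|
                  ≤ |((q : ℤ) * x - v) * b| + |((v * b : ℕ) : ℤ) - ((v₀ * a : ℕ) : ℤ)| :=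
                    abs_add_le _ _
                _ = |((q : ℤ) * x - v)| * b + |((v * b : ℕ) : ℤ) - ((v₀ * a : ℕ) : ℤ)| := by
                    rw [abs_mul, abs_of_nonneg (by positivity : (0:ℤ) ≤ (b:ℤ))]
                _ ≤ (err : ℤ) * ((P^j : ℕ) : ℤ) + ((j * P^j * err : ℕ) : ℤ) := by
                    apply add_le_add
                    · exact mul_le_mul h1 (by exact_mod_cast hPj) (by positivity) (by positivity)
                    · exact hvb
                _ ≤ (((j+1) * P^(j+1) * err : ℕ) : ℤ) := by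
                    norm_cast
                    have : P^j ≤ P^(j+1) := Nat.pow_le_pow_right hP1 (by omega)
                    calc err * P^j + j * P^j * err ≤ err * P^(j+1) + j * P^(j+1) * err := by gcongr
                      _ = (j+1) * P^(j+1) * err := by ring
      · refine ⟨q, hq'.1, hq'.2.1, ?_⟩
        simp only [hext]
        split_ifs
        · left; rfl
        · right; rfl
    · intro q hq q' hq' he
      have h1 := hunion q
      rw [he, hunion q'] at h1
      have hqn := hnot q hq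
      have : q ∈ insert q' (K.1 ∪ K.2) := by rw [h1]; exact Finset.mem_insert_self _ _
      rw [Finset.mem_insert, Finset.mem_union] at this
      rcases this with h | h | h
      · exact h
      · exact absurd h hqn.1
      · exact absurd h hqn.2.1
  · intro K' hK'
    simp only [Wj, Finset.mem_filter, Finset.mem_product, Finset.mem_powerset] at hK'
    obtain ⟨_, hdis, hcard, _⟩ := hK'
    have hsub : (Finset.bipartiteBelow r (Wj Ps S P err v₀ j) K') ⊆
        (K'.1 ∪ K'.2).image (fun q => (K'.1.erase q, K'.2.erase q)) := by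
      intro K hK
      simp only [Finset.bipartiteBelow, Finset.mem_filter, hr] at hK
      obtain ⟨_, q, hq1, hq2, h⟩ := hK
      rw [Finset.mem_image]
      refine ⟨q, ?_, ?_⟩
      · rcases h with h | h <;> rw [h] <;> simp
      · rcases h with h | h
        · rw [h]
          simp only [Finset.erase_insert hq1, Finset.erase_eq_of_notMem hq2]
        · rw [h]
          simp only [Finset.erase_insert hq2, Finset.erase_eq_of_notMem hq1]
    refine (Finset.card_le_card hsub).trans ?_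
    refine Finset.card_image_le.trans ?_
    refine (Finset.card_union_le _ _).trans ?_
    omega

lemma sets_eq {A B A' B' : Finset ℕ} (hA : ∀ q ∈ A, q.Prime) (hB : ∀ q ∈ B, q.Prime)
    (hA' : ∀ q ∈ A', q.Prime) (h1 : Disjoint A B)
    (h : (∏ q ∈ A, q) * ∏ q ∈ B', q = (∏ q ∈ A', q) * ∏ q ∈ B, q) : A ⊆ A' := by
  intro q hq
  have hd : q ∣ (∏ q ∈ A', q) * ∏ q ∈ B, q := by
    rw [← h]
    exact Dvd.dvd.mul_right (Finset.dvd_prod_of_mem _ hq) _
  have hp := hA q hq
  rcases (Nat.Prime.dvd_mul hp).mp hd with hd | hd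
  · obtain ⟨r, hr, hqr⟩ := (Prime.dvd_finsetProd_iff hp.prime _).mp hd
    rw [(Nat.prime_dvd_prime_iff_eq hp (hA' r hr)).mp hqr]
    exact hr
  · obtain ⟨r, hr, hqr⟩ := (Prime.dvd_finsetProd_iff hp.prime _).mp hd
    rw [(Nat.prime_dvd_prime_iff_eq hp (hB r hr)).mp hqr] at hq
    exact absurd hr (Finset.disjoint_left.mp h1 hq)

lemma Wj_inj (Ps S : Finset ℕ) (P err N₀ v₀ l : ℕ) (hP : ∀ p ∈ Ps, p.Prime ∧ p ≤ P)
    (hP1 : 1 ≤ P) (hv₀ : N₀ ≤ v₀) (herr : 2*l*P^(2*l)*err < N₀) :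
    #(Wj Ps S P err v₀ l) ≤ #S := by
  classical
  have hex : ∀ K ∈ Wj Ps S P err v₀ l, ∃ v ∈ S,
      |((v * ∏ q ∈ K.2, q : ℕ) : ℤ) - ((v₀ * ∏ q ∈ K.1, q : ℕ) : ℤ)| ≤
      ((l * P^l * err : ℕ) : ℤ) := by
    intro K hK
    simp only [Wj, Finset.mem_filter] at hK
    exact hK.2.2.2
  choose! g hg using hex
  apply Finset.card_le_card_of_injOn g
  · intro K hK
    exact (hg K hK).1
  · intro K hK K' hK' he
    have h1 := (hg K hK).2
    have h2 := (hg K' hK').2
    rw [← he] at h2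
    have hKK := hK
    have hKK' := hK'
    simp only [Wj, Finset.coe_filter, Finset.mem_product, Finset.mem_powerset,
      Set.mem_ofPred_eq] at hKK hKK'
    obtain ⟨⟨hK1, hK2⟩, hdis, hcard, _⟩ := hKK
    obtain ⟨⟨hK1', hK2'⟩, hdis', hcard', _⟩ := hKK'
    have hb : ∏ q ∈ K.2, q ≤ P^l :=
      prod_le_pow Ps K.2 P (fun p hp => (hP p hp).2) hP1 hK2 l (by omega)
    have hb' : ∏ q ∈ K'.2, q ≤ P^l :=
      prod_le_pow Ps K'.2 P (fun p hp => (hP p hp).2) hP1 hK2' l (by omega)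
    have hprod : (∏ q ∈ K.1, q) * (∏ q ∈ K'.2, q) = (∏ q ∈ K'.1, q) * ∏ q ∈ K.2, q := by
      set a := ∏ q ∈ K.1, q
      set b := ∏ q ∈ K.2, q
      set a' := ∏ q ∈ K'.1, q
      set b' := ∏ q ∈ K'.2, q
      set v := g K
      by_contra hne
      have hne' : (a * b' : ℤ) - a' * b ≠ 0 := by
        intro h
        apply hne
        have : (a * b' : ℤ) = a' * b := by linarith
        exact_mod_cast this
      have h3 : (1 : ℤ) ≤ |(a * b' : ℤ) - a' * b| := Int.one_le_abs hne'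
      have e1 : (v₀ : ℤ) * ((a * b' : ℤ) - a' * b) =
          (((v * b' : ℕ) : ℤ) - ((v₀ * a' : ℕ) : ℤ)) * b -
          (((v * b : ℕ) : ℤ) - ((v₀ * a : ℕ) : ℤ)) * b' := by
        push_cast; ring
      have h4 : (v₀ : ℤ) * |(a * b' : ℤ) - a' * b| ≤
          ((l * P^l * err : ℕ) : ℤ) * ((P^l : ℕ) : ℤ) + ((l * P^l * err : ℕ) : ℤ) * ((P^l : ℕ) : ℤ) := by
        have : (v₀ : ℤ) * |(a * b' : ℤ) - a' * b| = |(v₀ : ℤ) * ((a * b' : ℤ) - a' * b)| := by
          rw [abs_mul, abs_of_nonneg (by positivity : (0:ℤ) ≤ (v₀:ℤ))]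
        rw [this, e1]
        refine (abs_sub _ _).trans ?_
        rw [abs_mul, abs_mul, abs_of_nonneg (by positivity : (0:ℤ) ≤ (b:ℤ)),
          abs_of_nonneg (by positivity : (0:ℤ) ≤ (b':ℤ))]
        apply add_le_add
        · exact mul_le_mul h2 (by exact_mod_cast hb) (by positivity) (by positivity)
        · exact mul_le_mul h1 (by exact_mod_cast hb') (by positivity) (by positivity)
      have h5 : (v₀ : ℤ) ≤ ((2*l*P^(2*l)*err : ℕ) : ℤ) := by
        calc (v₀ : ℤ) = v₀ * 1 := by ring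
          _ ≤ (v₀ : ℤ) * |(a * b' : ℤ) - a' * b| := by gcongr
          _ ≤ _ := h4
          _ = ((2*l*P^(2*l)*err : ℕ) : ℤ) := by push_cast; ring
      have h6 : v₀ ≤ 2*l*P^(2*l)*err := by exact_mod_cast h5
      omega
    have pK1 : ∀ q ∈ K.1, q.Prime := fun q hq => (hP q (hK1 hq)).1
    have pK2 : ∀ q ∈ K.2, q.Prime := fun q hq => (hP q (hK2 hq)).1
    have pK1' : ∀ q ∈ K'.1, q.Prime := fun q hq => (hP q (hK1' hq)).1
    have pK2' : ∀ q ∈ K'.2, q.Prime := fun q hq => (hP q (hK2' hq)).1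
    have s1 : K.1 ⊆ K'.1 := sets_eq pK1 pK2 pK1' hdis hprod
    have s2 : K'.1 ⊆ K.1 := sets_eq pK1' pK2' pK1 hdis' hprod.symm
    have s3 : K.2 ⊆ K'.2 := sets_eq pK2 pK1 pK2' hdis.symm (by
      rw [mul_comm, ← hprod, mul_comm])
    have s4 : K'.2 ⊆ K.2 := sets_eq pK2' pK1' pK2 hdis'.symm (by
      rw [mul_comm, hprod, mul_comm])
    exact Prod.ext (Subset.antisymm s1 s2) (Subset.antisymm s3 s4)

theorem walk (X Ps : Finset ℕ) (P err N₀ l : ℕ) (hP : ∀ p ∈ Ps, p.Prime ∧ p ≤ P)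
    (Dm : ℕ → Finset ℕ) (f : ℕ → ℕ → ℕ) (hD : ∀ p ∈ Ps, Dm p ⊆ X)
    (hf : ∀ p ∈ Ps, ∀ x ∈ Dm p, f p x ∈ X ∧ p * x ≤ f p x + err ∧ f p x ≤ p * x + err)
    (hinj : ∀ p ∈ Ps, ∀ x ∈ Dm p, ∀ x' ∈ Dm p, f p x = f p x' → x = x')
    (hX : ∀ x ∈ X, N₀ ≤ x) (hl : #X < 3^l) (hP1 : 1 ≤ P) (herr : 2*l*P^(2*l)*err < N₀) :
    ∑ p ∈ Ps, #(Dm p) ≤ 8*l*#X := by
  by_contra hcon
  push Not at hcon
  have hw : wt Ps Dm f X = ∑ p ∈ Ps, #(Dm p) := by
    unfold wt
    apply Finset.sum_congr rfl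
    intro p hp
    congr 1
    apply Finset.filter_true_of_mem
    intro x hx
    exact ⟨hD p hp hx, (hf p hp x hx).1⟩
  rw [← hw] at hcon
  have h0 : wt Ps Dm f ∅ = 0 := by unfold wt; simp
  obtain ⟨S, hSX, ⟨v₀, hv₀⟩, hS⟩ := exists_core (wt Ps Dm f) (8*l) h0 _ X rfl hcon
  have hQ : ∀ v ∈ S, 4 * l < #(Qv Ps Dm f S v) := by
    intro v hv
    have h1 := hS v hv
    have h2 := deg_le Ps Dm f hinj S v
    omega
  have hf' : ∀ p ∈ Ps, ∀ x ∈ Dm p, p * x ≤ f p x + err ∧ f p x ≤ p * x + err :=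
    fun p hp x hx => (hf p hp x hx).2
  have hW : ∀ j, j ≤ l → (3*l)^j ≤ #(Wj Ps S P err v₀ j) * j.factorial := by
    intro j
    induction j with
    | zero =>
      intro _
      have : (∅, ∅) ∈ Wj Ps S P err v₀ 0 := by
        simp only [Wj, Finset.mem_filter, Finset.mem_product, Finset.mem_powerset]
        refine ⟨⟨Finset.empty_subset _, Finset.empty_subset _⟩, by simp, by simp, v₀, hv₀, ?_⟩
        simp
      have h1 : 0 < #(Wj Ps S P err v₀ 0) := Finset.card_pos.mpr ⟨_, this⟩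
      simpa using h1
    | succ j ih =>
      intro hj
      have h1 := step_count Ps S P err v₀ l hP Dm f hf' hP1 hQ j (by omega)
      have h2 := ih (by omega)
      calc (3*l)^(j+1) = (3*l)^j * (3*l) := pow_succ _ _
        _ ≤ (#(Wj Ps S P err v₀ j) * j.factorial) * (3*l) := by gcongr
        _ = (#(Wj Ps S P err v₀ j) * (3*l)) * j.factorial := by ring
        _ ≤ (#(Wj Ps S P err v₀ (j+1)) * (j+1)) * j.factorial := by gcongr
        _ = #(Wj Ps S P err v₀ (j+1)) * (j+1).factorial := by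
            rw [Nat.factorial_succ]; ring
  have h1 := hW l le_rfl
  have h2 : 3^l * l.factorial ≤ (3*l)^l := by
    rw [mul_pow]
    gcongr
    exact Nat.factorial_le_pow l
  have h3 : 3^l ≤ #(Wj Ps S P err v₀ l) := by
    have := h2.trans h1
    exact Nat.le_of_mul_le_mul_right this (Nat.factorial_pos l)
  have h4 := Wj_inj Ps S P err N₀ v₀ l hP hP1 (hX v₀ (hSX hv₀)) herr
  have h5 := Finset.card_le_card hSX
  omega

end walk

end Pool.Agent.SqrtDC
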