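import Mathlib
import Pool.Agent.SqrtDC.Defs
import Pool.Agent.SqrtDC.Exact
import Pool.Agent.SqrtDC.Frob
import Pool.Agent.SqrtDC.DynOf
import Pool.Agent.SqrtDC.Levels
import Pool.Agent.SqrtDC.Edges
import Pool.Agent.SqrtDC.Walk

open Finset

namespace Pool.Agent.SqrtDC

lemma num1 (τ t Λ γ : ℕ) (ht : t ≤ 2^τ) (hΛ : Λ ≤ 2^τ) (hτ1 : 1 ≤ τ) (hγ : 1 ≤ γ) :
    Λ*t^2 + 2*t^3*γ + 1 ≤ 2^(5*τ)*γ := by
  obtain ⟨q, hq⟩ : ∃ q, q = 2^τ := ⟨_, rfl⟩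
  have e5 : 2^(5*τ) = q^5 := by rw [hq, ← pow_mul]; congr 1; ring
  have hq2 : 2 ≤ q := by
    rw [hq]
    calc 2 = 2^1 := by norm_num
      _ ≤ 2^τ := Nat.pow_le_pow_right (by norm_num) hτ1
  rw [← hq] at ht hΛ
  rw [e5]
  have h1 : Λ * t^2 ≤ q*q^2 := by gcongr
  have h2 : 2*t^3*γ ≤ 2*q^3*γ := by gcongr
  have h3 : 4 * q^3 ≤ q^5 := by
    calc 4 * q^3 = 2^2 * q^3 := by norm_num
      _ ≤ q^2 * q^3 := by gcongr
      _ = q^5 := by ring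
  have h4 : q*q^2 ≤ q^3*γ := by
    calc q*q^2 = q^3*1 := by ring
      _ ≤ q^3*γ := by gcongr
  have h5 : 1 ≤ q^3*γ := Nat.one_le_iff_ne_zero.mpr (by positivity)
  calc Λ*t^2 + 2*t^3*γ + 1 ≤ q^3*γ + 2*q^3*γ + q^3*γ := by omega
    _ = (4*q^3)*γ := by ring
    _ ≤ q^5*γ := by gcongr

lemma num2 (τ t Λ P p r : ℕ) (ht1 : 1 ≤ t) (ht : t ≤ 2^τ) (hΛ : Λ ≤ 2^τ) (hp : p ≤ P)
    (hr : τ*P + τ + 1 ≤ r) : Λ * t^p + 1 ≤ 2^r := by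
  calc Λ * t^p + 1 ≤ 2^τ * (2^τ)^P + 1 := by
        have h1 : t^p ≤ (2^τ)^P := by
          calc t^p ≤ t^P := Nat.pow_le_pow_right ht1 hp
            _ ≤ (2^τ)^P := Nat.pow_le_pow_left ht P
        have h2 : Λ * t^p ≤ 2^τ * (2^τ)^P := Nat.mul_le_mul hΛ h1
        omega
    _ ≤ 2^(τ*P + τ + 1) := by
        rw [← pow_mul, ← pow_add]
        have : 1 ≤ 2^(τ*P+τ) := Nat.one_le_two_pow
        rw [show τ + τ*P = τ*P + τ by ring, pow_succ]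
        omega
    _ ≤ 2^r := Nat.pow_le_pow_right (by norm_num) hr

lemma num3 (τ t p x r s₁ L : ℕ) (hp : p ≤ 2^τ) (ht : t ≤ 2^τ) (hx : x ≤ 2^(s₁+5))
    (h1 : τ + r ≤ s₁ + 5) (h2 : s₁ + τ + 8 ≤ L) : p * (x + t*2^r) + 2^r ≤ 2^(L-1) := by
  have h3 : t * 2^r ≤ 2^(s₁+5) := by
    calc t * 2^r ≤ 2^τ * 2^r := by gcongr
      _ = 2^(τ+r) := by rw [pow_add]
      _ ≤ 2^(s₁+5) := Nat.pow_le_pow_right (by norm_num) h1
  have h4 : 2^r ≤ 2^τ * 2^(s₁+6) := by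
    rw [← pow_add]
    exact Nat.pow_le_pow_right (by norm_num) (by omega)
  have h5 : p * (x + t*2^r) ≤ 2^τ * 2^(s₁+6) := by
    apply Nat.mul_le_mul hp
    rw [show s₁+6 = (s₁+5)+1 by ring, pow_succ 2 (s₁+5)]
    omega
  calc p * (x + t*2^r) + 2^r ≤ 2^τ * 2^(s₁+6) + 2^τ * 2^(s₁+6) := by omega
    _ = 2^(τ+(s₁+6)+1) := by rw [pow_succ, pow_add]; ring
    _ ≤ 2^(L-1) := Nat.pow_le_pow_right (by norm_num) (by omega)

lemma num4 (τ t p r : ℕ) (hp : p ≤ 2^τ) (ht : t + 1 ≤ 2^τ) :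
    (p*t+1)*2^r ≤ 2^(2*τ+r) := by
  rw [pow_add 2 (2*τ) r]
  gcongr
  calc p*t+1 ≤ 2^τ * t + 2^τ := by
        have h1 : 1 ≤ 2^τ := Nat.one_le_two_pow
        have h2 : p * t ≤ 2^τ * t := by gcongr
        omega
    _ = 2^τ * (t+1) := by ring
    _ ≤ 2^τ * 2^τ := by gcongr
    _ = 2^(2*τ) := by rw [← pow_add]; congr 1; ring

lemma num5 (τ P r s₀ : ℕ) (hP : P ≤ 2^τ) (h : 2*τ^2 + 6*τ + r + 10 ≤ s₀) :
    2*τ*P^(2*τ)*2^(2*τ+r) < 2^(s₀-τ-3) := by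
  have h1 : τ ≤ 2^τ := Nat.lt_two_pow_self.le
  calc 2*τ*P^(2*τ)*2^(2*τ+r) ≤ 2*2^τ*(2^τ)^(2*τ)*2^(2*τ+r) := by gcongr
    _ = 2^(1 + τ + τ*(2*τ) + (2*τ+r)) := by
        rw [pow_add 2 (1 + τ + τ*(2*τ)) (2*τ+r), pow_add 2 (1+τ) (τ*(2*τ)), pow_add 2 1 τ,
          pow_one, ← pow_mul]
    _ < 2^(s₀-τ-3) := by
        apply Nat.pow_lt_pow_right (by norm_num)
        have : 2*τ^2 = τ*(2*τ) := by ring
        omega

/-- all parameters explicit; here `t` is a bound for the number of digit changes up to `2^L` -/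
theorem main_ineq (L τ r P I κ s₀ s₁ t : ℕ) (ht : #(E (2^L)) ≤ t) (hτ : t + 1 ≤ 2^τ)
    (hLτ : L + 4 ≤ 2^τ) (hr : τ*P + τ + 1 ≤ r) (hs₀ : r + 5*τ*I + 2*τ + 3 ≤ s₀)
    (hs₀' : 2*τ^2 + 6*τ + r + 10 ≤ s₀) (hκ : 2*κ ≤ I)
    (hs : 12 + 8*(2*τ+7)*κ < s₁ - s₀) (hP : P ≤ 2^τ) (hP1 : 1 ≤ P) (hs₁ : s₁ + τ + 8 ≤ L) :
    #((range (P+1)).filter (fun p => p.Prime ∧ (p % 8 = 3 ∨ p % 8 = 5))) * ((s₁ - s₀) * κ) ≤
      16*τ*(τ+9)*t := by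
  classical
  have hL4 : 4 ≤ L := by omega
  have ht1 : 1 ≤ t := by
    refine le_trans ?_ ht
    exact Finset.card_pos.mpr ⟨0, zero_mem_E _⟩
  have hτ1 : 1 ≤ τ := by
    rcases Nat.eq_zero_or_pos τ with h | h
    · subst h; simp at hτ; omega
    · exact h
  set N := 2^L with hN
  set Λ := L + 4 with hΛdef
  set N' := N - Λ with hN'
  have h2L : L + 4 ≤ 2^(L-1) + 4 := by
    have : L ≤ 2^(L-1) := by
      have := Nat.lt_two_pow_self (n := L-1)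
      omega
    omega
  have hNN : N = 2 * 2^(L-1) := by
    rw [hN, ← pow_succ']; congr 1; omega
  have hbig : 8 ≤ 2^(L-1) := by
    calc 8 = 2^3 := by norm_num
      _ ≤ 2^(L-1) := Nat.pow_le_pow_right (by norm_num) (by omega)
  have hbig2 : 2 * (L + 4) ≤ 2^L := by
    have h1 : s₁ + τ + 8 ≤ L := hs₁
    obtain ⟨m, rfl⟩ : ∃ m, L = m + 5 := ⟨L - 5, by omega⟩
    have := Nat.lt_two_pow_self (n := m)
    have h2 : 2^(m+5) = 32 * 2^m := by rw [pow_add]; ring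
    rw [h2]
    omega
  have hΛN : Λ ≤ N := by omega
  have hN'N : N' + Λ ≤ N := by omega
  have hN'2 : 2^(L-1) ≤ N' := by omega
  have hΛ : 2*N + 10 ≤ 2^Λ := by
    rw [hΛdef, hN, pow_add]
    have : 1 ≤ 2^L := Nat.one_le_two_pow
    omega
  have hs₁s₀ : s₀ + 12 < s₁ := by omega
  have hN₀ : 2^(s₀-τ-2) = 2 * 2^(s₀-τ-3) := by
    rw [← pow_succ']; congr 1; omega
  set Ps := (range (P+1)).filter (fun p => p.Prime ∧ (p % 8 = 3 ∨ p % 8 = 5)) with hPs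
  have hkey : ∀ p ∈ Ps, ∃ (D : Finset ℕ) (f : ℕ → ℕ), (s₁ - s₀) * κ ≤ 2*(τ+9) * #D ∧
      (∀ x ∈ D, x ∈ E N ∧ 2^(s₀-τ-2) ≤ x) ∧
      (∀ x ∈ D, f x ∈ E N ∧ p * x ≤ f x + 2^(2*τ+r) ∧ f x ≤ p * x + 2^(2*τ+r) ∧ x ≤ f x) ∧
      (∀ x ∈ D, ∀ x' ∈ D, f x = f x' → x = x') := by
    intro p hp
    rw [hPs, Finset.mem_filter, Finset.mem_range] at hp
    obtain ⟨hpP, hpp, hp8⟩ := hp
    have : Fact p.Prime := ⟨hpp⟩
    have hlev : (s₁ - s₀) * κ ≤ 2*(τ+9) *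
      #((vis (E N) (vv p) (2^r)).filter (fun x => 2^(s₀-τ-2) ≤ x ∧ x ≤ 2^(s₁+5))) := by
      apply levels (E N) (zero_mem_E N) (vv p) t ht I s₀ s₁ τ κ r N' _ hτ hs₀ hκ hs
      · calc 2^(s₁+6) ≤ 2^(L-1) := Nat.pow_le_pow_right (by norm_num) (by omega)
          _ ≤ N' := hN'2
      · intro i hi
        apply dyn_vis p hp8 Λ N t (2^(r+5*τ*i)) (2^(r+5*τ*(i+1))) N' hΛ ht _ hN'N
        have e1 : 2^(r+5*τ*(i+1)) = 2^(5*τ) * 2^(r+5*τ*i) := by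
          rw [← pow_add]; congr 1; ring
        rw [e1]
        exact num1 τ t Λ _ (by omega) hLτ hτ1 Nat.one_le_two_pow
    set ρ := 2^r with hρ
    have hr' : ρ ≤ 2^(s₀-τ-2) := by
      rw [hρ]; exact Nat.pow_le_pow_right (by norm_num) (by omega)
    have hp3 : 3 ≤ p := by
      have := hpp.two_le
      rcases hp8 with h | h <;> omega
    obtain ⟨f, hf1, hf2⟩ := edges (E N) (zero_mem_E N) (vv p) t ht p ρ N' hp3 (by
      intro a ha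
      apply frob_window p hp8 Λ N t ρ hΛ ht _ a (by omega)
      exact num2 τ t Λ P p r ht1 (by omega) hLτ (by omega) hr)
    have hpP2 : p ≤ 2^τ := by omega
    have hcond : ∀ x, 2^(s₀-τ-2) ≤ x → x ≤ 2^(s₁+5) → ρ ≤ x ∧ p * (x + t*ρ) + ρ ≤ N' := by
      intro x h1 h2
      refine ⟨hr'.trans h1, ?_⟩
      exact (num3 τ t p x r s₁ L hpP2 (by omega) h2 (by omega) hs₁).trans hN'2
    have herr1 : ρ ≤ 2^(2*τ+r) := Nat.pow_le_pow_right (by norm_num) (by omega)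
    have herr2 : (p*t+1)*ρ ≤ 2^(2*τ+r) := num4 τ t p r hpP2 hτ
    refine ⟨(vis (E N) (vv p) ρ).filter (fun x => 2^(s₀-τ-2) ≤ x ∧ x ≤ 2^(s₁+5)), f, hlev,
      ?_, ?_, ?_⟩
    · intro x hx
      rw [Finset.mem_filter] at hx
      exact ⟨(Finset.filter_subset _ _) ((Finset.filter_subset _ _) hx.1), hx.2.1⟩
    · intro x hx
      rw [Finset.mem_filter] at hx
      obtain ⟨h0, h1, h2⟩ := hx
      obtain ⟨h3, h4⟩ := hcond x h1 h2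
      obtain ⟨h5, h6, h7⟩ := hf1 x h0 h3 h4
      have h8 : 2 * x ≤ p * x := Nat.mul_le_mul_right x (by omega)
      exact ⟨h5, by omega, by omega, by omega⟩
    · intro x hx x' hx' he
      rw [Finset.mem_filter] at hx hx'
      obtain ⟨h0, h1, h2⟩ := hx
      obtain ⟨h0', h1', h2'⟩ := hx'
      obtain ⟨h3, h4⟩ := hcond x h1 h2
      obtain ⟨h3', h4'⟩ := hcond x' h1' h2'
      exact hf2 x h0 h3 h4 x' h0' h3' h4' he
  choose! Dm f hk1 hk2 hk3 hk4 using hkey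
  set X := (E N).filter (fun x => 2^(s₀-τ-3) ≤ x) with hX
  have hwalk : ∑ p ∈ Ps, #(Dm p) ≤ 8*τ*#X := by
    apply walk X Ps P (2^(2*τ+r)) (2^(s₀-τ-3)) τ _ Dm f _ _ _ _ _ hP1 _
    · intro p hp
      rw [hPs, Finset.mem_filter, Finset.mem_range] at hp
      exact ⟨hp.2.1, by omega⟩
    · intro p hp x hx
      obtain ⟨h0, h1⟩ := hk2 p hp x hx
      rw [hX, Finset.mem_filter]
      exact ⟨h0, by omega⟩
    · intro p hp x hx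
      obtain ⟨h0, h1⟩ := hk2 p hp x hx
      obtain ⟨h5, h6, h7, h8⟩ := hk3 p hp x hx
      refine ⟨?_, h6, h7⟩
      rw [hX, Finset.mem_filter]
      exact ⟨h5, by omega⟩
    · intro p hp x hx x' hx' he
      exact hk4 p hp x hx x' hx' he
    · intro x hx
      rw [hX, Finset.mem_filter] at hx
      exact hx.2
    · calc #X ≤ #(E N) := Finset.card_filter_le _ _
        _ ≤ t := ht
        _ < 2^τ := by omega
        _ ≤ 3^τ := Nat.pow_le_pow_left (by norm_num) τ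
    · exact num5 τ P r s₀ hP hs₀'
  have hXt : #X ≤ t := (Finset.card_filter_le _ _).trans ht
  calc #Ps * ((s₁ - s₀) * κ) = ∑ p ∈ Ps, (s₁ - s₀) * κ := by rw [Finset.sum_const, smul_eq_mul]
    _ ≤ ∑ p ∈ Ps, 2*(τ+9) * #(Dm p) := Finset.sum_le_sum hk1
    _ = 2*(τ+9) * ∑ p ∈ Ps, #(Dm p) := by rw [Finset.mul_sum]
    _ ≤ 2*(τ+9) * (8*τ*#X) := by gcongr
    _ ≤ 2*(τ+9) * (8*τ*t) := by gcongr
    _ = 16*τ*(τ+9)*t := by ring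

end Pool.Agent.SqrtDC
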