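import Mathlib

open Finset

namespace Pool.Agent.SqrtDC

namespace Inert

/-- the real character `χ₈` (`+1` at `1,7`, `-1` at `3,5` mod `8`) as a function on `ℕ` -/
noncomputable def ch (n : ℕ) : ℝ := ((ZMod.χ₈ (n : ZMod 8) : ℤ) : ℝ)

lemma ch_mul (a b : ℕ) : ch (a * b) = ch a * ch b := by
  unfold ch
  rw [Nat.cast_mul, map_mul, Int.cast_mul]

lemma lt_succ_div_mul (N d : ℕ) (hd : 1 ≤ d) : N < (N / d + 1) * d := by
  have h1 := Nat.div_add_mod N d
  have h2 := Nat.mod_lt N hd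
  rw [add_mul, one_mul, mul_comm (N / d) d]
  linarith

lemma ch_zero : ch 0 = 0 := by
  simp [ch, ZMod.χ₈]

lemma ch_eq (n : ℕ) : ch n = if n % 2 = 0 then 0 else if n % 8 = 1 ∨ n % 8 = 7 then 1 else -1 := by
  unfold ch
  rw [ZMod.χ₈_nat_eq_if_mod_eight]
  split_ifs <;> simp

lemma ch_abs (n : ℕ) : |ch n| ≤ 1 := by
  rw [ch_eq]
  split_ifs <;> simp

/-- partial sums of the character -/
noncomputable def S (N : ℕ) : ℝ := ∑ n ∈ Ioc 0 N, ch n

lemma S_succ (N : ℕ) : S (N + 1) = S N + ch (N + 1) := by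
  unfold S
  rw [Finset.sum_Ioc_succ_top (Nat.zero_le N)]

lemma S_eq (N : ℕ) : S N = if N % 8 = 1 ∨ N % 8 = 2 then 1 else
    if N % 8 = 5 ∨ N % 8 = 6 then -1 else 0 := by
  induction N with
  | zero => simp [S]
  | succ N ih =>
    rw [S_succ, ih, ch_eq]
    have h8 : N % 8 < 8 := Nat.mod_lt _ (by norm_num)
    have h2 : (N + 1) % 2 = ((N % 8) + 1) % 2 := by omega
    have h3 : (N + 1) % 8 = ((N % 8) + 1) % 8 := by omega
    rw [h2, h3]
    generalize N % 8 = r at *
    interval_cases r <;> norm_num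

lemma S_abs (N : ℕ) : |S N| ≤ 1 := by
  rw [S_eq]
  split_ifs <;> simp

lemma abel (g : ℕ → ℝ) (a : ℕ) (b : ℕ) (hab : a + 1 ≤ b)
    (hg : ∀ n, a + 1 ≤ n → g (n + 1) ≤ g n) :
    |∑ n ∈ Ioc a b, ch n * g n - (S b - S a) * g b| ≤ 2 * (g (a + 1) - g b) := by
  induction b, hab using Nat.le_induction with
  | base =>
    rw [Finset.sum_Ioc_succ_top (le_refl a), S_succ]
    simp
  | succ b hb ih =>
    rw [Finset.sum_Ioc_succ_top (by omega), S_succ]
    have h1 : ∑ n ∈ Ioc a b, ch n * g n + ch (b + 1) * g (b + 1)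
        - (S b + ch (b + 1) - S a) * g (b + 1)
        = (∑ n ∈ Ioc a b, ch n * g n - (S b - S a) * g b) + (S b - S a) * (g b - g (b + 1)) := by
      ring
    rw [h1]
    have h2 : |(S b - S a) * (g b - g (b + 1))| ≤ 2 * (g b - g (b + 1)) := by
      rw [abs_mul, abs_of_nonneg (sub_nonneg.2 (hg b hb))]
      refine mul_le_mul_of_nonneg_right ?_ (sub_nonneg.2 (hg b hb))
      have := S_abs a
      have := S_abs b
      calc |S b - S a| ≤ |S b| + |S a| := abs_sub _ _
        _ ≤ 2 := by linarith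
    calc _ ≤ _ := abs_add_le _ _
      _ ≤ 2 * (g (a + 1) - g b) + 2 * (g b - g (b + 1)) := add_le_add ih h2
      _ = _ := by ring

/-- sums of the character against a nonnegative decreasing function -/
lemma abel' (g : ℕ → ℝ) (a : ℕ) (b : ℕ) (hab : a ≤ b)
    (hg : ∀ n, a + 1 ≤ n → g (n + 1) ≤ g n) (h0 : ∀ n, a + 1 ≤ n → 0 ≤ g n) :
    |∑ n ∈ Ioc a b, ch n * g n| ≤ 2 * g (a + 1) := by
  rcases Nat.eq_or_lt_of_le hab with h | h
  · subst h
    simp [h0 (a + 1) le_rfl]
  · have h1 := abel g a b h hg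
    have h2 : |(S b - S a) * g b| ≤ 2 * g b := by
      rw [abs_mul, abs_of_nonneg (h0 b h)]
      refine mul_le_mul_of_nonneg_right ?_ (h0 b h)
      have := S_abs a
      have := S_abs b
      calc |S b - S a| ≤ |S b| + |S a| := abs_sub _ _
        _ ≤ 2 := by linarith
    calc |∑ n ∈ Ioc a b, ch n * g n| = |(∑ n ∈ Ioc a b, ch n * g n - (S b - S a) * g b)
          + (S b - S a) * g b| := by congr 1; ring
      _ ≤ _ := abs_add_le _ _
      _ ≤ _ := by linarith

/-- partial sums of `L(1,χ)` -/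
noncomputable def LL (M : ℕ) : ℝ := ∑ m ∈ Ioc 0 M, ch m * (1 / m)

lemma LL_sub (M N : ℕ) (h : M ≤ N) : |LL N - LL M| ≤ 2 / (M + 1) := by
  have h1 : LL N - LL M = ∑ m ∈ Ioc M N, ch m * (1 / m) := by
    unfold LL
    rw [← Finset.sum_Ioc_consecutive _ (Nat.zero_le M) h]
    ring
  rw [h1]
  have := abel' (fun n => 1 / (n : ℝ)) M N h (fun n hn => by
    have : (0:ℝ) < n := by exact_mod_cast (by omega : 0 < n)
    apply one_div_le_one_div_of_le this
    push_cast; linarith) (fun n _ => by positivity)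
  simpa [div_eq_mul_inv] using this

lemma LL_pos (N : ℕ) (h : 3 ≤ N) : 1 / 6 ≤ LL N := by
  have h1 := LL_sub 3 N h
  have h2 : LL 3 = 2 / 3 := by
    unfold LL
    rw [show Ioc 0 3 = {1, 2, 3} from rfl]
    rw [Finset.sum_insert (by decide), Finset.sum_insert (by decide), Finset.sum_singleton]
    simp only [ch_eq]
    norm_num
  rw [h2] at h1
  have h3 := (abs_le.1 h1).1
  norm_num at h3
  linarith

noncomputable def TT (N : ℕ) : ℝ := ∑ n ∈ Ioc 0 N, ch n * (Real.log n / n)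

lemma TT_bound (N : ℕ) (h : 2 ≤ N) : |TT N| ≤ 2 := by
  unfold TT
  rw [← Finset.sum_Ioc_consecutive _ (Nat.zero_le 2) h]
  have h2 : ∑ n ∈ Ioc 0 2, ch n * (Real.log n / n) = 0 := by
    rw [show Ioc 0 2 = {1, 2} from rfl]
    rw [Finset.sum_insert (by decide), Finset.sum_singleton]
    simp only [ch_eq]
    norm_num
  rw [h2, zero_add]
  have h3 := abel' (fun n => Real.log n / (n : ℝ)) 2 N h (fun n hn => by
    have h3n : (3:ℝ) ≤ n := by exact_mod_cast hn
    have he : Real.exp 1 ≤ 3 := by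
      have := Real.exp_one_lt_d9
      linarith
    apply Real.log_div_self_antitoneOn
    · show Real.exp 1 ≤ (n : ℝ)
      linarith
    · show Real.exp 1 ≤ ((n + 1 : ℕ) : ℝ)
      push_cast; linarith
    · push_cast; linarith) (fun n hn => by
      have h3n : (3:ℝ) ≤ n := by exact_mod_cast hn
      have : 0 ≤ Real.log n := Real.log_nonneg (by linarith)
      positivity)
  refine h3.trans ?_
  have h4 : Real.log (3:ℝ) ≤ 3 - 1 := Real.log_le_sub_one_of_pos (by norm_num)
  have : ((2 + 1 : ℕ) : ℝ) = 3 := by norm_num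
  simp only [this]
  have h5 : Real.log 3 / 3 ≤ 1 := by
    rw [div_le_one (by norm_num)]
    linarith
  linarith

open ArithmeticFunction in
/-- `χ Λ / n` -/
noncomputable def fA : ArithmeticFunction ℝ := ⟨fun n => ch n * (vonMangoldt n / n), by simp⟩

/-- `χ / n` -/
noncomputable def gA : ArithmeticFunction ℝ := ⟨fun n => ch n * (1 / n), by simp⟩

open ArithmeticFunction in
lemma fA_mul_gA (n : ℕ) (hn : n ≠ 0) : (fA * gA) n = ch n * (Real.log n / n) := by
  rw [ArithmeticFunction.mul_apply, ← vonMangoldt_sum, Nat.sum_divisorsAntidiagonal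
    (f := fun a b => fA a * gA b), Finset.sum_div, Finset.mul_sum]
  refine Finset.sum_congr rfl fun d hd => ?_
  have hd' := Nat.dvd_of_mem_divisors hd
  obtain ⟨m, rfl⟩ := hd'
  have hd0 : d ≠ 0 := by rintro rfl; simp at hn
  have hm0 : m ≠ 0 := by rintro rfl; simp at hn
  rw [Nat.mul_div_cancel_left m (Nat.pos_of_ne_zero hd0)]
  simp only [fA, gA, ArithmeticFunction.coe_mk, ch_mul]
  have h1 : (d:ℝ) ≠ 0 := by exact_mod_cast hd0
  have h2 : (m:ℝ) ≠ 0 := by exact_mod_cast hm0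
  push_cast
  field_simp

open ArithmeticFunction in
lemma TT_eq (N : ℕ) : TT N = ∑ d ∈ Ioc 0 N, ch d * (vonMangoldt d / d) * LL (N / d) := by
  have h := ArithmeticFunction.sum_Ioc_mul_eq_sum_sum fA gA N
  have h1 : TT N = ∑ n ∈ Ioc 0 N, (fA * gA) n := by
    unfold TT
    refine Finset.sum_congr rfl fun n hn => ?_
    rw [fA_mul_gA n (by have := Finset.mem_Ioc.1 hn; omega)]
  rw [h1, h]
  rfl

open ArithmeticFunction in
/-- Mertens' theorem for the character -/
lemma chi_bound (N : ℕ) (hN : 3 ≤ N) :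
    |∑ d ∈ Ioc 0 N, ch d * (vonMangoldt d / d)| ≤ 6 * (2 + 2 * (Real.log 4 + 4)) := by
  have hN0 : (0:ℝ) < N := by exact_mod_cast (by omega : 0 < N)
  have h1 : |LL N * ∑ d ∈ Ioc 0 N, ch d * (vonMangoldt d / d) - TT N| ≤
      2 * (Real.log 4 + 4) := by
    rw [TT_eq, Finset.mul_sum, ← Finset.sum_sub_distrib]
    calc _ ≤ ∑ d ∈ Ioc 0 N, |LL N * (ch d * (vonMangoldt d / d))
            - ch d * (vonMangoldt d / d) * LL (N / d)| := Finset.abs_sum_le_sum_abs _ _
      _ ≤ ∑ d ∈ Ioc 0 N, vonMangoldt d * (2 / N) := by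
        refine Finset.sum_le_sum fun d hd => ?_
        have hd1 : 1 ≤ d := (Finset.mem_Ioc.1 hd).1
        have hd0 : (0:ℝ) < d := by exact_mod_cast hd1
        have e1 : LL N * (ch d * (vonMangoldt d / d)) - ch d * (vonMangoldt d / d) * LL (N / d)
            = ch d * ((vonMangoldt d / d) * (LL N - LL (N / d))) := by ring
        rw [e1, abs_mul, abs_mul]
        have hL : (0:ℝ) ≤ vonMangoldt d := vonMangoldt_nonneg
        rw [abs_of_nonneg (div_nonneg hL hd0.le)]
        have h2 := LL_sub (N / d) N (Nat.div_le_self N d)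
        have h3 : 2 / (((N / d : ℕ) : ℝ) + 1) ≤ 2 * d / N := by
          rw [div_le_div_iff₀ (by positivity) hN0]
          have h4 : N < (N / d + 1) * d := lt_succ_div_mul N d hd1
          have h5 : (N : ℝ) ≤ (((N / d : ℕ) : ℝ) + 1) * d := by exact_mod_cast h4.le
          nlinarith
        calc |ch d| * (vonMangoldt d / d * |LL N - LL (N / d)|)
            ≤ 1 * (vonMangoldt d / d * (2 * d / N)) := by
              refine mul_le_mul (ch_abs d) ?_ (by positivity) zero_le_one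
              exact mul_le_mul_of_nonneg_left (h2.trans h3) (div_nonneg hL hd0.le)
          _ = vonMangoldt d * (2 / N) := by
              field_simp
      _ = Chebyshev.psi N * (2 / N) := by
        rw [← Finset.sum_mul]
        simp [Chebyshev.psi]
      _ ≤ ((Real.log 4 + 4) * N) * (2 / N) := by
        refine mul_le_mul_of_nonneg_right (Chebyshev.psi_le_const_mul_self hN0.le) (by positivity)
      _ = _ := by field_simp
  have h2 := TT_bound N (by omega)
  have h3 := LL_pos N hN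
  have h4 : |LL N * ∑ d ∈ Ioc 0 N, ch d * (vonMangoldt d / d)| ≤ 2 + 2 * (Real.log 4 + 4) := by
    calc |LL N * ∑ d ∈ Ioc 0 N, ch d * (vonMangoldt d / d)|
        = |TT N + (LL N * ∑ d ∈ Ioc 0 N, ch d * (vonMangoldt d / d) - TT N)| := by
          congr 1; ring
      _ ≤ _ := abs_add_le _ _
      _ ≤ _ := add_le_add h2 h1
  rw [abs_mul, abs_of_nonneg (by linarith : 0 ≤ LL N)] at h4
  have h5 : 1 / 6 * |∑ d ∈ Ioc 0 N, ch d * (vonMangoldt d / d)| ≤
      LL N * |∑ d ∈ Ioc 0 N, ch d * (vonMangoldt d / d)| :=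
    mul_le_mul_of_nonneg_right h3 (abs_nonneg _)
  linarith

open ArithmeticFunction in
lemma sum_log_eq (N : ℕ) : ∑ n ∈ Ioc 0 N, Real.log n =
    ∑ d ∈ Ioc 0 N, vonMangoldt d * ((N / d : ℕ) : ℝ) := by
  have h := ArithmeticFunction.sum_Ioc_mul_zeta_eq_sum (vonMangoldt) N
  rw [← h]
  refine Finset.sum_congr rfl fun n hn => ?_
  rw [vonMangoldt_mul_zeta]
  simp

lemma sum_log_le (N : ℕ) : ∑ n ∈ Ioc 0 N, Real.log n ≤ N * Real.log N := by
  calc _ ≤ ∑ n ∈ Ioc 0 N, Real.log N := by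
        refine Finset.sum_le_sum fun n hn => ?_
        have := Finset.mem_Ioc.1 hn
        exact Real.log_le_log (by exact_mod_cast this.1) (by exact_mod_cast this.2)
    _ = _ := by simp

lemma sum_log_ge (N : ℕ) : N * Real.log N - N ≤ ∑ n ∈ Ioc 0 N, Real.log n := by
  induction N with
  | zero => simp
  | succ N ih =>
    rw [Finset.sum_Ioc_succ_top (Nat.zero_le N)]
    rcases Nat.eq_zero_or_pos N with h | h
    · subst h; simp
    · have hN : (0:ℝ) < N := by exact_mod_cast h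
      have h1 : Real.log ((N:ℝ) + 1) ≤ Real.log N + 1 / N := by
        have h2 : Real.log ((N:ℝ) + 1) = Real.log N + Real.log (1 + 1 / N) := by
          rw [← Real.log_mul (by positivity) (by positivity)]
          congr 1
          field_simp
        have h3 := Real.log_le_sub_one_of_pos (show (0:ℝ) < 1 + 1 / N by positivity)
        linarith
      have h4 : (N:ℝ) * Real.log ((N:ℝ) + 1) ≤ N * Real.log N + 1 := by
        calc (N:ℝ) * Real.log ((N:ℝ) + 1) ≤ N * (Real.log N + 1 / N) :=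
              mul_le_mul_of_nonneg_left h1 hN.le
          _ = N * Real.log N + 1 := by field_simp
      push_cast
      linarith

open ArithmeticFunction in
/-- Mertens' first theorem, lower bound -/
lemma mertens_ge (N : ℕ) (hN : 1 ≤ N) :
    Real.log N - 1 ≤ ∑ d ∈ Ioc 0 N, vonMangoldt d / d := by
  have hN0 : (0:ℝ) < N := by exact_mod_cast hN
  have h1 := sum_log_ge N
  rw [sum_log_eq] at h1
  have h2 : ∑ d ∈ Ioc 0 N, vonMangoldt d * ((N / d : ℕ) : ℝ) ≤
      N * ∑ d ∈ Ioc 0 N, vonMangoldt d / d := by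
    rw [Finset.mul_sum]
    refine Finset.sum_le_sum fun d hd => ?_
    have hL : (0:ℝ) ≤ vonMangoldt d := vonMangoldt_nonneg
    have : ((N / d : ℕ) : ℝ) ≤ N / d := Nat.cast_div_le
    calc vonMangoldt d * ((N / d : ℕ) : ℝ) ≤ vonMangoldt d * (N / d) :=
          mul_le_mul_of_nonneg_left this hL
      _ = _ := by ring
  have h3 : N * (Real.log N - 1) ≤ N * ∑ d ∈ Ioc 0 N, vonMangoldt d / d := by linarith
  exact le_of_mul_le_mul_left h3 hN0

open ArithmeticFunction in
/-- Mertens' first theorem, upper bound -/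
lemma mertens_le (N : ℕ) (hN : 1 ≤ N) :
    ∑ d ∈ Ioc 0 N, vonMangoldt d / d ≤ Real.log N + (Real.log 4 + 4) := by
  have hN0 : (0:ℝ) < N := by exact_mod_cast hN
  have h1 := sum_log_le N
  rw [sum_log_eq] at h1
  have h2 : N * ∑ d ∈ Ioc 0 N, vonMangoldt d / d ≤
      ∑ d ∈ Ioc 0 N, vonMangoldt d * ((N / d : ℕ) : ℝ) + ∑ d ∈ Ioc 0 N, vonMangoldt d := by
    rw [Finset.mul_sum, ← Finset.sum_add_distrib]
    refine Finset.sum_le_sum fun d hd => ?_
    have hL : (0:ℝ) ≤ vonMangoldt d := vonMangoldt_nonneg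
    have hd1 : 1 ≤ d := (Finset.mem_Ioc.1 hd).1
    have hd0 : (0:ℝ) < d := by exact_mod_cast hd1
    have h4 : N < (N / d + 1) * d := lt_succ_div_mul N d hd1
    have h5 : (N : ℝ) ≤ (((N / d : ℕ) : ℝ) + 1) * d := by exact_mod_cast h4.le
    have : (N : ℝ) / d ≤ ((N / d : ℕ) : ℝ) + 1 := by
      rw [div_le_iff₀ hd0]; exact h5
    calc (N:ℝ) * (vonMangoldt d / d) = vonMangoldt d * (N / d) := by ring
      _ ≤ vonMangoldt d * (((N / d : ℕ) : ℝ) + 1) := mul_le_mul_of_nonneg_left this hL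
      _ = _ := by ring
  have h6 : ∑ d ∈ Ioc 0 N, vonMangoldt d ≤ (Real.log 4 + 4) * N := by
    have := Chebyshev.psi_le_const_mul_self hN0.le
    simpa [Chebyshev.psi] using this
  have h3 : N * ∑ d ∈ Ioc 0 N, vonMangoldt d / d ≤ N * (Real.log N + (Real.log 4 + 4)) := by
    linarith
  exact le_of_mul_le_mul_left h3 hN0

/-- inert primes up to `N` -/
def inert (N : ℕ) : Finset ℕ :=
  (range (N + 1)).filter (fun p => p.Prime ∧ (p % 8 = 3 ∨ p % 8 = 5))

open ArithmeticFunction in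
lemma weighted_le (N : ℕ) (hN : 1 ≤ N) :
    ∑ d ∈ Ioc 0 N, vonMangoldt d * ((1 - ch d) / 2) ≤
      2 * √(N:ℝ) * Real.log N + 1 + #(inert N) * Real.log N := by
  have hN1 : (1:ℝ) ≤ N := by exact_mod_cast hN
  have h0 : ∀ d : ℕ, (0:ℝ) ≤ (1 - ch d) / 2 ∧ (1 - ch d) / 2 ≤ 1 := by
    intro d
    have := abs_le.1 (ch_abs d)
    constructor <;> linarith [this.1, this.2]
  have h1 : ∑ d ∈ Ioc 0 N with ¬ d.Prime, vonMangoldt d * ((1 - ch d) / 2) ≤
      2 * √(N:ℝ) * Real.log N := by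
    have h2 := Chebyshev.psi_sub_theta_le hN1
    rw [Chebyshev.psi_sub_theta_eq_sum_not_prime, Nat.floor_natCast] at h2
    refine le_trans (Finset.sum_le_sum fun d _ => ?_) h2
    have hL : (0:ℝ) ≤ vonMangoldt d := vonMangoldt_nonneg
    calc vonMangoldt d * ((1 - ch d) / 2) ≤ vonMangoldt d * 1 :=
          mul_le_mul_of_nonneg_left (h0 d).2 hL
      _ = _ := mul_one _
  have h2 : ∑ d ∈ Ioc 0 N with d.Prime, vonMangoldt d * ((1 - ch d) / 2) ≤
      1 + #(inert N) * Real.log N := by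
    have h3 : ∀ d ∈ (Ioc 0 N).filter Nat.Prime, vonMangoldt d * ((1 - ch d) / 2) ≤
        (if d = 2 then 1 else 0) + (if d % 8 = 3 ∨ d % 8 = 5 then Real.log N else 0) := by
      intro d hd
      obtain ⟨hd1, hd2⟩ := Finset.mem_filter.1 hd
      have hd3 := Finset.mem_Ioc.1 hd1
      rw [vonMangoldt_apply_prime hd2]
      have hlog : Real.log d ≤ Real.log N :=
        Real.log_le_log (by exact_mod_cast hd3.1) (by exact_mod_cast hd3.2)
      have hlog0 : 0 ≤ Real.log d := Real.log_natCast_nonneg d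
      by_cases hd2' : d = 2
      · subst hd2'
        rw [ch_eq]
        have : Real.log (2:ℝ) ≤ 2 - 1 := Real.log_le_sub_one_of_pos (by norm_num)
        norm_num
        linarith
      · have hodd : d % 2 = 1 := by
          rcases hd2.eq_two_or_odd with h | h
          · exact absurd h hd2'
          · exact h
        rw [if_neg hd2', zero_add, ch_eq, if_neg (by omega)]
        by_cases h8 : d % 8 = 1 ∨ d % 8 = 7
        · rw [if_pos h8, if_neg (by omega)]
          simp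
        · rw [if_neg h8, if_pos (by omega)]
          norm_num
          exact hlog
    refine (Finset.sum_le_sum h3).trans ?_
    rw [Finset.sum_add_distrib]
    refine add_le_add ?_ ?_
    · rw [Finset.sum_ite_eq']
      split_ifs <;> norm_num
    · rw [← Finset.sum_filter, Finset.sum_const, nsmul_eq_mul]
      refine mul_le_mul_of_nonneg_right ?_ (Real.log_nonneg hN1)
      norm_cast
      refine Finset.card_le_card fun d hd => ?_
      simp only [Finset.mem_filter, Finset.mem_Ioc] at hd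
      simp only [inert, Finset.mem_filter, Finset.mem_range]
      exact ⟨by omega, hd.1.2, hd.2⟩
  rw [← Finset.sum_filter_add_sum_filter_not (Ioc 0 N) Nat.Prime]
  linarith

open ArithmeticFunction in
lemma weighted_ge (K : ℕ) (hK : 1 ≤ K)
    (hlogK : 2 * (1 + 6 * (2 + 2 * (Real.log 4 + 4))) + 1 + (Real.log 4 + 4) ≤ Real.log K)
    (N : ℕ) (hN : 3 * K ≤ N) :
    (N:ℝ) / K ≤ ∑ d ∈ Ioc 0 N, vonMangoldt d * ((1 - ch d) / 2) := by
  have hK0 : (0:ℝ) < K := by exact_mod_cast hK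
  have hN3 : 3 ≤ N := by omega
  have hN0 : (0:ℝ) < N := by exact_mod_cast (by omega : 0 < N)
  set M := N / K with hM
  have hM3 : 3 ≤ M := (Nat.le_div_iff_mul_le hK).2 hN
  have hMN : M ≤ N := Nat.div_le_self N K
  have hM0 : (0:ℝ) < M := by exact_mod_cast (by omega : 0 < M)
  have hMK : (M:ℝ) ≤ N / K := Nat.cast_div_le
  have hlogM : Real.log M ≤ Real.log N - Real.log K := by
    rw [← Real.log_div hN0.ne' hK0.ne']
    exact Real.log_le_log hM0 hMK
  have h1 := mertens_ge N (by omega)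
  have h2 := mertens_le M (by omega)
  have h3 := (abs_le.1 (chi_bound N hN3)).2
  have h4 := (abs_le.1 (chi_bound M hM3)).1
  rw [← Finset.sum_Ioc_consecutive _ (Nat.zero_le M) hMN] at h1 h3
  have h5 : 1 ≤ ∑ d ∈ Ioc M N, (vonMangoldt d * ((1 - ch d) / 2)) / d := by
    have h6 : ∑ d ∈ Ioc M N, (vonMangoldt d * ((1 - ch d) / 2)) / d =
        1 / 2 * ∑ d ∈ Ioc M N, vonMangoldt d / d
          - 1 / 2 * ∑ d ∈ Ioc M N, ch d * (vonMangoldt d / d) := by
      rw [Finset.mul_sum, Finset.mul_sum, ← Finset.sum_sub_distrib]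
      refine Finset.sum_congr rfl fun d _ => by ring
    rw [h6]
    linarith
  have h0 : ∀ d : ℕ, (0:ℝ) ≤ vonMangoldt d * ((1 - ch d) / 2) := by
    intro d
    have := abs_le.1 (ch_abs d)
    have hL : (0:ℝ) ≤ vonMangoldt d := vonMangoldt_nonneg
    exact mul_nonneg hL (by linarith [this.1, this.2])
  have h7 : ∑ d ∈ Ioc M N, (vonMangoldt d * ((1 - ch d) / 2)) / d ≤
      (K / N) * ∑ d ∈ Ioc M N, vonMangoldt d * ((1 - ch d) / 2) := by
    rw [Finset.mul_sum]
    refine Finset.sum_le_sum fun d hd => ?_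
    have hd := Finset.mem_Ioc.1 hd
    have hd0 : (0:ℝ) < d := by exact_mod_cast (by omega : 0 < d)
    have h8 : N < (N / K + 1) * K := lt_succ_div_mul N K hK
    have h9 : N ≤ d * K := h8.le.trans (Nat.mul_le_mul_right K (by omega))
    have h10 : (N:ℝ) ≤ d * K := by exact_mod_cast h9
    have h11 : 1 / (d:ℝ) ≤ K / N := by
      rw [div_le_div_iff₀ hd0 hN0]
      linarith
    calc vonMangoldt d * ((1 - ch d) / 2) / d = (1 / (d:ℝ)) * (vonMangoldt d * ((1 - ch d) / 2)) := by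
          ring
      _ ≤ _ := mul_le_mul_of_nonneg_right h11 (h0 d)
  have h12 : ∑ d ∈ Ioc M N, vonMangoldt d * ((1 - ch d) / 2) ≤
      ∑ d ∈ Ioc 0 N, vonMangoldt d * ((1 - ch d) / 2) := by
    refine Finset.sum_le_sum_of_subset_of_nonneg (fun d hd => ?_) (fun d _ _ => h0 d)
    simp only [Finset.mem_Ioc] at hd ⊢
    omega
  refine le_trans ?_ h12
  have h13 : 1 ≤ (K / N) * ∑ d ∈ Ioc M N, vonMangoldt d * ((1 - ch d) / 2) := h5.trans h7
  rw [div_mul_eq_mul_div, le_div_iff₀ hN0] at h13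
  rw [div_le_iff₀ hK0]
  linarith

end Inert

open Inert in
theorem inert_count : ∃ c : ℝ, 0 < c ∧ ∀ᶠ x : ℕ in Filter.atTop,
    c * x / Real.log x ≤
      #((range (x+1)).filter (fun p => p.Prime ∧ (p % 8 = 3 ∨ p % 8 = 5))) := by
  set B := 2 * (1 + 6 * (2 + 2 * (Real.log 4 + 4))) + 1 + (Real.log 4 + 4) with hB
  set K := ⌈Real.exp B⌉₊ with hK
  have hK1 : 1 ≤ K := Nat.one_le_ceil_iff.2 (Real.exp_pos _)
  have hK0 : (0:ℝ) < K := by exact_mod_cast hK1
  have hlogK : B ≤ Real.log K := by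
    rw [Real.le_log_iff_exp_le hK0]
    exact Nat.le_ceil _
  refine ⟨1 / (2 * K), by positivity, ?_⟩
  have hev1 : ∀ᶠ x : ℕ in Filter.atTop, Real.log x ≤ 1 / (8 * K) * √(x:ℝ) := by
    have h1 := (isLittleO_log_rpow_atTop (show (0:ℝ) < 1 / 2 by norm_num)).bound
      (show (0:ℝ) < 1 / (8 * K) by positivity)
    have h2 := tendsto_natCast_atTop_atTop (R := ℝ) |>.eventually h1
    filter_upwards [h2] with x hx
    rw [← Real.sqrt_eq_rpow, Real.norm_of_nonneg (Real.log_natCast_nonneg x),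
      Real.norm_of_nonneg (Real.sqrt_nonneg _)] at hx
    exact hx
  filter_upwards [hev1, Filter.eventually_ge_atTop (4 * K), Filter.eventually_ge_atTop 2]
    with x hx hxK hx2
  have hx0 : (0:ℝ) < x := by exact_mod_cast (by omega : 0 < x)
  have hlogx : 0 < Real.log x := Real.log_pos (by exact_mod_cast hx2)
  have h1 := weighted_le x (by omega)
  have h2 := weighted_ge K hK1 hlogK x (by omega)
  have h3 : 2 * √(x:ℝ) * Real.log x ≤ x / (4 * K) := by
    calc 2 * √(x:ℝ) * Real.log x ≤ 2 * √(x:ℝ) * (1 / (8 * K) * √(x:ℝ)) :=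
          mul_le_mul_of_nonneg_left hx (by positivity)
      _ = (√(x:ℝ) * √(x:ℝ)) / (4 * K) := by ring
      _ = _ := by rw [Real.mul_self_sqrt hx0.le]
  have h4 : 1 ≤ (x:ℝ) / (4 * K) := by
    rw [one_le_div (by positivity)]
    exact_mod_cast hxK
  have h5 : (x:ℝ) / K = x / (4 * K) + x / (4 * K) + x / (2 * K) := by
    field_simp
    ring
  have h6 : (x:ℝ) / (2 * K) ≤ #(inert x) * Real.log x := by linarith
  rw [div_le_iff₀ hlogx]
  calc 1 / (2 * (K:ℝ)) * x = x / (2 * K) := by ring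
    _ ≤ _ := h6

end Pool.Agent.SqrtDC
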