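import Mathlib
import Pool.Agent.SqrtDC.Defs
import Pool.Agent.SqrtDC.Exact
import Pool.Agent.SqrtDC.Assembly
import Pool.Agent.SqrtDC.Inert

open Finset

namespace Pool.Agent.SqrtDC

/-- comparison of `E` with the set of digit changes -/
lemma card_E_le (L n : ℕ) (hL : 2^L ≤ n) :
    #(E (2^L)) ≤ ((Finset.Icc 1 n).filter (fun k : ℕ =>
      ⌊Real.sqrt 2 * 2^k⌋ % 2 ≠ ⌊Real.sqrt 2 * 2^(k+1)⌋ % 2)).card + 1 := by
  classical
  have hsub : E (2^L) ⊆ insert 0 ((Finset.Icc 1 n).filter (fun k : ℕ =>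
      ⌊Real.sqrt 2 * 2^k⌋ % 2 ≠ ⌊Real.sqrt 2 * 2^(k+1)⌋ % 2)) := by
    intro e he
    rw [E, Finset.mem_filter, Finset.mem_range] at he
    rcases Nat.eq_zero_or_pos e with h0 | h0
    · subst h0; exact Finset.mem_insert_self _ _
    · apply Finset.mem_insert_of_mem
      rw [Finset.mem_filter, Finset.mem_Icc]
      exact ⟨⟨h0, by omega⟩, (dl_ne_zero_iff e h0).1 he.2⟩
  exact (Finset.card_le_card hsub).trans (Finset.card_insert_le _ _)

/-- all the parameter choices, for a given large `L` -/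
lemma params (L t : ℕ) (c : ℝ) (hc : 0 < c) (h100 : 100 ≤ Real.log L)
    (hbig : 1000000 * (Real.log L)^2 ≤ L)
    (hin : ∀ P : ℕ, (L:ℝ) / (96 * Real.log L) ≤ P → c * P / Real.log P ≤
      #((range (P+1)).filter (fun p => p.Prime ∧ (p % 8 = 3 ∨ p % 8 = 5))))
    (ht : #(E (2^L)) ≤ t) (htL : t + 1 ≤ L^4) :
    c * (L:ℝ)^3 / (1327104000 * (Real.log L)^5) ≤ t := by
  classical
  have hL0 : L ≠ 0 := by
    rintro rfl; norm_num at h100
  have hLpos : (0:ℝ) < L := by exact_mod_cast Nat.pos_of_ne_zero hL0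
  obtain ⟨ℓ, hℓ⟩ : ∃ ℓ, ℓ = Real.log L := ⟨_, rfl⟩
  rw [← hℓ] at h100 hbig hin ⊢
  have hℓpos : 0 < ℓ := by linarith
  obtain ⟨τ, hτ⟩ : ∃ τ, τ = 4 * (Nat.log 2 L + 1) := ⟨_, rfl⟩
  have hτ4 : 4 ≤ τ := by omega
  have hτ4r : (4:ℝ) ≤ τ := by exact_mod_cast hτ4
  have hτpos : (0:ℝ) < τ := by linarith
  have hlog2 : (Nat.log 2 L : ℝ) * Real.log 2 ≤ ℓ := by
    rw [hℓ, ← Real.log_pow]
    apply Real.log_le_log (by positivity)
    exact_mod_cast Nat.pow_log_le_self 2 hL0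
  have hτ6 : (τ:ℝ) ≤ 6 * ℓ := by
    have h2 : (0.6931471803:ℝ) < Real.log 2 := Real.log_two_gt_d9
    have h3 : (Nat.log 2 L : ℝ) * 0.6931471803 ≤ ℓ := by
      refine le_trans ?_ hlog2
      exact mul_le_mul_of_nonneg_left h2.le (Nat.cast_nonneg _)
    rw [hτ]; push_cast
    nlinarith [h3]
  have hLτ2r : (20000:ℝ) * (τ:ℝ)^2 ≤ L := by
    have : (τ:ℝ)^2 ≤ (6*ℓ)^2 := by
      apply pow_le_pow_left₀ hτpos.le hτ6
    nlinarith [this, hbig]
  have hLτ2 : 20000 * τ^2 ≤ L := by exact_mod_cast hLτ2r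
  have h2τ : L^4 < 2^τ := by
    have h1 : L < 2^(Nat.log 2 L + 1) := Nat.lt_pow_succ_log_self (by norm_num) L
    calc L^4 < (2^(Nat.log 2 L + 1))^4 := Nat.pow_lt_pow_left h1 (by norm_num)
      _ = 2^τ := by rw [← pow_mul, hτ]; congr 1; ring
  have hq : 4 * τ ≤ τ^2 := by nlinarith
  have hLL : L + 4 ≤ L^4 := by
    have hL5 : 5 ≤ L := by nlinarith
    calc L + 4 ≤ L * L := by nlinarith
      _ ≤ L^4 := by
        calc L * L = L^2 := by ring
          _ ≤ L^4 := Nat.pow_le_pow_right (by omega) (by norm_num)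
  obtain ⟨q, hqq⟩ : ∃ q, q = τ^2 := ⟨_, rfl⟩
  rw [← hqq] at hLτ2 hq
  -- parameters
  obtain ⟨r, hr⟩ : ∃ r, r = L / 8 := ⟨_, rfl⟩
  obtain ⟨s₀, hs₀⟩ : ∃ s, s = L / 2 := ⟨_, rfl⟩
  obtain ⟨s₁, hs₁⟩ : ∃ s, s = 3 * L / 4 := ⟨_, rfl⟩
  obtain ⟨P, hP⟩ : ∃ P, P = (r - τ - 1) / τ := ⟨_, rfl⟩
  obtain ⟨I, hI⟩ : ∃ I, I = (s₀ - r - 2*τ - 3) / (5*τ) := ⟨_, rfl⟩
  obtain ⟨J, hJ⟩ : ∃ J, J = (s₁ - s₀ - 13) / (8*(2*τ+7)) := ⟨_, rfl⟩
  obtain ⟨κ, hκ⟩ : ∃ κ, κ = min (I/2) J := ⟨_, rfl⟩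
  have hτ0 : 0 < τ := by omega
  have hP1 : τ * P ≤ r - τ - 1 := by rw [hP]; exact Nat.mul_div_le _ _
  have hP2 : r - τ - 1 < τ * P + τ := by
    rw [hP]
    have := Nat.lt_mul_div_succ (r - τ - 1) hτ0
    rw [Nat.mul_add, Nat.mul_one] at this
    exact this
  have hI1 : 5*τ*I ≤ s₀ - r - 2*τ - 3 := by rw [hI]; exact Nat.mul_div_le _ _
  have hI2 : s₀ - r - 2*τ - 3 < 5*τ*I + 5*τ := by
    rw [hI]
    have := Nat.lt_mul_div_succ (s₀ - r - 2*τ - 3) (show 0 < 5*τ by omega)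
    rw [Nat.mul_add, Nat.mul_one] at this
    exact this
  have hJ1 : 8*(2*τ+7)*J ≤ s₁ - s₀ - 13 := by rw [hJ]; exact Nat.mul_div_le _ _
  have hJ2 : s₁ - s₀ - 13 < 8*(2*τ+7)*J + 8*(2*τ+7) := by
    rw [hJ]
    have := Nat.lt_mul_div_succ (s₁ - s₀ - 13) (show 0 < 8*(2*τ+7) by omega)
    rw [Nat.mul_add, Nat.mul_one] at this
    exact this
  have hκI : 2*κ ≤ I := by
    have : κ ≤ I/2 := by rw [hκ]; exact min_le_left _ _
    omega
  have hκJ : κ ≤ J := by rw [hκ]; exact min_le_right _ _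
  have hκs : 12 + 8*(2*τ+7)*κ < s₁ - s₀ := by
    have : 8*(2*τ+7)*κ ≤ 8*(2*τ+7)*J := Nat.mul_le_mul_left _ hκJ
    omega
  -- real lower bounds
  have hrr : (L:ℝ)/8 - 1 ≤ r := by
    have : L ≤ 8 * r + 8 := by omega
    have : (L:ℝ) ≤ 8 * r + 8 := by exact_mod_cast this
    linarith
  have hPr : (L:ℝ) / (16*τ) ≤ P := by
    rw [div_le_iff₀ (by positivity)]
    have h1 : r ≤ τ*P + 2*τ + 1 := by omega
    have h2 : (r:ℝ) ≤ τ*P + 2*τ + 1 := by exact_mod_cast h1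
    nlinarith [hLτ2r, hτ4r]
  have hP1' : 1 ≤ P := by
    rcases Nat.eq_zero_or_pos P with h | h
    · exfalso
      rw [h] at hPr
      have : (0:ℝ) < (L:ℝ) / (16*τ) := by positivity
      simp at hPr
      linarith
    · exact h
  have hPL : P ≤ L := by
    have : P ≤ τ * P := Nat.le_mul_of_pos_left _ hτ0
    omega
  have hs01 : (L:ℝ)/5 ≤ ((s₁ - s₀ : ℕ):ℝ) := by
    have : L ≤ 5 * (s₁ - s₀) := by omega
    have : (L:ℝ) ≤ 5 * ((s₁ - s₀ : ℕ):ℝ) := by exact_mod_cast this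
    linarith
  have hIr : (L:ℝ) / (50*τ) ≤ ((I/2:ℕ):ℝ) := by
    rw [div_le_iff₀ (by positivity)]
    have h1 : L ≤ 20*τ*I + 20*τ := by
      have e1 : 20*τ*I = 4*(5*τ*I) := by ring
      rw [e1]
      omega
    have h2 : I ≤ 2*(I/2) + 1 := by omega
    have h3 : L ≤ 20*τ*(2*(I/2)+1) + 20*τ := by
      have : 20*τ*I ≤ 20*τ*(2*(I/2)+1) := Nat.mul_le_mul_left _ h2
      omega
    have h4 : (L:ℝ) ≤ 20*τ*(2*((I/2:ℕ):ℝ)+1) + 20*τ := by exact_mod_cast h3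
    nlinarith [hLτ2r, hτ4r, h4]
  have hJr : (L:ℝ) / (200*τ) ≤ (J:ℝ) := by
    rw [div_le_iff₀ (by positivity)]
    have h1 : L ≤ 5*(8*(2*τ+7)*J + 8*(2*τ+7)) := by omega
    have h2 : 8*(2*τ+7) ≤ 32*τ := by omega
    have h3 : L ≤ 5*(32*τ*J + 32*τ) := by
      have : 8*(2*τ+7)*J ≤ 32*τ*J := Nat.mul_le_mul_right _ h2
      omega
    have h4 : (L:ℝ) ≤ 5*(32*τ*J + 32*τ) := by exact_mod_cast h3
    nlinarith [hLτ2r, hτ4r, h4]
  have hκr : (L:ℝ) / (200*τ) ≤ (κ:ℝ) := by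
    rw [hκ]
    rcases min_choice (I/2) J with h | h
    · rw [h]
      refine le_trans ?_ hIr
      apply div_le_div_of_nonneg_left hLpos.le (by positivity)
      nlinarith
    · rw [h]; exact hJr
  -- main inequality
  have hmain := main_ineq L τ r P I κ s₀ s₁ t ht (by omega) (by omega) (by omega) (by
      have e1 : 5*τ*I = 5*τ*I := rfl
      omega) (by rw [← hqq]; omega) hκI hκs (by omega) hP1' (by omega)
  have hinP := hin P (by
    refine le_trans ?_ hPr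
    apply div_le_div_of_nonneg_left hLpos.le (by positivity)
    nlinarith)
  -- log P ≤ ℓ
  have hP2r : (2:ℝ) ≤ P := by
    refine le_trans ?_ hPr
    rw [le_div_iff₀ (by positivity)]
    nlinarith [hLτ2r, hτ4r]
  have hlogP : 0 < Real.log P := Real.log_pos (by linarith)
  have hlogP2 : Real.log P ≤ ℓ := by
    rw [hℓ]
    apply Real.log_le_log (by linarith)
    exact_mod_cast hPL
  have hcount : c * L / (16*τ*ℓ) ≤
      #((range (P+1)).filter (fun p => p.Prime ∧ (p % 8 = 3 ∨ p % 8 = 5))) := by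
    refine le_trans ?_ hinP
    calc c * L / (16*τ*ℓ) = c * (L / (16*τ)) / ℓ := by field_simp
      _ ≤ c * P / ℓ := by
          apply div_le_div_of_nonneg_right _ hℓpos.le
          exact mul_le_mul_of_nonneg_left hPr hc.le
      _ ≤ c * P / Real.log P := by
          apply div_le_div_of_nonneg_left _ hlogP hlogP2
          have : (0:ℝ) ≤ P := Nat.cast_nonneg _
          positivity
  have hmainr : (#((range (P+1)).filter (fun p => p.Prime ∧ (p % 8 = 3 ∨ p % 8 = 5))) : ℝ) *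
      (((s₁ - s₀ : ℕ):ℝ) * κ) ≤ 16*τ*(τ+9)*t := by exact_mod_cast hmain
  have hLHS : c * L / (16*τ*ℓ) * ((L/5) * (L / (200*τ))) ≤ 16*τ*(τ+9)*t := by
    refine le_trans ?_ hmainr
    apply mul_le_mul hcount _ (by positivity) (by positivity)
    apply mul_le_mul hs01 hκr (by positivity) (by positivity)
  have ht0 : (0:ℝ) ≤ t := Nat.cast_nonneg _
  have hRHS : 16*(τ:ℝ)*(τ+9)*t ≤ 64*(τ:ℝ)^2*t := by
    apply mul_le_mul_of_nonneg_right _ ht0
    nlinarith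
  have h5 : c * (L:ℝ)^3 ≤ 1024000 * ((τ:ℝ)^4 * ℓ) * t := by
    have e : c * L / (16*τ*ℓ) * ((L/5) * (L / (200*τ))) = c * (L:ℝ)^3 / (16000 * (τ^2 * ℓ)) := by
      field_simp; ring
    have h6 := hLHS.trans hRHS
    rw [e, div_le_iff₀ (by positivity)] at h6
    calc c * (L:ℝ)^3 ≤ 64 * (τ:ℝ)^2 * t * (16000 * (τ^2*ℓ)) := h6
      _ = 1024000 * ((τ:ℝ)^4 * ℓ) * t := by ring
  rw [div_le_iff₀ (by positivity)]
  have h7 : (τ:ℝ)^4 ≤ (6*ℓ)^4 := pow_le_pow_left₀ hτpos.le hτ6 4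
  calc c * (L:ℝ)^3 ≤ 1024000 * ((τ:ℝ)^4 * ℓ) * t := h5
    _ ≤ 1024000 * ((6*ℓ)^4 * ℓ) * t := by
        apply mul_le_mul_of_nonneg_right _ ht0
        apply mul_le_mul_of_nonneg_left _ (by norm_num)
        exact mul_le_mul_of_nonneg_right h7 hℓpos.le
    _ = t * (1327104000 * ℓ^5) := by ring

theorem main : ∀ᶠ n : ℕ in Filter.atTop, (Real.log n)^3 / (Real.log (Real.log n))^6 ≤
      (((Finset.Icc 1 n).filter (fun k : ℕ =>
      ⌊Real.sqrt 2 * 2^k⌋ % 2 ≠ ⌊Real.sqrt 2 * 2^(k+1)⌋ % 2)).card : ℝ) := by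
  classical
  obtain ⟨c, hc, hin⟩ := inert_count
  obtain ⟨X, hX⟩ := Filter.eventually_atTop.1 hin
  -- conditions on `L`
  have hcastL : Filter.Tendsto (fun L : ℕ => (L:ℝ)) Filter.atTop Filter.atTop :=
    tendsto_natCast_atTop_atTop
  have hlogL : Filter.Tendsto (fun L : ℕ => Real.log L) Filter.atTop Filter.atTop :=
    Real.tendsto_log_atTop.comp hcastL
  have hlittle : ∀ᶠ L : ℕ in Filter.atTop, 1000000 * (Real.log L)^2 ≤ L := by
    have h := (Real.isLittleO_pow_log_id_atTop (n := 2)).bound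
      (show (0:ℝ) < 1/1000000 by norm_num)
    have h2 := hcastL.eventually h
    filter_upwards [h2, Filter.eventually_ge_atTop 1] with L h3 h4
    simp only [id, Real.norm_eq_abs] at h3
    rw [abs_of_nonneg (by positivity), abs_of_nonneg (by positivity)] at h3
    linarith
  have hXL : ∀ᶠ L : ℕ in Filter.atTop, (X:ℝ) ≤ (L:ℝ) / (96 * Real.log L) := by
    have h := (Real.isLittleO_log_id_atTop).bound
      (show (0:ℝ) < 1/(96 * (X+1)) by positivity)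
    have h2 := hcastL.eventually h
    filter_upwards [h2, hlogL.eventually_ge_atTop 1, Filter.eventually_ge_atTop 1] with L h3 h4 h5
    simp only [id, Real.norm_eq_abs] at h3
    rw [abs_of_nonneg (by linarith), abs_of_nonneg (by positivity)] at h3
    rw [le_div_iff₀ (by positivity)]
    have h6 : Real.log L * (96 * (X+1)) ≤ L := by
      have := mul_le_mul_of_nonneg_right h3 (show (0:ℝ) ≤ 96 * ((X:ℝ)+1) by positivity)
      calc Real.log L * (96 * (X+1)) ≤ 1 / (96 * ((X:ℝ)+1)) * L * (96 * (X+1)) := this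
        _ = L := by field_simp
    nlinarith
  have hLev : ∀ᶠ L : ℕ in Filter.atTop, 100 ≤ Real.log L ∧ 1000000 * (Real.log L)^2 ≤ L ∧
      (X:ℝ) ≤ (L:ℝ) / (96 * Real.log L) ∧ 65 * 1327104000 / c ≤ Real.log L := by
    filter_upwards [hlogL.eventually_ge_atTop 100, hlittle, hXL,
      hlogL.eventually_ge_atTop (65 * 1327104000 / c)] with L h1 h2 h3 h4
    exact ⟨h1, h2, h3, h4⟩
  have hlog2t : Filter.Tendsto (fun n : ℕ => Nat.log 2 n) Filter.atTop Filter.atTop := by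
    apply Filter.tendsto_atTop.2
    intro b
    filter_upwards [Filter.eventually_ge_atTop (2^b)] with n hn
    calc b = Nat.log 2 (2^b) := (Nat.log_pow (by norm_num) b).symm
      _ ≤ Nat.log 2 n := Nat.log_mono_right hn
  filter_upwards [hlog2t.eventually hLev, Filter.eventually_ge_atTop 1] with n hn hn1
  obtain ⟨h100, hbig, hX1, hcl⟩ := hn
  obtain ⟨L, hL⟩ : ∃ L, L = Nat.log 2 n := ⟨_, rfl⟩
  rw [← hL] at h100 hbig hX1 hcl
  obtain ⟨C, hC⟩ : ∃ C, C = ((Finset.Icc 1 n).filter (fun k : ℕ =>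
      ⌊Real.sqrt 2 * 2^k⌋ % 2 ≠ ⌊Real.sqrt 2 * 2^(k+1)⌋ % 2)).card := ⟨_, rfl⟩
  rw [← hC]
  by_contra hcon
  push Not at hcon
  -- bounds for log n
  have hn0 : n ≠ 0 := by omega
  have hLn : 2^L ≤ n := by rw [hL]; exact Nat.pow_log_le_self 2 hn0
  have hnL : n < 2^(L+1) := by rw [hL]; exact Nat.lt_pow_succ_log_self (by norm_num) n
  obtain ⟨ℓ, hℓ⟩ : ∃ ℓ, ℓ = Real.log L := ⟨_, rfl⟩
  rw [← hℓ] at h100 hbig hX1 hcl
  have hℓpos : 0 < ℓ := by linarith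
  have hL10 : (10000000000:ℝ) ≤ L := by nlinarith
  have hlog2a : (0.6931471803:ℝ) < Real.log 2 := Real.log_two_gt_d9
  have hlog2b : Real.log 2 < (0.6931471808:ℝ) := Real.log_two_lt_d9
  have hlogn1 : Real.log n ≤ L := by
    have h1 : Real.log n ≤ (L+1:ℕ) * Real.log 2 := by
      rw [← Real.log_pow]
      apply Real.log_le_log (by exact_mod_cast Nat.pos_of_ne_zero hn0)
      exact_mod_cast hnL.le
    push_cast at h1
    nlinarith
  have hlogn2 : (L:ℝ)/2 ≤ Real.log n := by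
    have h1 : (L:ℝ) * Real.log 2 ≤ Real.log n := by
      rw [← Real.log_pow]
      apply Real.log_le_log (by positivity)
      exact_mod_cast hLn
    nlinarith
  have hll : ℓ/2 ≤ Real.log (Real.log n) := by
    have h1 : Real.log ((L:ℝ)/2) ≤ Real.log (Real.log n) :=
      Real.log_le_log (by linarith) hlogn2
    rw [Real.log_div (by linarith) (by norm_num), ← hℓ] at h1
    linarith
  have hlognpos : 0 ≤ Real.log n := by linarith
  have htarget : (Real.log n)^3 / (Real.log (Real.log n))^6 ≤ 64 * (L:ℝ)^3 / ℓ^6 := by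
    calc (Real.log n)^3 / (Real.log (Real.log n))^6 ≤ (L:ℝ)^3 / (ℓ/2)^6 := by
          apply div_le_div₀ (by positivity) (pow_le_pow_left₀ hlognpos hlogn1 3) (by positivity)
          exact pow_le_pow_left₀ (by positivity) hll 6
      _ = 64 * (L:ℝ)^3 / ℓ^6 := by field_simp; norm_num
  have hCt : (C:ℝ) < 64 * (L:ℝ)^3 / ℓ^6 := lt_of_lt_of_le hcon htarget
  have hℓ6 : (64:ℝ) ≤ ℓ^6 := by
    calc (64:ℝ) ≤ 100^6 := by norm_num
      _ ≤ ℓ^6 := pow_le_pow_left₀ (by norm_num) h100 6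
  have hCL : (C:ℝ) < (L:ℝ)^3 := by
    refine lt_of_lt_of_le hCt ?_
    rw [div_le_iff₀ (by positivity), mul_comm (64:ℝ)]
    exact mul_le_mul_of_nonneg_left hℓ6 (by positivity)
  have hCLn : C < L^3 := by exact_mod_cast hCL
  have hLn2 : 2 ≤ L := by
    have : (2:ℝ) ≤ L := by linarith
    exact_mod_cast this
  have ht1 : (C + 1) + 1 ≤ L^4 := by
    have h1 : L^4 = L * L^3 := by ring
    have h2 : 2 * L^3 ≤ L * L^3 := Nat.mul_le_mul_right _ hLn2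
    have h3 : 1 ≤ L^3 := Nat.one_le_pow _ _ (by omega)
    rw [h1]; omega
  have hp := params L (C+1) c hc (by rw [← hℓ]; exact h100) (by rw [← hℓ]; exact hbig) (by
    intro P hP
    rw [← hℓ] at hP
    apply hX P
    have : (X:ℝ) ≤ P := hX1.trans hP
    exact_mod_cast this) (by rw [hC]; exact card_E_le L n hLn) ht1
  rw [← hℓ] at hp
  push_cast at hp
  -- contradiction
  have h1 : 65 * (L:ℝ)^3 / ℓ^6 ≤ c * (L:ℝ)^3 / (1327104000 * ℓ^5) := by
    rw [div_le_div_iff₀ (by positivity) (by positivity)]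
    have h2 : 65 * 1327104000 ≤ c * ℓ := by
      rw [div_le_iff₀ hc] at hcl
      linarith
    calc 65 * (L:ℝ)^3 * (1327104000 * ℓ^5) = (65 * 1327104000) * ((L:ℝ)^3 * ℓ^5) := by ring
      _ ≤ (c * ℓ) * ((L:ℝ)^3 * ℓ^5) := mul_le_mul_of_nonneg_right h2 (by positivity)
      _ = c * (L:ℝ)^3 * ℓ^6 := by ring
  have h3 : (1:ℝ) ≤ (L:ℝ)^3 / ℓ^6 := by
    rw [le_div_iff₀ (by positivity), one_mul]
    have h4 : ℓ^2 ≤ L := by nlinarith
    calc ℓ^6 = (ℓ^2)^3 := by ring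
      _ ≤ (L:ℝ)^3 := pow_le_pow_left₀ (by positivity) h4 3
  have h5 : 65 * (L:ℝ)^3 / ℓ^6 = 64 * (L:ℝ)^3 / ℓ^6 + (L:ℝ)^3 / ℓ^6 := by ring
  linarith

end Pool.Agent.SqrtDC
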